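import Mathlib

open MeasureTheory Filter Topology Set

namespace Pool.Agent.W_MP_4481e3_an

/-- invariance under integer translations -/
def Per (A : Set ℝ) : Prop := ∀ (x : ℝ) (m : ℤ), x + m ∈ A ↔ x ∈ A

lemma Per.of_one {A : Set ℝ} (h : ∀ x, x + 1 ∈ A ↔ x ∈ A) : Per A := by
  intro x m
  induction m using Int.induction_on generalizing x with
  | zero => simp
  | succ i ih =>
    have : x + ((i : ℤ) + 1 : ℤ) = (x + (i:ℤ)) + 1 := by push_cast; ring
    rw [this, h, ih]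
  | pred i ih =>
    have : x + ((-(i : ℤ) - 1 : ℤ) : ℝ) + 1 = x + ((-(i:ℤ) : ℤ) : ℝ) := by push_cast; ring
    rw [← h, this, ih]

lemma Per.compl {A : Set ℝ} (h : Per A) : Per Aᶜ := fun x m => not_congr (h x m)

lemma Per.scale {A : Set ℝ} (h : Per A) (N : ℕ) : Per {x | (N:ℝ) * x ∈ A} := by
  intro x m
  simp only [mem_ofPred_eq]
  have : (N:ℝ) * (x + m) = N * x + ((N * m : ℤ) : ℝ) := by push_cast; ring
  rw [this, h]

lemma Per.vol_Ioc {A : Set ℝ} (h : Per A) (hA : MeasurableSet A) (a b : ℝ) :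
    volume (A ∩ Ioc a (a + 1)) = volume (A ∩ Ioc b (b + 1)) := by
  have h1 := isAddFundamentalDomain_Ioc (T := (1:ℝ)) one_pos a volume
  have h2 := isAddFundamentalDomain_Ioc (T := (1:ℝ)) one_pos b volume
  refine h1.measure_set_eq h2 hA ?_
  rintro ⟨g, hg⟩
  rw [AddSubgroup.mem_zmultiples_iff] at hg
  obtain ⟨m, rfl⟩ := hg
  ext x
  simp only [mem_preimage]
  have : ((⟨m • (1:ℝ), by exact ⟨m, rfl⟩⟩ : AddSubgroup.zmultiples (1:ℝ)) +ᵥ x) = x + m := by
    rw [AddSubgroup.vadd_def]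
    simp [add_comm]
  rw [this, h]

lemma Per.vol_Ioc_nat {A : Set ℝ} (h : Per A) (hA : MeasurableSet A) (N : ℕ) :
    volume (A ∩ Ioc 0 (N:ℝ)) = N * volume (A ∩ Ioc 0 1) := by
  induction N with
  | zero => simp
  | succ N ih =>
    have h1 : A ∩ Ioc 0 ((N + 1 : ℕ) : ℝ) = (A ∩ Ioc 0 (N:ℝ)) ∪ (A ∩ Ioc (N:ℝ) (N + 1)) := by
      rw [← inter_union_distrib_left, Ioc_union_Ioc_eq_Ioc (Nat.cast_nonneg N) (by linarith)]
      push_cast; rfl
    rw [h1, measure_union _ (hA.inter measurableSet_Ioc), ih, h.vol_Ioc hA (N:ℝ) 0]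
    · simp only [zero_add]
      push_cast
      ring
    · refine Disjoint.mono inter_subset_right inter_subset_right ?_
      rw [Set.disjoint_left]
      intro x hx hx'
      exact absurd hx'.1 (not_lt.2 hx.2)

lemma Per.vol_scale {A : Set ℝ} (h : Per A) (hA : MeasurableSet A) {N : ℕ} (hN : 0 < N) (a : ℝ) :
    volume ({x | (N:ℝ) * x ∈ A} ∩ Ioc a (a + 1)) = volume (A ∩ Ioc 0 1) := by
  have hN' : (0:ℝ) < N := by exact_mod_cast hN
  have hm : MeasurableSet {x | (N:ℝ) * x ∈ A} := (measurable_const_mul (N:ℝ)) hA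
  rw [(h.scale N).vol_Ioc hm a 0, zero_add]
  have h1 : {x | (N:ℝ) * x ∈ A} ∩ Ioc 0 1 = (fun x => (N:ℝ) * x) ⁻¹' (A ∩ Ioc 0 (N:ℝ)) := by
    ext x
    simp only [mem_inter_iff, mem_ofPred_eq, mem_Ioc, mem_preimage]
    constructor
    · rintro ⟨h1, h2, h3⟩
      exact ⟨h1, by positivity, by nlinarith⟩
    · rintro ⟨h1, h2, h3⟩
      refine ⟨h1, ?_, ?_⟩
      · by_contra hc
        push Not at hc
        nlinarith
      · by_contra hc
        push Not at hc
        nlinarith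
  rw [h1, Real.volume_preimage_mul_left hN'.ne', h.vol_Ioc_nat hA, ← mul_assoc,
    abs_of_pos (inv_pos.2 hN'), ← ENNReal.ofReal_natCast, ← ENNReal.ofReal_mul (by positivity),
    inv_mul_cancel₀ hN'.ne', ENNReal.ofReal_one, one_mul]

end Pool.Agent.W_MP_4481e3_an
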