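import Pool.Agent.W_MP_4481e3_an.Basic
import Pool.Agent.W_MP_4481e3_an.Periodic

open MeasureTheory Filter Topology Set

namespace Pool.Agent.W_MP_4481e3_an

variable {α : ℂ} {L : ℕ}

/-- the set where `cos (2 π y)` is small -/
def smallCos (η : ℝ) : Set ℝ := {y | |Real.cos (2 * Real.pi * y)| < η}

lemma smallCos_measurable (η : ℝ) : MeasurableSet (smallCos η) := by
  apply IsOpen.measurableSet
  apply isOpen_lt _ continuous_const
  exact (Real.continuous_cos.comp (by fun_prop)).abs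

lemma smallCos_per (η : ℝ) : Per (smallCos η) := by
  apply Per.of_one
  intro x
  unfold smallCos
  simp only [mem_ofPred_eq]
  have : 2 * Real.pi * (x + 1) = 2 * Real.pi * x + 2 * Real.pi := by ring
  rw [this, Real.cos_add_two_pi]

lemma abs_cos_ge {y : ℝ} (h0 : 0 ≤ y) (h1 : y ≤ 1 / 2) : 4 * |y - 1 / 4| ≤ |Real.cos (2 * Real.pi * y)| := by
  have hpi := Real.pi_pos
  have key : ∀ x : ℝ, 0 ≤ x → x ≤ 1 / 4 → 4 * x ≤ Real.sin (2 * Real.pi * x) := by
    intro x hx hx'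
    have := Real.mul_le_sin (x := 2 * Real.pi * x) (by positivity) (by nlinarith)
    calc 4 * x = 2 / Real.pi * (2 * Real.pi * x) := by field_simp; ring
      _ ≤ _ := this
  rcases le_total y (1 / 4) with h | h
  · rw [abs_of_nonpos (by linarith : y - 1 / 4 ≤ 0)]
    have h3 := key (1 / 4 - y) (by linarith) (by linarith)
    have h4 : Real.sin (2 * Real.pi * (1 / 4 - y)) = Real.cos (2 * Real.pi * y) := by
      rw [← Real.sin_pi_div_two_sub]; congr 1; ring
    rw [h4] at h3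
    refine le_trans ?_ (le_abs_self _)
    linarith
  · rw [abs_of_nonneg (by linarith : 0 ≤ y - 1 / 4)]
    have h3 := key (y - 1 / 4) (by linarith) (by linarith)
    have h4 : Real.sin (2 * Real.pi * (y - 1 / 4)) = - Real.cos (2 * Real.pi * y) := by
      have : 2 * Real.pi * (y - 1 / 4) = -(Real.pi / 2 - 2 * Real.pi * y) := by ring
      rw [this, Real.sin_neg, Real.sin_pi_div_two_sub]
    rw [h4] at h3
    refine le_trans h3 (neg_le_abs _)

lemma smallCos_vol {η : ℝ} (hη : 0 ≤ η) : volume (smallCos η ∩ Ioc 0 1) ≤ ENNReal.ofReal η := by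
  have hsub : smallCos η ∩ Ioc 0 1 ⊆ Ioo (1/4 - η/4) (1/4 + η/4) ∪ Ioo (3/4 - η/4) (3/4 + η/4) := by
    rintro y ⟨hy, hy0, hy1⟩
    unfold smallCos at hy
    simp only [mem_ofPred_eq] at hy
    rcases le_or_gt y (1/2) with h | h
    · left
      have := (abs_cos_ge hy0.le h).trans_lt hy
      have h2 : |y - 1 / 4| < η / 4 := by linarith
      rw [abs_lt] at h2
      constructor <;> linarith [h2.1, h2.2]
    · right
      have h3 : |Real.cos (2 * Real.pi * (y - 1/2))| = |Real.cos (2 * Real.pi * y)| := by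
        have : 2 * Real.pi * (y - 1/2) = 2 * Real.pi * y - Real.pi := by ring
        rw [this, Real.cos_sub_pi, abs_neg]
      have := (abs_cos_ge (y := y - 1/2) (by linarith) (by linarith))
      rw [h3] at this
      have h2 : |y - 1/2 - 1 / 4| < η / 4 := by linarith
      rw [abs_lt] at h2
      constructor <;> linarith [h2.1, h2.2]
  refine (measure_mono hsub).trans ((measure_union_le _ _).trans ?_)
  rw [Real.volume_Ioo, Real.volume_Ioo, ← ENNReal.ofReal_add (by linarith) (by linarith)]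
  apply ENNReal.ofReal_le_ofReal
  linarith

/-- the exceptional set at infinity -/
def badInf (L : ℕ) (θ : ℝ) : Set ℝ := {x | ∃ k : ℕ, (L : ℝ) ^ k * x ∈ smallCos (θ / 2 ^ k)}

lemma badInf_eq (θ : ℝ) : badInf L θ = ⋃ k : ℕ, {x | ((L ^ k : ℕ) : ℝ) * x ∈ smallCos (θ / 2 ^ k)} := by
  ext x
  simp [badInf]

lemma badInf_measurable (θ : ℝ) : MeasurableSet (badInf L θ) := by
  rw [badInf_eq]
  exact MeasurableSet.iUnion fun k => (measurable_const_mul _) (smallCos_measurable _)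

lemma badInf_per (θ : ℝ) : Per (badInf L θ) := by
  intro x m
  rw [badInf_eq]
  simp only [mem_iUnion]
  exact exists_congr fun k => (smallCos_per _).scale (L ^ k) x m

lemma badInf_vol (hL : 0 < L) {θ : ℝ} (hθ : 0 ≤ θ) (a : ℝ) :
    volume (badInf L θ ∩ Ioc a (a + 1)) ≤ ENNReal.ofReal (2 * θ) := by
  rw [badInf_eq, iUnion_inter]
  refine (measure_iUnion_le _).trans ?_
  have h1 : ∀ k : ℕ, volume ({x | ((L ^ k : ℕ) : ℝ) * x ∈ smallCos (θ / 2 ^ k)} ∩ Ioc a (a + 1)) ≤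
      ENNReal.ofReal (θ / 2 ^ k) := by
    intro k
    rw [(smallCos_per _).vol_scale (smallCos_measurable _) (pow_pos hL k)]
    exact smallCos_vol (by positivity)
  refine (ENNReal.tsum_le_tsum h1).trans ?_
  have hsum : HasSum (fun k : ℕ => θ / 2 ^ k) (2 * θ) := by
    have e : (fun k : ℕ => θ / 2 ^ k) = fun k => θ * (1 / 2) ^ k := by
      ext k
      rw [one_div, inv_pow, div_eq_mul_inv]
    rw [e, mul_comm 2 θ]
    exact (hasSum_geometric_two).mul_left θ
  rw [← ENNReal.ofReal_tsum_of_nonneg (fun k => by positivity) hsum.summable, hsum.tsum_eq]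

lemma badInf_vol_Icc (hL : 0 < L) {θ : ℝ} (hθ : 0 ≤ θ) (a : ℝ) :
    volume (badInf L θ ∩ Icc (a - 1) (a + 1)) ≤ ENNReal.ofReal (4 * θ) := by
  have hsub : badInf L θ ∩ Icc (a - 1) (a + 1) ⊆
      ({a - 1} : Set ℝ) ∪ ((badInf L θ ∩ Ioc (a - 1) (a - 1 + 1)) ∪ (badInf L θ ∩ Ioc a (a + 1))) := by
    rintro x ⟨hx, h1, h2⟩
    rcases eq_or_lt_of_le h1 with h | h
    · left; exact h.symm
    · right
      rcases le_or_gt x a with h3 | h3
      · left; exact ⟨hx, h, by linarith⟩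
      · right; exact ⟨hx, h3, h2⟩
  refine (measure_mono hsub).trans ((measure_union_le _ _).trans ?_)
  rw [Real.volume_singleton, zero_add]
  refine (measure_union_le _ _).trans ?_
  refine (add_le_add (badInf_vol hL hθ _) (badInf_vol hL hθ _)).trans ?_
  rw [← ENNReal.ofReal_add (by positivity) (by positivity)]
  apply ENNReal.ofReal_le_ofReal
  linarith

/-- escape to infinity -/
lemma escape (hα0 : α ≠ 0) {θ ρ : ℝ} (hθ : 0 < θ)
    (hρ : 1 + 3 / (‖α‖ * θ) ≤ ρ) {x : ℝ} (hx : x ∉ badInf L θ) {z : ℂ} (hz : ρ ≤ ‖z‖) (k : ℕ) :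
    2 ^ k * ρ ≤ ‖O α L k x z‖ := by
  have hα' : 0 < ‖α‖ := norm_pos_iff.2 hα0
  have hρ1 : 1 ≤ ρ := by
    have : 0 < 3 / (‖α‖ * θ) := by positivity
    linarith
  have h3 : 3 ≤ ‖α‖ * θ * (ρ - 1) := by
    have h4 : 3 / (‖α‖ * θ) ≤ ρ - 1 := by linarith
    rw [div_le_iff₀ (by positivity)] at h4
    linarith
  induction k with
  | zero => simpa using hz
  | succ k ih =>
    rw [O_real_succ]
    set w := O α L k x z with hw
    set c := Real.cos (2 * Real.pi * ((L : ℝ) ^ k * x)) with hc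
    have hck : θ / 2 ^ k ≤ |c| := by
      by_contra hcon
      push Not at hcon
      exact hx ⟨k, hcon⟩
    have h2k : (1:ℝ) ≤ 2 ^ k := one_le_pow₀ (by norm_num)
    have hwn : 1 ≤ ‖w‖ := by nlinarith
    have h5 : ‖w + α * c * w * (1 - w)‖ ≥ ‖α‖ * |c| * ‖w‖ * (‖w‖ - 1) - ‖w‖ := by
      have h6 : ‖α * c * w * (1 - w)‖ ≤ ‖w + α * c * w * (1 - w)‖ + ‖w‖ := by
        have := norm_sub_le (w + α * c * w * (1 - w)) w
        simpa using this
      have h7 : ‖α * c * w * (1 - w)‖ = ‖α‖ * |c| * ‖w‖ * ‖1 - w‖ := by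
        rw [norm_mul, norm_mul, norm_mul, Complex.norm_real, Real.norm_eq_abs]
      have h8 : ‖w‖ - 1 ≤ ‖1 - w‖ := by
        have := norm_sub_norm_le w 1
        rw [norm_one, norm_sub_rev] at this
        exact this
      have h9 : ‖α‖ * |c| * ‖w‖ * (‖w‖ - 1) ≤ ‖α‖ * |c| * ‖w‖ * ‖1 - w‖ := by gcongr
      linarith
    have h10 : 3 ≤ ‖α‖ * |c| * (‖w‖ - 1) := by
      have h11 : 2 ^ k * (ρ - 1) ≤ ‖w‖ - 1 := by nlinarith
      calc 3 ≤ ‖α‖ * θ * (ρ - 1) := h3
        _ = ‖α‖ * (θ / 2 ^ k) * (2 ^ k * (ρ - 1)) := by field_simp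
        _ ≤ ‖α‖ * |c| * (‖w‖ - 1) := by
            have : 0 ≤ ρ - 1 := by linarith
            gcongr
    have h12 : 2 * ‖w‖ ≤ ‖w + α * c * w * (1 - w)‖ := by
      have : ‖α‖ * |c| * ‖w‖ * (‖w‖ - 1) = (‖α‖ * |c| * (‖w‖ - 1)) * ‖w‖ := by ring
      nlinarith
    calc 2 ^ (k + 1) * ρ = 2 * (2 ^ k * ρ) := by rw [pow_succ]; ring
      _ ≤ 2 * ‖w‖ := by linarith
      _ ≤ _ := h12

end Pool.Agent.W_MP_4481e3_an
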