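import Mathlib

open MeasureTheory Filter Topology Set

namespace Pool.Agent.W_MP_4481e3_an

lemma integral_scale {f : ℝ → ℝ} (hf : Continuous f) (hp : Function.Periodic f 1) {N : ℕ}
    (hN : 0 < N) : ∫ x in (0:ℝ)..1, f (N * x) = ∫ x in (0:ℝ)..1, f x := by
  have hN' : (0:ℝ) < N := by exact_mod_cast hN
  rw [intervalIntegral.integral_comp_mul_left _ hN'.ne', mul_zero, mul_one]
  have h := hp.intervalIntegral_add_zsmul_eq (N : ℤ) 0 (fun a b => hf.intervalIntegrable a b)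
  simp only [zero_add, zsmul_eq_mul, mul_one, Int.cast_natCast] at h
  rw [h, smul_eq_mul]
  field_simp

lemma corr_bound {ψ : ℝ → ℝ} (hp : Function.Periodic ψ 1) {K M : ℝ} (hK : 0 ≤ K)
    (hlip : ∀ x y, |ψ x - ψ y| ≤ K * |x - y|) (hM : ∀ x, |ψ x| ≤ M)
    (h0 : ∫ x in (0:ℝ)..1, ψ x = 0) {N : ℕ} (hN : 0 < N) :
    |∫ x in (0:ℝ)..1, ψ x * ψ (N * x)| ≤ K * M / N := by
  have hN' : (0:ℝ) < N := by exact_mod_cast hN
  have hM0 : 0 ≤ M := (abs_nonneg _).trans (hM 0)
  have hc : Continuous ψ := by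
    have : LipschitzWith ⟨K, hK⟩ ψ := LipschitzWith.of_dist_le_mul fun x y => by
      rw [Real.dist_eq, Real.dist_eq]; exact hlip x y
    exact this.continuous
  have hcF : Continuous fun x => ψ x * ψ (N * x) := by fun_prop
  have hsum := intervalIntegral.sum_integral_adjacent_intervals (μ := volume)
    (f := fun x => ψ x * ψ (N * x)) (a := fun i : ℕ => (i:ℝ) / N) (n := N)
    (fun k _ => hcF.intervalIntegrable _ _)
  have e1 : ((0:ℕ):ℝ) / N = 0 := by simp
  have e2 : ((N:ℕ):ℝ) / N = 1 := div_self hN'.ne'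
  simp only [e1, e2] at hsum
  rw [← hsum]
  refine (Finset.abs_sum_le_sum_abs _ _).trans ?_
  have hterm : ∀ i ∈ Finset.range N,
      |∫ x in ((i:ℝ) / N)..(((i + 1 : ℕ):ℝ) / N), ψ x * ψ (N * x)| ≤ K * M / N ^ 2 := by
    intro i _
    have hle : (i:ℝ) / N ≤ ((i + 1 : ℕ):ℝ) / N := by
      push_cast; gcongr; linarith
    have hz : ∫ x in ((i:ℝ) / N)..(((i + 1 : ℕ):ℝ) / N), ψ (i / N) * ψ (N * x) = 0 := by
      rw [intervalIntegral.integral_const_mul, intervalIntegral.integral_comp_mul_left _ hN'.ne']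
      have e3 : (N:ℝ) * (i / N) = i := by field_simp
      have e4 : (N:ℝ) * (((i + 1 : ℕ):ℝ) / N) = i + 1 := by push_cast; field_simp
      rw [e3, e4]
      have h5 := hp.intervalIntegral_add_eq (i:ℝ) 0
      rw [h5, zero_add, h0]
      simp
    have hsplit : (∫ x in ((i:ℝ) / N)..(((i + 1 : ℕ):ℝ) / N), ψ x * ψ (N * x)) =
        ∫ x in ((i:ℝ) / N)..(((i + 1 : ℕ):ℝ) / N), (ψ x - ψ (i / N)) * ψ (N * x) := by
      have : (fun x => (ψ x - ψ (i / N)) * ψ (N * x)) =
          fun x => ψ x * ψ (N * x) - ψ (i / N) * ψ (N * x) := by ext x; ring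
      rw [this, intervalIntegral.integral_sub (hcF.intervalIntegrable _ _)
        (by apply Continuous.intervalIntegrable; fun_prop), hz, sub_zero]
    rw [hsplit]
    have hb := intervalIntegral.norm_integral_le_of_norm_le_const (a := (i:ℝ) / N)
      (b := ((i + 1 : ℕ):ℝ) / N) (f := fun x => (ψ x - ψ (i / N)) * ψ (N * x)) (C := K / N * M) (by
        intro x hx
        rw [uIoc_of_le hle] at hx
        rw [norm_mul, Real.norm_eq_abs, Real.norm_eq_abs]
        have h6 : |x - i / N| ≤ 1 / N := by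
          have h7 := hx.2
          push_cast at h7
          rw [add_div] at h7
          rw [abs_le]; constructor <;> linarith [hx.1, div_pos one_pos hN']
        calc |ψ x - ψ (i / N)| * |ψ (N * x)| ≤ (K * |x - i / N|) * M := by
              gcongr
              · exact hlip _ _
              · exact hM _
          _ ≤ (K * (1 / N)) * M := by gcongr
          _ = K / N * M := by ring)
    rw [Real.norm_eq_abs] at hb
    refine hb.trans (le_of_eq ?_)
    have : ((i + 1 : ℕ):ℝ) / N - i / N = 1 / N := by push_cast; ring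
    rw [this, abs_of_pos (by positivity)]
    field_simp
  refine (Finset.sum_le_sum hterm).trans (le_of_eq ?_)
  rw [Finset.sum_const, Finset.card_range, nsmul_eq_mul]
  field_simp

/-- second moment of Birkhoff sums -/
lemma second_moment {ψ : ℝ → ℝ} (hp : Function.Periodic ψ 1) {K M : ℝ} (hK : 0 ≤ K)
    (hlip : ∀ x y, |ψ x - ψ y| ≤ K * |x - y|) (hM : ∀ x, |ψ x| ≤ M)
    (h0 : ∫ x in (0:ℝ)..1, ψ x = 0) {L : ℕ} (hL : 2 ≤ L) (n : ℕ) :
    ∫ x in (0:ℝ)..1, (∑ k ∈ Finset.range n, ψ ((L:ℝ) ^ k * x)) ^ 2 ≤ (2 * K * M + M ^ 2) * n := by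
  have hM0 : 0 ≤ M := (abs_nonneg _).trans (hM 0)
  have hc : Continuous ψ := by
    have : LipschitzWith ⟨K, hK⟩ ψ := LipschitzWith.of_dist_le_mul fun x y => by
      rw [Real.dist_eq, Real.dist_eq]; exact hlip x y
    exact this.continuous
  have hL2 : (2:ℝ) ≤ L := by exact_mod_cast hL
  have hL0 : (0:ℝ) < L := by linarith
  induction n with
  | zero => simp
  | succ n ih =>
    have hcS : Continuous fun x => ∑ k ∈ Finset.range n, ψ ((L:ℝ) ^ k * x) := by fun_prop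
    have hexp : ∀ x, (∑ k ∈ Finset.range (n + 1), ψ ((L:ℝ) ^ k * x)) ^ 2 =
        (∑ k ∈ Finset.range n, ψ ((L:ℝ) ^ k * x)) ^ 2 +
        2 * (∑ k ∈ Finset.range n, ψ ((L:ℝ) ^ k * x) * ψ ((L:ℝ) ^ n * x)) + ψ ((L:ℝ) ^ n * x) ^ 2 := by
      intro x
      rw [Finset.sum_range_succ, ← Finset.sum_mul]; ring
    have hcorr : ∀ k ∈ Finset.range n,
        ∫ x in (0:ℝ)..1, ψ ((L:ℝ) ^ k * x) * ψ ((L:ℝ) ^ n * x) ≤ K * M * (1 / 2) ^ (n - k) := by
      intro k hk
      rw [Finset.mem_range] at hk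
      have h1 := integral_scale (f := fun y => ψ y * ψ (((L ^ (n - k) : ℕ):ℝ) * y)) (by fun_prop)
        (by
          intro y
          have e : ((L ^ (n - k) : ℕ):ℝ) * (y + 1) = ((L ^ (n - k) : ℕ):ℝ) * y + ((L ^ (n - k) : ℕ):ℝ) := by
            ring
          have := hp.nat_mul (L ^ (n - k)) (((L ^ (n - k) : ℕ):ℝ) * y)
          rw [mul_one] at this
          simp only [e, this, hp y]) (N := L ^ k) (by positivity)
      have h2 : (fun x : ℝ => ψ (((L ^ k : ℕ):ℝ) * x) * ψ (((L ^ (n - k) : ℕ):ℝ) * (((L ^ k : ℕ):ℝ) * x))) =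
          fun x => ψ ((L:ℝ) ^ k * x) * ψ ((L:ℝ) ^ n * x) := by
        ext x
        have : ((L ^ (n - k) : ℕ):ℝ) * (((L ^ k : ℕ):ℝ) * x) = (L:ℝ) ^ n * x := by
          push_cast
          rw [← mul_assoc, ← pow_add, Nat.sub_add_cancel hk.le]
        rw [this]; push_cast; rfl
      rw [h2] at h1
      rw [h1]
      refine (le_abs_self _).trans ((corr_bound hp hK hlip hM h0 (N := L ^ (n - k)) (by positivity)).trans ?_)
      rw [div_eq_mul_inv]
      gcongr
      push_cast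
      rw [one_div, inv_pow]
      gcongr
    have hgeo : ∑ k ∈ Finset.range n, K * M * (1 / 2 : ℝ) ^ (n - k) ≤ K * M := by
      rw [← Finset.mul_sum]
      have : ∑ k ∈ Finset.range n, (1 / 2 : ℝ) ^ (n - k) ≤ 1 := by
        have h3 : ∀ m : ℕ, ∑ k ∈ Finset.range m, (1 / 2 : ℝ) ^ (m - k) = 1 - (1/2) ^ m := by
          intro m
          induction m with
          | zero => simp
          | succ m ihm =>
            rw [Finset.sum_range_succ]
            have h4 : ∑ k ∈ Finset.range m, (1 / 2 : ℝ) ^ (m + 1 - k) =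
                (1/2) * ∑ k ∈ Finset.range m, (1 / 2 : ℝ) ^ (m - k) := by
              rw [Finset.mul_sum]
              apply Finset.sum_congr rfl
              intro k hk
              rw [Finset.mem_range] at hk
              rw [show m + 1 - k = (m - k) + 1 by omega, pow_succ]; ring
            rw [h4, ihm]
            simp only [add_tsub_cancel_left, pow_one]
            rw [pow_succ]; ring
        rw [h3]
        have : (0:ℝ) < (1/2) ^ n := by positivity
        linarith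
      calc K * M * ∑ k ∈ Finset.range n, (1 / 2 : ℝ) ^ (n - k) ≤ K * M * 1 := by gcongr
        _ = K * M := mul_one _
    have hcT : ∀ k, Continuous fun x => ψ ((L:ℝ) ^ k * x) * ψ ((L:ℝ) ^ n * x) := by
      intro k; fun_prop
    have hc1 : Continuous fun x => (∑ k ∈ Finset.range n, ψ ((L:ℝ) ^ k * x)) ^ 2 := by fun_prop
    have hc2 : Continuous fun x =>
        2 * (∑ k ∈ Finset.range n, ψ ((L:ℝ) ^ k * x) * ψ ((L:ℝ) ^ n * x)) := by fun_prop
    have hc3 : Continuous fun x => ψ ((L:ℝ) ^ n * x) ^ 2 := by fun_prop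
    have hc12 : Continuous fun x => (∑ k ∈ Finset.range n, ψ ((L:ℝ) ^ k * x)) ^ 2 +
        2 * (∑ k ∈ Finset.range n, ψ ((L:ℝ) ^ k * x) * ψ ((L:ℝ) ^ n * x)) := hc1.add hc2
    rw [intervalIntegral.integral_congr (fun x _ => hexp x),
      intervalIntegral.integral_add (hc12.intervalIntegrable _ _) (hc3.intervalIntegrable _ _),
      intervalIntegral.integral_add (hc1.intervalIntegrable _ _) (hc2.intervalIntegrable _ _),
      intervalIntegral.integral_const_mul,
      intervalIntegral.integral_finsetSum (fun k _ => (hcT k).intervalIntegrable _ _)]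
    have h5 : ∫ x in (0:ℝ)..1, ψ ((L:ℝ) ^ n * x) ^ 2 ≤ M ^ 2 := by
      have h6 : (∫ x in (0:ℝ)..1, ψ ((L:ℝ) ^ n * x) ^ 2) ≤ ∫ _x in (0:ℝ)..1, M ^ 2 := by
        apply intervalIntegral.integral_mono_on (by norm_num) (hc3.intervalIntegrable _ _) (by simp)
        intro x _
        rw [← sq_abs]
        exact pow_le_pow_left₀ (abs_nonneg _) (hM _) 2
      simpa using h6
    have h7 := (Finset.sum_le_sum hcorr).trans hgeo
    push_cast
    linarith

/-- Almost everywhere, `|S_{j²}| < ε j²` eventually. -/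
lemma ae_sq {ψ : ℝ → ℝ} (hp : Function.Periodic ψ 1) {K M : ℝ} (hK : 0 ≤ K)
    (hlip : ∀ x y, |ψ x - ψ y| ≤ K * |x - y|) (hM : ∀ x, |ψ x| ≤ M)
    (h0 : ∫ x in (0:ℝ)..1, ψ x = 0) {L : ℕ} (hL : 2 ≤ L) {ε : ℝ} (hε : 0 < ε) :
    ∀ᵐ x ∂(volume.restrict (Ioc (0:ℝ) 1)), ∀ᶠ j : ℕ in atTop,
      (∑ k ∈ Finset.range ((j + 1) ^ 2), ψ ((L:ℝ) ^ k * x)) < ε * ((j:ℝ) + 1) ^ 2 := by
  have hM0 : 0 ≤ M := (abs_nonneg _).trans (hM 0)
  have hc : Continuous ψ := by
    have : LipschitzWith ⟨K, hK⟩ ψ := LipschitzWith.of_dist_le_mul fun x y => by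
      rw [Real.dist_eq, Real.dist_eq]; exact hlip x y
    exact this.continuous
  set C := 2 * K * M + M ^ 2 with hC
  have hC0 : 0 ≤ C := by positivity
  set s : ℕ → Set ℝ := fun j => {x | (ε * ((j:ℝ) + 1) ^ 2) ^ 2 ≤
    (∑ k ∈ Finset.range ((j + 1) ^ 2), ψ ((L:ℝ) ^ k * x)) ^ 2} with hs
  have hbound : ∀ j, (volume.restrict (Ioc (0:ℝ) 1)) (s j) ≤
      ENNReal.ofReal (C / ε ^ 2 * (1 / ((j:ℝ) + 1) ^ 2)) := by
    intro j
    have hcont : Continuous fun x => (∑ k ∈ Finset.range ((j + 1) ^ 2), ψ ((L:ℝ) ^ k * x)) ^ 2 := by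
      fun_prop
    have hj : (0:ℝ) < (j:ℝ) + 1 := by positivity
    have h1 := mul_meas_ge_le_integral_of_nonneg (μ := volume.restrict (Ioc (0:ℝ) 1))
      (f := fun x => (∑ k ∈ Finset.range ((j + 1) ^ 2), ψ ((L:ℝ) ^ k * x)) ^ 2)
      (Filter.Eventually.of_forall fun x => by positivity)
      ((hcont.intervalIntegrable 0 1).1) ((ε * ((j:ℝ) + 1) ^ 2) ^ 2)
    rw [← intervalIntegral.integral_of_le (by norm_num)] at h1
    have h2 := h1.trans (second_moment hp hK hlip hM h0 hL _)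
    have h3 : (volume.restrict (Ioc (0:ℝ) 1)).real (s j) ≤ C / ε ^ 2 * (1 / ((j:ℝ) + 1) ^ 2) := by
      rw [div_mul_div_comm, mul_one, le_div_iff₀ (by positivity)]
      push_cast at h2
      have h4 : (ε * ((j:ℝ) + 1) ^ 2) ^ 2 * (volume.restrict (Ioc (0:ℝ) 1)).real (s j) =
          ((volume.restrict (Ioc (0:ℝ) 1)).real (s j) * (ε ^ 2 * ((j:ℝ) + 1) ^ 2)) * ((j:ℝ) + 1) ^ 2 := by
        ring
      rw [h4, ← hC] at h2
      exact le_of_mul_le_mul_right h2 (by positivity)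
    rw [← ENNReal.ofReal_toReal (measure_ne_top _ (s j))]
    exact ENNReal.ofReal_le_ofReal h3
  have hsum : (∑' j, (volume.restrict (Ioc (0:ℝ) 1)) (s j)) ≠ ⊤ := by
    have hsm : Summable fun j : ℕ => C / ε ^ 2 * (1 / ((j:ℝ) + 1) ^ 2) := by
      apply Summable.mul_left
      have := (summable_nat_add_iff (f := fun n : ℕ => 1 / (n:ℝ) ^ 2) 1).2
        (Real.summable_one_div_nat_pow.2 one_lt_two)
      simpa using this
    refine ne_top_of_le_ne_top ?_ (ENNReal.tsum_le_tsum hbound)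
    rw [← ENNReal.ofReal_tsum_of_nonneg (fun j => by positivity) hsm]
    exact ENNReal.ofReal_ne_top
  filter_upwards [ae_eventually_notMem hsum] with x hx
  filter_upwards [hx] with j hj
  rw [hs] at hj
  simp only [mem_ofPred_eq, not_le] at hj
  have h6 : (0:ℝ) ≤ ε * ((j:ℝ) + 1) ^ 2 := by positivity
  exact lt_of_pow_lt_pow_left₀ 2 h6 hj

/-- **Linear decay of Birkhoff sums** with negative mean, almost everywhere. -/
theorem ae_linear {φ : ℝ → ℝ} (hp : Function.Periodic φ 1) {K : ℝ} (hK : 0 ≤ K)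
    (hlip : ∀ x y, |φ x - φ y| ≤ K * |x - y|)
    (h0 : ∫ x in (0:ℝ)..1, φ x < 0) {L : ℕ} (hL : 2 ≤ L) :
    ∃ c > (0:ℝ), ∀ᵐ x ∂(volume.restrict (Ioc (0:ℝ) 1)), ∃ A : ℕ, ∀ n : ℕ,
      (∑ k ∈ Finset.range n, φ ((L:ℝ) ^ k * x)) ≤ A - c * n := by
  have hc : Continuous φ := by
    have : LipschitzWith ⟨K, hK⟩ φ := LipschitzWith.of_dist_le_mul fun x y => by
      rw [Real.dist_eq, Real.dist_eq]; exact hlip x y
    exact this.continuous
  set lam := ∫ x in (0:ℝ)..1, φ x with hlam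
  -- a bound for φ
  obtain ⟨M, hM⟩ : ∃ M : ℝ, ∀ x, |φ x| ≤ M := by
    refine ⟨|φ 0| + K, fun x => ?_⟩
    have h1 : φ x = φ (Int.fract x) := by
      have := hp.sub_zsmul_eq (x := x) ⌊x⌋
      rw [zsmul_eq_mul, mul_one, Int.self_sub_floor] at this
      exact this.symm
    rw [h1]
    have h2 := hlip (Int.fract x) 0
    have h3 : |φ (Int.fract x)| ≤ |φ (Int.fract x) - φ 0| + |φ 0| := by
      have := abs_add_le (φ (Int.fract x) - φ 0) (φ 0)
      simpa using this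
    have h4 : |Int.fract x - 0| ≤ 1 := by
      rw [sub_zero, abs_of_nonneg (Int.fract_nonneg x)]; exact (Int.fract_lt_one x).le
    nlinarith
  have hM0 : 0 ≤ M := (abs_nonneg _).trans (hM 0)
  set ψ : ℝ → ℝ := fun x => φ x - lam with hψ
  have hψp : Function.Periodic ψ 1 := by intro x; simp only [hψ, hp x]
  have hψl : ∀ x y, |ψ x - ψ y| ≤ K * |x - y| := by
    intro x y
    simp only [hψ, sub_sub_sub_cancel_right]
    exact hlip x y
  have hψM : ∀ x, |ψ x| ≤ M + |lam| := fun x => (abs_sub _ _).trans (by linarith [hM x])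
  have hψ0 : ∫ x in (0:ℝ)..1, ψ x = 0 := by
    simp only [hψ]
    rw [intervalIntegral.integral_sub (hc.intervalIntegrable _ _) (by simp)]
    simp [hlam]
  refine ⟨-lam / 8, by linarith, ?_⟩
  filter_upwards [ae_sq hψp hK hψl hψM hψ0 hL (ε := -lam / 2) (by linarith)] with x hx
  rw [eventually_atTop] at hx
  obtain ⟨j₀, hj₀⟩ := hx
  set S : ℕ → ℝ := fun n => ∑ k ∈ Finset.range n, φ ((L:ℝ) ^ k * x) with hS
  have hSsq : ∀ j ≥ j₀, S ((j + 1) ^ 2) ≤ lam / 2 * ((j:ℝ) + 1) ^ 2 := by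
    intro j hj
    have h1 := hj₀ j hj
    simp only [hψ, Finset.sum_sub_distrib, Finset.sum_const, Finset.card_range, nsmul_eq_mul] at h1
    push_cast at h1
    simp only [hS]
    linarith
  have hSinc : ∀ m n, m ≤ n → S n ≤ S m + M * ((n:ℝ) - m) := by
    intro m n hmn
    induction n, hmn using Nat.le_induction with
    | base => simp
    | succ n hmn ih =>
      simp only [hS] at ih ⊢
      rw [Finset.sum_range_succ]
      have := (le_abs_self _).trans (hM ((L:ℝ) ^ n * x))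
      push_cast
      linarith
  -- choose the threshold
  obtain ⟨j₁, hj₁⟩ := exists_nat_gt (max (3:ℝ) (16 * M / (-lam)))
  have hj₁3 : (3:ℝ) < j₁ := lt_of_le_of_lt (le_max_left _ _) hj₁
  have hj₁M : 16 * M / (-lam) < j₁ := lt_of_le_of_lt (le_max_right _ _) hj₁
  rw [div_lt_iff₀ (by linarith)] at hj₁M
  set n₀ := (max j₀ j₁ + 1) ^ 2 with hn₀
  have hbig : ∀ n ≥ n₀, S n ≤ -(-lam / 8) * n := by
    intro n hn
    have hsq := Nat.sqrt_le' n
    have hsq2 := Nat.lt_succ_sqrt' n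
    have hge : max j₀ j₁ + 1 ≤ Nat.sqrt n := by
      rw [Nat.le_sqrt']; exact hn
    obtain ⟨j, hj⟩ : ∃ j, Nat.sqrt n = j + 1 := ⟨Nat.sqrt n - 1, by omega⟩
    rw [hj] at hsq hsq2
    have hjm : max j₀ j₁ ≤ j := by omega
    have hjj₀ : j₀ ≤ j := (le_max_left _ _).trans hjm
    have hjj₁ : (j₁:ℝ) ≤ j := by exact_mod_cast (le_max_right j₀ j₁).trans hjm
    have h1 := hSsq j hjj₀
    have h2 := hSinc _ _ hsq
    have h3 : (n:ℝ) < ((j:ℝ) + 2) ^ 2 := by
      have : n < (j + 2) ^ 2 := by simpa using hsq2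
      exact_mod_cast this
    have h4 : ((j:ℝ) + 1) ^ 2 ≤ n := by exact_mod_cast hsq
    push_cast at h2
    have hj3 : (3:ℝ) < j := by linarith
    have h5 : (n:ℝ) ≤ 2 * ((j:ℝ) + 1) ^ 2 := by nlinarith
    have h6 : (n:ℝ) - ((j:ℝ) + 1) ^ 2 ≤ 2 * ((j:ℝ) + 1) + 1 := by nlinarith
    have h7 : M * ((n:ℝ) - ((j:ℝ) + 1) ^ 2) ≤ M * (2 * ((j:ℝ) + 1) + 1) := by gcongr
    have h8 : M * (2 * ((j:ℝ) + 1) + 1) ≤ (-lam) / 4 * ((j:ℝ) + 1) ^ 2 := by
      have h9 : 16 * M < (-lam) * ((j:ℝ) + 1) := by nlinarith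
      have h10 : M * (2 * ((j:ℝ) + 1) + 1) ≤ M * (4 * ((j:ℝ) + 1)) := by
        apply mul_le_mul_of_nonneg_left _ hM0
        linarith
      nlinarith
    have h11 : lam / 2 * ((j:ℝ) + 1) ^ 2 + (-lam) / 4 * ((j:ℝ) + 1) ^ 2 ≤ lam / 8 * n := by
      nlinarith
    linarith
  obtain ⟨A, hA⟩ := exists_nat_gt (M * n₀ + (-lam / 8) * n₀)
  refine ⟨A, fun n => ?_⟩
  rcases le_or_gt n₀ n with h | h
  · have := hbig n h
    have hA0 : (0:ℝ) ≤ A := Nat.cast_nonneg A
    simp only [hS] at this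
    linarith
  · have h1 := hSinc 0 n (Nat.zero_le n)
    simp only [hS, Finset.range_zero, Finset.sum_empty, Nat.cast_zero, sub_zero, zero_add] at h1
    have h2 : (n:ℝ) ≤ n₀ := by exact_mod_cast h.le
    have h3 : M * (n:ℝ) ≤ M * n₀ := by gcongr
    have h4 : (-lam / 8) * (n:ℝ) ≤ (-lam / 8) * n₀ := by
      apply mul_le_mul_of_nonneg_left h2; linarith
    linarith

end Pool.Agent.W_MP_4481e3_an
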