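import Pool.Agent.W_MP_4481e3_an.Basic
import Pool.Agent.W_MP_4481e3_an.Periodic
import Pool.Agent.W_MP_4481e3_an.LLN

open MeasureTheory Filter Topology Set

namespace Pool.Agent.W_MP_4481e3_an

variable {α : ℂ} {L : ℕ}

noncomputable def logf (α : ℂ) (x : ℝ) : ℝ := Real.log ‖1 + α * (Real.cos (2 * Real.pi * x) : ℂ)‖

lemma norm_ge (α : ℂ) (x : ℝ) : 1 - ‖α‖ ≤ ‖1 + α * (Real.cos (2 * Real.pi * x) : ℂ)‖ := by
  have h1 : ‖α * (Real.cos (2 * Real.pi * x) : ℂ)‖ ≤ ‖α‖ := by
    rw [norm_mul, Complex.norm_real, Real.norm_eq_abs]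
    have := Real.abs_cos_le_one (2 * Real.pi * x)
    nlinarith [norm_nonneg α]
  have h2 := norm_sub_norm_le (1:ℂ) (-(α * (Real.cos (2 * Real.pi * x) : ℂ)))
  rw [norm_neg, sub_neg_eq_add, norm_one] at h2
  linarith

lemma logf_periodic (α : ℂ) : Function.Periodic (logf α) 1 := by
  intro x
  unfold logf
  have : 2 * Real.pi * (x + 1) = 2 * Real.pi * x + 2 * Real.pi := by ring
  rw [this, Real.cos_add_two_pi]

lemma logf_lip (hα : ‖α‖ < 1) (x y : ℝ) :
    |logf α x - logf α y| ≤ (2 * Real.pi / (1 - ‖α‖)) * |x - y| := by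
  have hm : 0 < 1 - ‖α‖ := by linarith
  have key : ∀ a b : ℝ, 1 - ‖α‖ ≤ a → 1 - ‖α‖ ≤ b → Real.log a - Real.log b ≤ |a - b| / (1 - ‖α‖) := by
    intro a b ha hb
    have hb0 : 0 < b := by linarith
    have ha0 : 0 < a := by linarith
    rw [← Real.log_div ha0.ne' hb0.ne']
    have h1 := Real.log_le_sub_one_of_pos (div_pos ha0 hb0)
    have h2 : a / b - 1 = (a - b) / b := by field_simp
    rw [h2] at h1
    refine h1.trans ?_
    calc (a - b) / b ≤ |a - b| / b := by gcongr; exact le_abs_self _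
      _ ≤ |a - b| / (1 - ‖α‖) := by gcongr
  set a := ‖1 + α * (Real.cos (2 * Real.pi * x) : ℂ)‖ with ha
  set b := ‖1 + α * (Real.cos (2 * Real.pi * y) : ℂ)‖ with hb
  have hab : |a - b| ≤ 2 * Real.pi * |x - y| := by
    have h1 : |a - b| ≤ ‖(1 + α * (Real.cos (2 * Real.pi * x) : ℂ)) - (1 + α * (Real.cos (2 * Real.pi * y) : ℂ))‖ :=
      abs_norm_sub_norm_le _ _
    have h2 : (1 + α * (Real.cos (2 * Real.pi * x) : ℂ)) - (1 + α * (Real.cos (2 * Real.pi * y) : ℂ)) =
        α * ((Real.cos (2 * Real.pi * x) - Real.cos (2 * Real.pi * y) : ℝ) : ℂ) := by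
      push_cast; ring
    rw [h2, norm_mul, Complex.norm_real, Real.norm_eq_abs] at h1
    have h3 : |Real.cos (2 * Real.pi * x) - Real.cos (2 * Real.pi * y)| ≤
        |2 * Real.pi * x - 2 * Real.pi * y| := Real.abs_cos_sub_cos_le _ _
    have h4 : |2 * Real.pi * x - 2 * Real.pi * y| = 2 * Real.pi * |x - y| := by
      rw [← mul_sub, abs_mul, abs_of_pos (by positivity)]
    rw [h4] at h3
    have h5 : 0 ≤ |Real.cos (2 * Real.pi * x) - Real.cos (2 * Real.pi * y)| := abs_nonneg _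
    nlinarith [norm_nonneg α]
  have h1 := key a b (norm_ge α x) (norm_ge α y)
  have h2 := key b a (norm_ge α y) (norm_ge α x)
  rw [abs_sub_comm b a] at h2
  unfold logf
  rw [← ha, ← hb]
  have h3 : |a - b| / (1 - ‖α‖) ≤ (2 * Real.pi / (1 - ‖α‖)) * |x - y| := by
    rw [div_mul_eq_mul_div]; gcongr
  rw [abs_le]
  constructor <;> linarith

lemma logf_continuous (hα : ‖α‖ < 1) : Continuous (logf α) := by
  have : LipschitzWith ⟨2 * Real.pi / (1 - ‖α‖), div_nonneg (by positivity) (by linarith)⟩ (logf α) :=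
    LipschitzWith.of_dist_le_mul fun x y => by
      rw [Real.dist_eq, Real.dist_eq]; exact logf_lip hα x y
  exact this.continuous

/-- the good set near `0` -/
def goodZero (α : ℂ) (L : ℕ) (c : ℝ) (A : ℕ) : Set ℝ :=
  {x | ∀ n : ℕ, (∑ k ∈ Finset.range n, logf α ((L:ℝ) ^ k * x)) ≤ A - c * n}

lemma goodZero_measurable (hα : ‖α‖ < 1) (c : ℝ) (A : ℕ) : MeasurableSet (goodZero α L c A) := by
  have : goodZero α L c A = ⋂ n : ℕ, {x | (∑ k ∈ Finset.range n, logf α ((L:ℝ) ^ k * x)) ≤ A - c * n} := by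
    ext x; simp [goodZero]
  rw [this]
  apply MeasurableSet.iInter
  intro n
  apply IsClosed.measurableSet
  have hc := logf_continuous hα
  exact isClosed_le (by fun_prop) continuous_const

lemma goodZero_per (c : ℝ) (A : ℕ) : Per (goodZero α L c A) := by
  intro x m
  unfold goodZero
  simp only [mem_ofPred_eq]
  have : ∀ k : ℕ, logf α ((L:ℝ) ^ k * (x + m)) = logf α ((L:ℝ) ^ k * x) := by
    intro k
    have h1 := (logf_periodic α).int_mul ((L:ℤ) ^ k * m) ((L:ℝ) ^ k * x)
    rw [← h1]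
    congr 1
    push_cast; ring
  simp only [this]

lemma goodZero_mono (c : ℝ) : Monotone (goodZero α L c) := by
  intro A B hAB x hx n
  have := hx n
  have h2 : (A:ℝ) ≤ B := by exact_mod_cast hAB
  linarith

/-- The family of periodic sets exhausting the circle. -/
structure Fam (Λ : ℕ → Set ℝ) : Prop where
  meas : ∀ A, MeasurableSet (Λ A)
  per : ∀ A, Per (Λ A)
  small : ∀ δ > (0:ℝ), ∃ A, volume ((Λ A)ᶜ ∩ Ioc 0 1) ≤ ENNReal.ofReal δ

lemma fam_goodZero (hα : ‖α‖ < 1) {c : ℝ}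
    (hae : ∀ᵐ x ∂(volume.restrict (Ioc (0:ℝ) 1)), ∃ A : ℕ, ∀ n : ℕ,
      (∑ k ∈ Finset.range n, logf α ((L:ℝ) ^ k * x)) ≤ A - c * n) : Fam (goodZero α L c) := by
  refine ⟨goodZero_measurable hα c, goodZero_per c, ?_⟩
  intro δ hδ
  set D : ℕ → Set ℝ := fun A => (goodZero α L c A)ᶜ ∩ Ioc 0 1 with hD
  have hanti : Antitone D := by
    intro A B hAB
    exact inter_subset_inter_left _ (compl_subset_compl.2 (goodZero_mono c hAB))
  have hmeas : ∀ A, NullMeasurableSet (D A) := fun A =>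
    ((goodZero_measurable hα c A).compl.inter measurableSet_Ioc).nullMeasurableSet
  have hlim := tendsto_measure_iInter_atTop (μ := volume) hmeas hanti ⟨0, by
    refine ne_top_of_le_ne_top ?_ (measure_mono inter_subset_right)
    simp⟩
  have hzero : volume (⋂ A, D A) = 0 := by
    rw [ae_restrict_iff' measurableSet_Ioc] at hae
    rw [← nonpos_iff_eq_zero, ← (ae_iff.1 hae)]
    apply measure_mono
    intro x hx
    rw [mem_iInter] at hx
    simp only [mem_ofPred_eq, Classical.not_imp]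
    refine ⟨(hx 0).2, ?_⟩
    rintro ⟨A, hA⟩
    exact (hx A).1 hA
  rw [hzero] at hlim
  have hev := hlim.eventually (Iic_mem_nhds (show (0:ENNReal) < ENNReal.ofReal δ by
    rw [ENNReal.ofReal_pos]; exact hδ))
  exact hev.exists

lemma Fam.recur {Λ : ℕ → Set ℝ} (hΛ : Fam Λ) (hL : 0 < L) :
    ∀ᵐ x ∂(volume.restrict (Ioc (0:ℝ) 1)), ∃ A, ∃ᶠ n : ℕ in atTop, (L:ℝ) ^ n * x ∈ Λ A := by
  rw [ae_iff]
  refine le_antisymm ?_ (zero_le)
  refine ENNReal.le_of_forall_pos_le_add ?_
  intro δ hδ _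
  rw [zero_add]
  obtain ⟨A, hA⟩ := hΛ.small δ (by exact_mod_cast hδ)
  rw [ENNReal.ofReal_coe_nnreal] at hA
  set E : ℕ → Set ℝ := fun N => {x | ∀ n ≥ N, (L:ℝ) ^ n * x ∉ Λ A} with hE
  have hsub : {x : ℝ | ¬ ∃ A, ∃ᶠ n : ℕ in atTop, (L:ℝ) ^ n * x ∈ Λ A} ⊆ ⋃ N, E N := by
    intro x hx
    simp only [mem_ofPred_eq, not_exists] at hx
    have h1 := hx A
    rw [not_frequently, eventually_atTop] at h1
    obtain ⟨N, hN⟩ := h1
    exact mem_iUnion.2 ⟨N, hN⟩
  have hmono : Monotone E := by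
    intro M N hMN x hx n hn
    exact hx n (le_trans hMN hn)
  refine (measure_mono hsub).trans ?_
  rw [hmono.measure_iUnion]
  apply iSup_le
  intro N
  have h2 : E N ⊆ {x | ((L ^ N : ℕ):ℝ) * x ∈ (Λ A)ᶜ} := by
    intro x hx
    have := hx N le_rfl
    simp only [mem_ofPred_eq]
    push_cast
    exact this
  refine (measure_mono h2).trans ?_
  have hms : MeasurableSet {x : ℝ | ((L ^ N : ℕ):ℝ) * x ∈ (Λ A)ᶜ} :=
    (measurable_const_mul _) (hΛ.meas A).compl
  rw [Measure.restrict_apply hms]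
  have h3 := (hΛ.per A).compl.vol_scale (hΛ.meas A).compl (N := L ^ N) (pow_pos hL N) 0
  rw [zero_add] at h3
  exact h3.trans_le hA

lemma Fam.vol {Λ : ℕ → Set ℝ} (hΛ : Fam Λ) {δ : ℝ} (hδ : 0 < δ) :
    ∃ A, ∀ a, volume ((Λ A)ᶜ ∩ Ioc a (a + 1)) ≤ ENNReal.ofReal δ := by
  obtain ⟨A, hA⟩ := hΛ.small δ hδ
  refine ⟨A, fun a => ?_⟩
  have h3 := (hΛ.per A).compl.vol_Ioc (hΛ.meas A).compl a 0
  rw [zero_add] at h3
  rw [h3]
  exact hA

/-- explicit exponential contraction near `0` -/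
lemma contraction (hα : ‖α‖ < 1) {c : ℝ} (hc : 0 < c) {A : ℕ} {R : ℝ}
    (hR : R * Real.exp (A + 1) ≤ (1 - ‖α‖) * (1 - Real.exp (-c))) {x : ℝ}
    (hx : x ∈ goodZero α L c A) {z : ℂ} (hz : ‖z‖ ≤ R) (n : ℕ) :
    ‖O α L n x z‖ ≤ ‖z‖ * Real.exp (A + 1 - c * n) := by
  have hm : 0 < 1 - ‖α‖ := by linarith
  set κ := 1 / (1 - ‖α‖) with hκ
  have hκ0 : 0 < κ := by positivity
  set zz : ℕ → ℝ := fun n => ‖O α L n x z‖ with hzz
  set S : ℕ → ℝ := fun n => ∑ k ∈ Finset.range n, logf α ((L:ℝ) ^ k * x) with hS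
  have hzz0 : ∀ n, 0 ≤ zz n := fun n => norm_nonneg _
  have hstep : ∀ n, zz n ≤ ‖z‖ * Real.exp (S n + κ * ∑ k ∈ Finset.range n, zz k) := by
    intro n
    induction n with
    | zero => simp [hzz, hS]
    | succ n ih =>
      set w := O α L n x z with hw
      set co := Real.cos (2 * Real.pi * ((L : ℝ) ^ n * x)) with hco
      set b := ‖1 + α * (co : ℂ)‖ with hb
      have hbge : 1 - ‖α‖ ≤ b := norm_ge α _
      have hb0 : 0 < b := by linarith
      have h1 : zz (n + 1) ≤ zz n * (b * (1 + κ * zz n)) := by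
        simp only [hzz]
        rw [O_real_succ, ← hw, ← hco]
        have h2 : w + α * co * w * (1 - w) = w * ((1 + α * co) - α * co * w) := by ring
        rw [h2, norm_mul]
        gcongr
        refine (norm_sub_le _ _).trans ?_
        rw [← hb]
        have h3 : ‖α * (co:ℂ) * w‖ ≤ ‖w‖ := by
          rw [norm_mul, norm_mul, Complex.norm_real, Real.norm_eq_abs]
          have h4 : ‖α‖ * |co| ≤ 1 := by
            have := Real.abs_cos_le_one (2 * Real.pi * ((L : ℝ) ^ n * x))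
            rw [← hco] at this
            nlinarith [norm_nonneg α, abs_nonneg co]
          nlinarith [norm_nonneg w]
        have h5 : 1 ≤ b * κ := by
          rw [hκ, mul_one_div, le_div_iff₀ hm]; linarith
        nlinarith [norm_nonneg w]
      have h6 : b * (1 + κ * zz n) ≤ Real.exp (logf α ((L:ℝ) ^ n * x) + κ * zz n) := by
        rw [Real.exp_add]
        have h7 : Real.exp (logf α ((L:ℝ) ^ n * x)) = b := by
          unfold logf
          rw [Real.exp_log hb0]
        rw [h7]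
        gcongr
        have := Real.add_one_le_exp (κ * zz n)
        linarith
      calc zz (n + 1) ≤ zz n * (b * (1 + κ * zz n)) := h1
        _ ≤ (‖z‖ * Real.exp (S n + κ * ∑ k ∈ Finset.range n, zz k)) *
            Real.exp (logf α ((L:ℝ) ^ n * x) + κ * zz n) := by
            have := hzz0 n
            gcongr
        _ = ‖z‖ * Real.exp (S (n + 1) + κ * ∑ k ∈ Finset.range (n + 1), zz k) := by
            rw [mul_assoc, ← Real.exp_add]
            simp only [hS]
            rw [Finset.sum_range_succ, Finset.sum_range_succ]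
            congr 2; ring
  have hgeo : ∀ n : ℕ, ∑ k ∈ Finset.range n, Real.exp (-c * k) ≤ 1 / (1 - Real.exp (-c)) := by
    intro n
    have he : Real.exp (-c) < 1 := by rw [Real.exp_lt_one_iff]; linarith
    have h1 : ∀ k : ℕ, Real.exp (-c * k) = Real.exp (-c) ^ k := by
      intro k; rw [← Real.exp_nat_mul]; congr 1; ring
    simp only [h1]
    have h2 : Summable fun k : ℕ => Real.exp (-c) ^ k :=
      summable_geometric_of_lt_one (Real.exp_pos _).le he
    have h3 := h2.sum_le_tsum (Finset.range n) (fun k _ => by positivity)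
    rw [tsum_geometric_of_lt_one (Real.exp_pos _).le he, ← one_div] at h3
    exact h3
  have he : Real.exp (-c) < 1 := by rw [Real.exp_lt_one_iff]; linarith
  induction n using Nat.strong_induction_on with
  | _ n ih =>
    have h1 : κ * ∑ k ∈ Finset.range n, zz k ≤ 1 := by
      have h2 : ∑ k ∈ Finset.range n, zz k ≤
          ∑ k ∈ Finset.range n, ‖z‖ * Real.exp (A + 1) * Real.exp (-c * k) := by
        apply Finset.sum_le_sum
        intro k hk
        rw [Finset.mem_range] at hk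
        refine (ih k hk).trans (le_of_eq ?_)
        rw [mul_assoc, ← Real.exp_add]
        congr 2; ring
      rw [← Finset.mul_sum] at h2
      have h3 : ‖z‖ * Real.exp (A + 1) * ∑ k ∈ Finset.range n, Real.exp (-c * k) ≤
          R * Real.exp (A + 1) * (1 / (1 - Real.exp (-c))) := by
        have := hgeo n
        have h0 : 0 ≤ ∑ k ∈ Finset.range n, Real.exp (-c * (k:ℝ)) :=
          Finset.sum_nonneg fun k _ => (Real.exp_pos _).le
        have hR0 : 0 ≤ R := (norm_nonneg z).trans hz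
        gcongr
      have h4 : R * Real.exp (A + 1) * (1 / (1 - Real.exp (-c))) ≤ 1 - ‖α‖ := by
        rw [mul_one_div, div_le_iff₀ (by linarith)]
        exact hR
      calc κ * ∑ k ∈ Finset.range n, zz k ≤ κ * (1 - ‖α‖) := by gcongr; linarith
        _ = 1 := by rw [hκ]; field_simp
    refine (hstep n).trans ?_
    gcongr
    have := hx n
    simp only [hS]
    linarith

end Pool.Agent.W_MP_4481e3_an
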