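import Pool.Agent.W_MP_4481e3_an.Contra
import Pool.Agent.W_MP_4481e3_an.Infinity
import Pool.Agent.W_MP_4481e3_an.Zero

open MeasureTheory Filter Topology Set

namespace Pool.Agent.W_MP_4481e3_an

variable {α : ℂ} {L : ℕ}

/-- parameters `u` for which the orbit of `z` falls into the combined basin -/
def Fall (α : ℂ) (L : ℕ) (z : ℂ) : Set ℝ :=
  {u | Tendsto (fun n => O α L n u z) atTop (𝓝 0) ∨ Tendsto (fun n => O α L n u z) atTop (𝓝 1) ∨
    Tendsto (fun n => ‖O α L n u z‖) atTop atTop}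

lemma O_real_measurable (n : ℕ) (z : ℂ) : Measurable fun u : ℝ => O α L n u z :=
  ((O_differentiable n z).continuous.comp Complex.continuous_ofReal).measurable

lemma Fall_measurable (z : ℂ) : MeasurableSet (Fall α L z) := by
  have h1 := measurableSet_tendsto (l := atTop) (𝓝 (0:ℂ)) (fun n => O_real_measurable (α := α) (L := L) n z)
  have h2 := measurableSet_tendsto (l := atTop) (𝓝 (1:ℂ)) (fun n => O_real_measurable (α := α) (L := L) n z)
  have h3 := measurableSet_tendsto (l := atTop) (atTop : Filter ℝ)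
    (fun n => (O_real_measurable (α := α) (L := L) n z).norm)
  exact h1.union (h2.union h3)

/-- radius of the uniform basin -/
noncomputable def RR (α : ℂ) (c : ℝ) (A : ℕ) : ℝ :=
  (1 - ‖α‖) * (1 - Real.exp (-c)) / Real.exp (A + 1)

lemma RR_pos (hα : ‖α‖ < 1) {c : ℝ} (hc : 0 < c) (A : ℕ) : 0 < RR α c A := by
  have : Real.exp (-c) < 1 := by rw [Real.exp_lt_one_iff]; linarith
  unfold RR
  have h1 : 0 < 1 - ‖α‖ := by linarith
  have h2 : 0 < 1 - Real.exp (-c) := by linarith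
  positivity

lemma RR_le_one (hα : ‖α‖ < 1) {c : ℝ} (hc : 0 < c) (A : ℕ) : RR α c A ≤ 1 := by
  have h0 : Real.exp (-c) < 1 := by rw [Real.exp_lt_one_iff]; linarith
  unfold RR
  rw [div_le_one (Real.exp_pos _)]
  have h1 : (1:ℝ) ≤ Real.exp (A + 1) := Real.one_le_exp (by positivity)
  have h2 : (1 - ‖α‖) ≤ 1 := by linarith [norm_nonneg α]
  have h3 : (1 - Real.exp (-c)) ≤ 1 := by linarith [Real.exp_pos (-c)]
  have h4 : 0 ≤ 1 - ‖α‖ := by linarith
  have h5 : 0 ≤ 1 - Real.exp (-c) := by linarith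
  nlinarith

lemma basin_bound (hα : ‖α‖ < 1) {c : ℝ} (hc : 0 < c) {A : ℕ} {x : ℝ}
    (hx : x ∈ goodZero α L c A) {z : ℂ} (hz : ‖z‖ ≤ RR α c A) (n : ℕ) :
    ‖O α L n x z‖ ≤ Real.exp (A + 1 - c * n) := by
  have h := contraction hα hc (R := RR α c A) (by
    unfold RR; rw [div_mul_cancel₀ _ (Real.exp_ne_zero _)]) hx hz n
  refine h.trans ?_
  have h1 := hz.trans (RR_le_one hα hc A)
  have := Real.exp_pos ((A:ℝ) + 1 - c * n)
  nlinarith

lemma tendsto_bound {c : ℝ} (hc : 0 < c) (A : ℕ) :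
    Tendsto (fun n : ℕ => Real.exp ((A:ℝ) + 1 - c * n)) atTop (𝓝 0) := by
  apply Real.tendsto_exp_atBot.comp
  have h1 : Tendsto (fun n : ℕ => -(c * (n:ℝ))) atTop atBot :=
    tendsto_neg_atTop_atBot.comp (tendsto_natCast_atTop_atTop.const_mul_atTop hc)
  have := tendsto_atBot_add_const_left atTop ((A:ℝ) + 1) h1
  simpa [sub_eq_add_neg] using this

lemma fall_zero (hα : ‖α‖ < 1) {c : ℝ} (hc : 0 < c) {A n : ℕ} {u : ℝ} {z : ℂ}
    (hx : (L:ℝ) ^ n * u ∈ goodZero α L c A) (hz : ‖O α L n u z‖ ≤ RR α c A) : u ∈ Fall α L z := by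
  left
  rw [← tendsto_add_atTop_iff_nat n]
  rw [tendsto_zero_iff_norm_tendsto_zero]
  refine squeeze_zero (fun _ => norm_nonneg _) (fun k => ?_) (tendsto_bound hc A)
  rw [add_comm, O_shift_real]
  exact basin_bound hα hc hx hz k

lemma fall_one (hα : ‖α‖ < 1) {c : ℝ} (hc : 0 < c) {A n : ℕ} {u : ℝ} {z : ℂ}
    (hx : (L:ℝ) ^ n * u ∈ goodZero (-α) L c A) (hz : ‖1 - O α L n u z‖ ≤ RR (-α) c A) :
    u ∈ Fall α L z := by
  right; left
  rw [← tendsto_add_atTop_iff_nat n]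
  rw [tendsto_iff_norm_sub_tendsto_zero]
  refine squeeze_zero (fun _ => norm_nonneg _) (fun k => ?_) (tendsto_bound hc A)
  rw [add_comm, O_shift_real, norm_sub_rev, O_symm]
  exact basin_bound (by rw [norm_neg]; exact hα) hc hx hz k

lemma fall_inf (hα0 : α ≠ 0) {θ ρ : ℝ} (hθ : 0 < θ)
    (hρ : 1 + 3 / (‖α‖ * θ) ≤ ρ) {n : ℕ} {u : ℝ} {z : ℂ} (hx : (L:ℝ) ^ n * u ∉ badInf L θ)
    (hz : ρ ≤ ‖O α L n u z‖) : u ∈ Fall α L z := by
  right; right
  rw [← tendsto_add_atTop_iff_nat n]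
  have hρ1 : 0 < ρ := by
    have h1 : 0 < ‖α‖ := norm_pos_iff.2 hα0
    have : 0 < 3 / (‖α‖ * θ) := by positivity
    linarith
  have h1 : Tendsto (fun k : ℕ => (2:ℝ) ^ k * ρ) atTop atTop :=
    (tendsto_pow_atTop_atTop_of_one_lt one_lt_two).atTop_mul_const hρ1
  refine tendsto_atTop_mono (fun k => ?_) h1
  rw [add_comm, O_shift_real]
  exact escape hα0 hθ hρ hx hz k

/-- the Birkhoff integral -/
lemma logf_ae (hα : ‖α‖ < 1) (hL : 2 ≤ L) (h0 : ∫ x in (0:ℝ)..1, logf α x < 0) :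
    ∃ c > (0:ℝ), Fam (goodZero α L c) := by
  obtain ⟨c, hc, hae⟩ := ae_linear (logf_periodic α) (K := 2 * Real.pi / (1 - ‖α‖))
    (div_nonneg (by positivity) (by linarith)) (logf_lip hα) h0 hL
  exact ⟨c, hc, fam_goodZero hα hae⟩

lemma vol_Icc_le {Λ : Set ℝ} {δ : ℝ} (hΛ : ∀ a, volume (Λ ∩ Ioc a (a + 1)) ≤ ENNReal.ofReal δ)
    (a : ℝ) : volume (Λ ∩ Icc a (a + 1)) ≤ ENNReal.ofReal δ := by
  have hsub : Λ ∩ Icc a (a + 1) ⊆ ({a} : Set ℝ) ∪ (Λ ∩ Ioc a (a + 1)) := by
    rintro x ⟨hx, h1, h2⟩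
    rcases eq_or_lt_of_le h1 with h | h
    · left; exact h.symm
    · right; exact ⟨hx, h, h2⟩
  refine (measure_mono hsub).trans ((measure_union_le _ _).trans ?_)
  rw [Real.volume_singleton, zero_add]
  exact hΛ a

/-- **Star**: every fixed `z` falls, for almost every `u`. -/
theorem star_ae (hα0 : α ≠ 0) (hα : ‖α‖ < 1) (hL : 6 ≤ L) (h0 : ∫ x in (0:ℝ)..1, logf α x < 0)
    (h1 : ∫ x in (0:ℝ)..1, logf (-α) x < 0) (z : ℂ) : ∀ᵐ u : ℝ, u ∈ Fall α L z := by
  have hL6 : (6:ℝ) ≤ L := by exact_mod_cast hL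
  have hL0 : (0:ℝ) < L := by linarith
  have hLpos : 0 < L := by omega
  have hα' : ‖-α‖ < 1 := by rw [norm_neg]; exact hα
  have hαpos : 0 < ‖α‖ := norm_pos_iff.2 hα0
  obtain ⟨c₀, hc₀, hF₀⟩ := logf_ae (L := L) hα (by omega) h0
  obtain ⟨c₁, hc₁, hF₁⟩ := logf_ae (L := L) hα' (by omega) h1
  obtain ⟨A₀, hA₀⟩ := hF₀.vol (δ := 1 / 4) (by norm_num)
  obtain ⟨A₁, hA₁⟩ := hF₁.vol (δ := 1 / 4) (by norm_num)
  by_contra hcon
  rw [ae_iff] at hcon
  -- a density point of the complement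
  have hdens := Besicovitch.ae_tendsto_measure_inter_div_of_measurableSet (volume : Measure ℝ)
    (Fall_measurable (α := α) (L := L) z)
  obtain ⟨u₀, hu₀, hlim⟩ : ∃ u₀, u₀ ∉ Fall α L z ∧
      Tendsto (fun r => volume (Fall α L z ∩ Metric.closedBall u₀ r) / volume (Metric.closedBall u₀ r))
        (𝓝[>] 0) (𝓝 ((Fall α L z).indicator 1 u₀)) := by
    by_contra hno
    push Not at hno
    apply hcon
    rw [ae_iff] at hdens
    refine measure_mono_null ?_ hdens
    intro u hu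
    exact hno u hu
  have hind : (Fall α L z).indicator (1 : ℝ → ENNReal) u₀ = 0 := Set.indicator_of_notMem hu₀ 1
  rw [hind] at hlim
  set ρ := 1 + 3 / (‖α‖ * (1 / 4000)) with hρ
  have hρ1 : 1 ≤ ρ := by
    have : 0 < 3 / (‖α‖ * (1 / 4000)) := by positivity
    linarith
  have hD : Dens α L z u₀ ρ (Fall α L z) (badInf L (1 / 4000)) := by
    refine ⟨?_, ?_, ?_⟩
    · intro n u hu hb
      by_contra hc
      push Not at hc
      exact hu (fall_inf hα0 (by norm_num) le_rfl hb hc.le)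
    · intro a
      refine (badInf_vol_Icc hLpos (by norm_num) a).trans ?_
      apply ENNReal.ofReal_le_ofReal
      norm_num
    · intro T hT δ hδ
      have hev := hlim.eventually (Iic_mem_nhds (show (0:ENNReal) < ENNReal.ofReal (δ / (2 * T)) by
        rw [ENNReal.ofReal_pos]; positivity))
      have hr : Tendsto (fun n : ℕ => T / (L:ℝ) ^ n) atTop (𝓝[>] 0) := by
        rw [tendsto_nhdsWithin_iff]
        constructor
        · exact tendsto_const_nhds.div_atTop (tendsto_pow_atTop_atTop_of_one_lt (by linarith))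
        · exact Filter.Eventually.of_forall fun n => by
            show 0 < T / (L:ℝ) ^ n
            positivity
      have hev2 := hr.eventually hev
      rw [eventually_atTop] at hev2
      obtain ⟨n₀, hn₀⟩ := hev2
      refine ⟨n₀, fun n hn => ?_⟩
      have h3 := hn₀ n hn
      have hpos : (0:ℝ) < (L:ℝ) ^ n := by positivity
      have hTL : 0 < T / (L:ℝ) ^ n := by positivity
      rw [Real.volume_closedBall, ENNReal.div_le_iff (by
          rw [ne_eq, ENNReal.ofReal_eq_zero, not_le]; linarith) ENNReal.ofReal_ne_top,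
        ← ENNReal.ofReal_mul (by positivity)] at h3
      refine h3.trans (le_of_eq ?_)
      congr 1
      field_simp
  have hR₀ := RR_pos hα hc₀ A₀
  have hR₁ := RR_pos hα' hc₁ A₁
  have hR₀' := RR_le_one hα hc₀ A₀
  have hR₁' := RR_le_one hα' hc₁ A₁
  set R := min (RR α c₀ A₀) (RR (-α) c₁ A₁) with hR
  have hRpos : 0 < R := lt_min hR₀ hR₁
  have hR1 : R ≤ 1 := (min_le_left _ _).trans hR₀'
  have hN : Near α L z (R / 2) (Fall α L z)
      ((goodZero α L c₀ A₀)ᶜ ∪ (goodZero (-α) L c₁ A₁)ᶜ) := by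
    refine ⟨?_, ?_⟩
    · intro n u hu hb
      rw [mem_union, not_or, notMem_compl_iff, notMem_compl_iff] at hb
      set w := O α L n u z with hw
      have h3 : R ≤ ‖w‖ := by
        by_contra hc
        push Not at hc
        exact hu (fall_zero hα hc₀ hb.1 (hc.le.trans (min_le_left _ _)))
      have h4 : R ≤ ‖1 - w‖ := by
        by_contra hc
        push Not at hc
        exact hu (fall_one hα hc₁ hb.2 (hc.le.trans (min_le_right _ _)))
      have h5 : 1 ≤ ‖w‖ + ‖1 - w‖ := by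
        have := norm_add_le w (1 - w)
        simpa using this
      rw [norm_mul]
      rcases le_total (1/2) ‖w‖ with h6 | h6
      · nlinarith [norm_nonneg w, norm_nonneg (1 - w)]
      · have h7 : 1 / 2 ≤ ‖1 - w‖ := by linarith
        nlinarith [norm_nonneg w, norm_nonneg (1 - w)]
    · apply vol_Icc_le
      intro a
      rw [union_inter_distrib_right]
      refine (measure_union_le _ _).trans ((add_le_add (hA₀ a) (hA₁ a)).trans ?_)
      rw [← ENNReal.ofReal_add (by norm_num) (by norm_num)]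
      apply ENNReal.ofReal_le_ofReal
      norm_num
  exact hD.contra hN hα0 hα.le hL hρ1 (by positivity) (by linarith)

end Pool.Agent.W_MP_4481e3_an
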