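import Pool.Agent.W_MP_4481e3_an.Sphere
import Pool.Agent.W_MP_4481e3_an.Star

open MeasureTheory Filter Topology Set

namespace Pool.Agent.W_MP_4481e3_an

variable {α : ℂ} {L : ℕ}

lemma baseMap_iter (L : ℕ) (u : ℝ) (n : ℕ) : ∃ m : ℤ, (baseMap L)^[n] u = (L : ℝ) ^ n * u - m := by
  induction n with
  | zero => exact ⟨0, by simp⟩
  | succ n ih =>
    obtain ⟨m, hm⟩ := ih
    rw [Function.iterate_succ_apply', hm]
    unfold baseMap
    refine ⟨L * m + ⌊(L:ℝ) * ((L : ℝ) ^ n * u - m)⌋, ?_⟩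
    rw [← Int.self_sub_floor]
    push_cast
    ring

lemma cos_baseMap (L : ℕ) (u : ℝ) (n : ℕ) :
    Real.cos (2 * Real.pi * (baseMap L)^[n] u) = Real.cos (2 * Real.pi * ((L : ℝ) ^ n * u)) := by
  obtain ⟨m, hm⟩ := baseMap_iter L u n
  rw [hm]
  have : 2 * Real.pi * ((L : ℝ) ^ n * u - m) = 2 * Real.pi * ((L : ℝ) ^ n * u) - m * (2 * Real.pi) := by
    ring
  rw [this, Real.cos_sub_int_mul_two_pi]

lemma iter_coe (u : ℝ) (n : ℕ) (z : ℂ) :
    fibreIter α L u n (z : OnePoint ℂ) = ((O α L n u z : ℂ) : OnePoint ℂ) := by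
  induction n with
  | zero => rfl
  | succ n ih =>
    show fibreMap α ((baseMap L)^[n] u) (fibreIter α L u n z) = _
    rw [ih, O_real_succ]
    unfold fibreMap
    rw [OnePoint.map_some, cos_baseMap]

lemma iter_inf (u : ℝ) (n : ℕ) :
    fibreIter α L u n OnePoint.infty = OnePoint.infty := by
  induction n with
  | zero => rfl
  | succ n ih =>
    show fibreMap α ((baseMap L)^[n] u) (fibreIter α L u n OnePoint.infty) = _
    rw [ih]
    rfl

/-- recurrence of a uniform basin around `p` -/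
def Rec (α : ℂ) (L : ℕ) (u : ℝ) (p : OnePoint ℂ) : Prop :=
  ∃ R > 0, ∃ᶠ n : ℕ in atTop, ∀ ε > (0:ℝ), ∃ N : ℕ, ∀ m ≥ N, ∀ x : OnePoint ℂ,
    chordal (fibreIter α L u n x) p < R → chordal (fibreIter α L u m x) p < ε

lemma norm_lt_of_chordal_zero {w : ℂ} {r : ℝ} (hr : r ≤ 1) (h : chordal w ((0:ℂ) : OnePoint ℂ) < r) :
    ‖w‖ ≤ r := by
  have hr0 : 0 < r := (chordal_nonneg _ _).trans_lt h
  rw [chordal_coe, sub_zero, norm_zero] at h
  have h0 : √(1 + (0:ℝ) ^ 2) = 1 := by norm_num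
  rw [h0, mul_one, div_lt_iff₀ (by positivity)] at h
  have h1 : √(1 + ‖w‖ ^ 2) ≤ 1 + ‖w‖ := by
    rw [Real.sqrt_le_left (by positivity)]
    nlinarith [norm_nonneg w]
  nlinarith [norm_nonneg w]

lemma norm_lt_of_chordal_one {w : ℂ} {r : ℝ} (hr : r ≤ 1 / 2) (h : chordal w ((1:ℂ) : OnePoint ℂ) < r) :
    ‖1 - w‖ ≤ 4 * r := by
  have hr0 : 0 < r := (chordal_nonneg _ _).trans_lt h
  rw [chordal_coe, norm_one] at h
  have h0 : √(1 + (1:ℝ) ^ 2) ≤ 3 / 2 := by
    rw [Real.sqrt_le_left (by norm_num)]; norm_num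
  have h1 : √(1 + ‖w‖ ^ 2) ≤ 1 + ‖w‖ := by
    rw [Real.sqrt_le_left (by positivity)]
    nlinarith [norm_nonneg w]
  have hs : 0 < √(1 + ‖w‖ ^ 2) * √(1 + (1:ℝ) ^ 2) := by positivity
  rw [div_lt_iff₀ hs] at h
  have h2 : ‖w‖ ≤ 1 + ‖1 - w‖ := by
    have := norm_sub_le (1:ℂ) (1 - w)
    simpa using this
  have h3 : √(1 + ‖w‖ ^ 2) * √(1 + (1:ℝ) ^ 2) ≤ (2 + ‖1 - w‖) * (3 / 2) := by
    gcongr
    linarith
  rw [norm_sub_rev] at h
  have h4 : r * (√(1 + ‖w‖ ^ 2) * √(1 + (1:ℝ) ^ 2)) ≤ r * ((2 + ‖1 - w‖) * (3 / 2)) := by gcongr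
  have h5 : r * ‖1 - w‖ ≤ 1 / 2 * ‖1 - w‖ := mul_le_mul_of_nonneg_right hr (norm_nonneg _)
  have h6 : 2 * ‖1 - w‖ < r * ((2 + ‖1 - w‖) * (3 / 2)) := lt_of_lt_of_le h h4
  have h7 : r * ((2 + ‖1 - w‖) * (3 / 2)) = 3 * r + 3 / 2 * (r * ‖1 - w‖) := by ring
  rw [h7] at h6
  linarith

lemma norm_ge_of_chordal_inf {w : ℂ} {r ρ : ℝ} (hρ : 0 ≤ ρ) (hr : r * √(1 + ρ ^ 2) ≤ 2)
    (h : chordal w OnePoint.infty < r) : ρ ≤ ‖w‖ := by
  have hr0 : 0 < r := (chordal_nonneg _ _).trans_lt h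
  rw [chordal_coe_inf, div_lt_iff₀ (by positivity)] at h
  by_contra hc
  push Not at hc
  have : √(1 + ‖w‖ ^ 2) ≤ √(1 + ρ ^ 2) := by
    apply Real.sqrt_le_sqrt
    nlinarith [norm_nonneg w]
  nlinarith

lemma rec_zero (hα : ‖α‖ < 1) {c : ℝ} (hc : 0 < c) {u : ℝ}
    (h : ∃ A, ∃ᶠ n : ℕ in atTop, (L:ℝ) ^ n * u ∈ goodZero α L c A) :
    Rec α L u ((0:ℂ) : OnePoint ℂ) := by
  obtain ⟨A, hA⟩ := h
  refine ⟨RR α c A, RR_pos hα hc A, hA.mono fun n hn ε hε => ?_⟩
  have hlim := (tendsto_bound hc A).eventually (Iio_mem_nhds (show (0:ℝ) < ε / 2 by positivity))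
  rw [eventually_atTop] at hlim
  obtain ⟨N, hN⟩ := hlim
  refine ⟨n + N, fun m hm x hx => ?_⟩
  induction x using OnePoint.rec with
  | infty =>
    exfalso
    rw [iter_inf, chordal_inf_coe] at hx
    have := RR_le_one hα hc A
    have h0 : √(1 + ‖(0:ℂ)‖ ^ 2) = 1 := by norm_num
    rw [h0] at hx
    linarith
  | coe z =>
    rw [iter_coe] at hx ⊢
    have h1 := norm_lt_of_chordal_zero (RR_le_one hα hc A) hx
    obtain ⟨k, rfl⟩ : ∃ k, m = n + k := ⟨m - n, by omega⟩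
    have h2 := basin_bound hα hc hn h1 k
    rw [← O_shift_real] at h2
    have h3 := hN k (by omega)
    refine (chordal_coe_le _ _).trans_lt ?_
    rw [sub_zero]
    have h3' : Real.exp ((A:ℝ) + 1 - c * k) < ε / 2 := h3
    linarith

lemma rec_one (hα : ‖α‖ < 1) {c : ℝ} (hc : 0 < c) {u : ℝ}
    (h : ∃ A, ∃ᶠ n : ℕ in atTop, (L:ℝ) ^ n * u ∈ goodZero (-α) L c A) :
    Rec α L u ((1:ℂ) : OnePoint ℂ) := by
  have hα' : ‖-α‖ < 1 := by rw [norm_neg]; exact hα
  obtain ⟨A, hA⟩ := h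
  have hRR := RR_pos hα' hc A
  refine ⟨RR (-α) c A / 4, by positivity, hA.mono fun n hn ε hε => ?_⟩
  have hlim := (tendsto_bound hc A).eventually (Iio_mem_nhds (show (0:ℝ) < ε / 2 by positivity))
  rw [eventually_atTop] at hlim
  obtain ⟨N, hN⟩ := hlim
  have hle := RR_le_one hα' hc A
  refine ⟨n + N, fun m hm x hx => ?_⟩
  induction x using OnePoint.rec with
  | infty =>
    exfalso
    rw [iter_inf, chordal_inf_coe] at hx
    have h0 : √(1 + ‖(1:ℂ)‖ ^ 2) ≤ 2 := by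
      rw [norm_one, Real.sqrt_le_left (by norm_num)]; norm_num
    rw [div_lt_iff₀ (by positivity)] at hx
    nlinarith
  | coe z =>
    rw [iter_coe] at hx ⊢
    have h1 := norm_lt_of_chordal_one (by linarith) hx
    have h1' : ‖1 - O α L n u z‖ ≤ RR (-α) c A := by linarith
    obtain ⟨k, rfl⟩ : ∃ k, m = n + k := ⟨m - n, by omega⟩
    have h2 := basin_bound hα' hc hn h1' k
    rw [← O_symm, ← O_shift_real] at h2
    have h3 := hN k (by omega)
    refine (chordal_coe_le _ _).trans_lt ?_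
    rw [norm_sub_rev]
    have h3' : Real.exp ((A:ℝ) + 1 - c * k) < ε / 2 := h3
    linarith

lemma rec_inf (hα0 : α ≠ 0) {u : ℝ} {θ : ℝ} (hθ : 0 < θ)
    (h : ∃ᶠ n : ℕ in atTop, (L:ℝ) ^ n * u ∉ badInf L θ) :
    Rec α L u OnePoint.infty := by
  set ρ := 1 + 3 / (‖α‖ * θ) with hρ
  have hαpos : 0 < ‖α‖ := norm_pos_iff.2 hα0
  have hρ1 : 1 ≤ ρ := by
    have : 0 < 3 / (‖α‖ * θ) := by positivity
    linarith
  refine ⟨2 / √(1 + ρ ^ 2), by positivity, h.mono fun n hn ε hε => ?_⟩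
  obtain ⟨N, hN⟩ := pow_unbounded_of_one_lt (2 / ε) one_lt_two
  refine ⟨n + N, fun m hm x hx => ?_⟩
  induction x using OnePoint.rec with
  | infty =>
    rw [iter_inf, chordal_inf_inf]
    exact hε
  | coe z =>
    rw [iter_coe] at hx ⊢
    have h1 := norm_ge_of_chordal_inf (ρ := ρ) (by linarith)
      (by rw [div_mul_cancel₀ _ (by positivity)]) hx
    obtain ⟨k, rfl⟩ : ∃ k, m = n + k := ⟨m - n, by omega⟩
    have h2 := escape hα0 hθ le_rfl hn h1 k
    rw [← O_shift_real] at h2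
    have h4 : (2:ℝ) ^ N ≤ 2 ^ k := pow_le_pow_right₀ (by norm_num) (by omega)
    have h5 : (2:ℝ) ^ k ≤ ‖O α L (n + k) u z‖ := by nlinarith [pow_pos (two_pos : (0:ℝ) < 2) k]
    have h6 : 0 < ‖O α L (n + k) u z‖ := lt_of_lt_of_le (by positivity) h5
    refine (chordal_inf_le h6).trans_lt ?_
    rw [div_lt_iff₀ h6]
    rw [div_lt_iff₀ hε] at hN
    nlinarith

/-- Under recurrence of the three uniform basins and density of falling points, the random Fatou
set is the combined basin. -/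
theorem fatou_eq_basin {u : ℝ} (h0 : Rec α L u ((0:ℂ) : OnePoint ℂ))
    (h1 : Rec α L u ((1:ℂ) : OnePoint ℂ)) (hi : Rec α L u OnePoint.infty)
    {D : Set ℂ} (hD : Dense D) (hfall : ∀ z ∈ D, u ∈ Fall α L z) :
    randomFatou α L u = combinedBasin α L u := by
  have hrec : ∀ p : OnePoint ℂ, (p = ((0 : ℂ) : OnePoint ℂ) ∨ p = ((1 : ℂ) : OnePoint ℂ) ∨
      p = OnePoint.infty) → Rec α L u p := by
    rintro p (rfl | rfl | rfl)
    · exact h0
    · exact h1
    · exact hi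
  -- local uniform convergence near a point of the basin
  have hloc : ∀ p : OnePoint ℂ, Rec α L u p → ∀ z : OnePoint ℂ,
      Tendsto (fun n => chordal (fibreIter α L u n z) p) atTop (𝓝 0) →
      ∃ r > 0, ∀ ε > (0:ℝ), ∃ N : ℕ, ∀ m ≥ N, ∀ x, chordal z x < r →
        chordal (fibreIter α L u m x) p < ε := by
    rintro p ⟨R, hR, hfreq⟩ z hz
    have hev := hz.eventually (Iio_mem_nhds (show (0:ℝ) < R / 2 by positivity))
    obtain ⟨n, hn, hnz⟩ := (hfreq.and_eventually hev).exists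
    have hnz' : chordal (fibreIter α L u n z) p < R / 2 := hnz
    obtain ⟨r, hr, hrc⟩ := fibreIter_chordal α L u n z (show (0:ℝ) < R / 2 by positivity)
    refine ⟨r, hr, fun ε hε => ?_⟩
    obtain ⟨N, hN⟩ := hn ε hε
    refine ⟨N, fun m hm x hx => hN m hm x ?_⟩
    have h1 := hrc x hx
    have h2 := chordal_triangle (fibreIter α L u n x) (fibreIter α L u n z) p
    rw [chordal_comm] at h1
    linarith
  apply Subset.antisymm
  · -- Fatou ⊆ basin
    rintro z ⟨r, hr, hnorm⟩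
    induction z using OnePoint.rec with
    | infty =>
      refine ⟨OnePoint.infty, Or.inr (Or.inr rfl), ?_⟩
      simp only [iter_inf, chordal_inf_inf]
      exact tendsto_const_nhds
    | coe z =>
      set V : Set (OnePoint ℂ) := {y | chordal (z : OnePoint ℂ) y < r} with hV
      -- a Euclidean ball inside V
      set B : Set ℂ := Metric.ball z (r / 2) with hB
      have hBV : ∀ y ∈ B, (y : OnePoint ℂ) ∈ V := by
        intro y hy
        rw [hB, Metric.mem_ball, dist_comm, dist_eq_norm] at hy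
        exact (chordal_coe_le z y).trans_lt (by linarith)
      have hzB : z ∈ B := Metric.mem_ball_self (by positivity)
      obtain ⟨z', hz'B, hz'D⟩ := hD.inter_open_nonempty B Metric.isOpen_ball ⟨z, hzB⟩
      -- the limit at z'
      obtain ⟨p, hp, hz'p⟩ : ∃ p : OnePoint ℂ, (p = ((0 : ℂ) : OnePoint ℂ) ∨ p = ((1 : ℂ) : OnePoint ℂ) ∨
          p = OnePoint.infty) ∧
          Tendsto (fun n => chordal (fibreIter α L u n (z' : OnePoint ℂ)) p) atTop (𝓝 0) := by
        have hf := hfall z' hz'D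
        rcases hf with hf | hf | hf
        · refine ⟨_, Or.inl rfl, ?_⟩
          simp only [iter_coe]
          rw [tendsto_zero_iff_norm_tendsto_zero] at hf
          refine squeeze_zero (fun _ => chordal_nonneg _ _) (fun n => ?_)
            (by simpa using hf.const_mul 2)
          have := chordal_coe_le (O α L n u z') 0
          rwa [sub_zero] at this
        · refine ⟨_, Or.inr (Or.inl rfl), ?_⟩
          simp only [iter_coe]
          rw [tendsto_iff_norm_sub_tendsto_zero] at hf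
          exact squeeze_zero (fun _ => chordal_nonneg _ _) (fun n => chordal_coe_le _ _)
            (by simpa using hf.const_mul 2)
        · refine ⟨_, Or.inr (Or.inr rfl), ?_⟩
          simp only [iter_coe]
          have h1 : Tendsto (fun n => 2 / ‖O α L n u z'‖) atTop (𝓝 0) :=
            tendsto_const_nhds.div_atTop hf
          refine squeeze_zero' (Filter.Eventually.of_forall fun _ => chordal_nonneg _ _) ?_ h1
          filter_upwards [hf.eventually_gt_atTop 0] with n hn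
          exact chordal_inf_le hn
      refine ⟨p, hp, ?_⟩
      set S : Set ℂ := {y | Tendsto (fun n => chordal (fibreIter α L u n (y : OnePoint ℂ)) p) atTop (𝓝 0)}
        with hS
      have hSopen : IsOpen S := by
        rw [isOpen_iff_mem_nhds]
        intro y hy
        obtain ⟨r', hr', hloc'⟩ := hloc p (hrec p hp) y hy
        refine Filter.mem_of_superset (Metric.ball_mem_nhds y (show (0:ℝ) < r' / 2 by positivity)) ?_
        intro x hx
        rw [Metric.mem_ball, dist_comm, dist_eq_norm] at hx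
        rw [hS, mem_ofPred_eq, Metric.tendsto_atTop]
        intro ε hε
        obtain ⟨N, hN⟩ := hloc' ε hε
        refine ⟨N, fun m hm => ?_⟩
        rw [Real.dist_eq, sub_zero, abs_of_nonneg (chordal_nonneg _ _)]
        exact hN m hm x ((chordal_coe_le y x).trans_lt (by linarith))
      have hclosed : closure S ∩ B ⊆ S := by
        rintro y₀ ⟨hy₀c, hy₀B⟩
        obtain ⟨R, hR, hfreq⟩ := hrec p hp
        set Q : Set ℕ := {n | ∀ ε > (0:ℝ), ∃ N : ℕ, ∀ m ≥ N, ∀ x : OnePoint ℂ,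
          chordal (fibreIter α L u n x) p < R → chordal (fibreIter α L u m x) p < ε} with hQ
        have hfreq1 : ∃ᶠ n : ℕ in atTop, (n + 1) ∈ Q := by
          rw [frequently_atTop] at hfreq ⊢
          intro a
          obtain ⟨b, hb, hbQ⟩ := hfreq (a + 1)
          refine ⟨b - 1, by omega, ?_⟩
          rw [Nat.sub_add_cancel (by omega)]
          exact hbQ
        obtain ⟨φ, hφ, hφQ⟩ := extraction_of_frequently_atTop hfreq1
        obtain ⟨ψ, hψ, g, hg⟩ := hnorm φ hφ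
        obtain ⟨r₁, hr₁, hg₁⟩ := hg y₀ (hBV y₀ hy₀B)
        obtain ⟨N, hN⟩ := hg₁ (R / 4) (by positivity)
        -- continuity of the N-th map at y₀
        obtain ⟨δ, hδ, hcδ⟩ := fibreIter_chordal α L u (φ (ψ N) + 1) (y₀ : OnePoint ℂ)
          (show (0:ℝ) < R / 4 by positivity)
        -- a point of S close to y₀ and in B
        have hnear : Metric.ball y₀ (min (δ / 2) (r₁ / 2)) ∩ B ∈ 𝓝 y₀ :=
          Filter.inter_mem (Metric.ball_mem_nhds _ (by positivity))
            (Metric.isOpen_ball.mem_nhds hy₀B)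
        obtain ⟨y₁, ⟨hy₁a, hy₁B⟩, hy₁S⟩ := mem_closure_iff_nhds.1 hy₀c _ hnear
        rw [Metric.mem_ball, dist_comm, dist_eq_norm, lt_min_iff] at hy₁a
        have hc1 : chordal (y₀ : OnePoint ℂ) (y₁ : OnePoint ℂ) < δ :=
          (chordal_coe_le _ _).trans_lt (by linarith [hy₁a.1])
        have hc2 : chordal (y₀ : OnePoint ℂ) (y₁ : OnePoint ℂ) < r₁ :=
          (chordal_coe_le _ _).trans_lt (by linarith [hy₁a.2])
        -- g y₁ = p
        have hgp : g y₁ = p := by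
          apply chordal_eq_zero
          by_contra hne
          have hpos : 0 < chordal (g y₁) p := lt_of_le_of_ne (chordal_nonneg _ _) (Ne.symm hne)
          obtain ⟨N₁, hN₁⟩ := hg₁ (chordal (g y₁) p / 2) (by positivity)
          have hy₁T : Tendsto (fun n => chordal (fibreIter α L u n (y₁ : OnePoint ℂ)) p) atTop (𝓝 0) := hy₁S
          have hsub : Tendsto (fun k => φ (ψ k) + 1) atTop atTop :=
            (tendsto_add_atTop_nat 1).comp (hφ.tendsto_atTop.comp hψ.tendsto_atTop)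
          have hev := (hy₁T.comp hsub).eventually (Iio_mem_nhds (show (0:ℝ) < chordal (g y₁) p / 2 by positivity))
          obtain ⟨k, hk, hk'⟩ := (hev.and (eventually_ge_atTop N₁)).exists
          have h3 := hN₁ k hk' y₁ (hBV y₁ hy₁B) hc2
          have h4 : chordal (fibreIter α L u (φ (ψ k) + 1) (y₁ : OnePoint ℂ)) p < chordal (g y₁) p / 2 := hk
          have h5 := chordal_triangle (g y₁) (fibreIter α L u (φ (ψ k) + 1) (y₁ : OnePoint ℂ)) p
          rw [chordal_comm] at h3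
          linarith
        have h6 := hN N le_rfl y₁ (hBV y₁ hy₁B) hc2
        rw [hgp] at h6
        have h7 := hcδ y₁ hc1
        have h8 := chordal_triangle (fibreIter α L u (φ (ψ N) + 1) (y₀ : OnePoint ℂ))
          (fibreIter α L u (φ (ψ N) + 1) (y₁ : OnePoint ℂ)) p
        have h9 : chordal (fibreIter α L u (φ (ψ N) + 1) (y₀ : OnePoint ℂ)) p < R := by linarith
        have h10 := hφQ (ψ N)
        rw [hS, mem_ofPred_eq, Metric.tendsto_atTop]
        intro ε hε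
        obtain ⟨N₂, hN₂⟩ := h10 ε hε
        refine ⟨N₂, fun m hm => ?_⟩
        rw [Real.dist_eq, sub_zero, abs_of_nonneg (chordal_nonneg _ _)]
        exact hN₂ m hm _ h9
      have hpre : IsPreconnected B := (convex_ball z (r / 2)).isPreconnected
      exact hpre.subset_of_closure_inter_subset hSopen ⟨z', hz'B, hz'p⟩ hclosed hzB
  · -- basin ⊆ Fatou
    rintro z ⟨p, hp, hz⟩
    obtain ⟨r, hr, hloc'⟩ := hloc p (hrec p hp) z hz
    refine ⟨r, hr, fun φ hφ => ⟨id, strictMono_id, fun _ => p, fun x _ => ⟨1, one_pos, fun ε hε => ?_⟩⟩⟩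
    obtain ⟨N, hN⟩ := hloc' ε hε
    refine ⟨N, fun n hn y hy _ => hN _ ?_ y hy⟩
    have := hφ.id_le n
    simp only [id] at this ⊢
    omega

lemma fam_inf (hL : 0 < L) : Fam (fun j : ℕ => (badInf L (1 / ((j:ℝ) + 1)))ᶜ) := by
  refine ⟨fun j => (badInf_measurable _).compl, fun j => (badInf_per _).compl, ?_⟩
  intro δ hδ
  obtain ⟨j, hj⟩ := exists_nat_gt (2 / δ)
  refine ⟨j, ?_⟩
  rw [compl_compl]
  have h1 := badInf_vol hL (θ := 1 / ((j:ℝ) + 1)) (by positivity) 0
  rw [zero_add] at h1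
  refine h1.trans (ENNReal.ofReal_le_ofReal ?_)
  rw [mul_one_div, div_le_iff₀ (by positivity)]
  rw [div_lt_iff₀ hδ] at hj
  nlinarith

/-- **Main theorem** of the development. -/
theorem main {α : ℂ} {L : ℕ} (hL : 6 ≤ L) (hα0 : 0 < ‖α‖) (hα : ‖α‖ < 1)
    (h0 : ∫ x in (0:ℝ)..1, logf α x < 0) (h1 : ∫ x in (0:ℝ)..1, logf (-α) x < 0) :
    ∀ᵐ u ∂(volume.restrict (Ico (0:ℝ) 1)), randomFatou α L u = combinedBasin α L u := by
  have hα00 : α ≠ 0 := norm_pos_iff.1 hα0
  have hLpos : 0 < L := by omega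
  have hα' : ‖-α‖ < 1 := by rw [norm_neg]; exact hα
  obtain ⟨c₀, hc₀, hF₀⟩ := logf_ae (L := L) hα (by omega) h0
  obtain ⟨c₁, hc₁, hF₁⟩ := logf_ae (L := L) hα' (by omega) h1
  obtain ⟨D, hDc, hDd⟩ := TopologicalSpace.exists_countable_dense ℂ
  have hD : ∀ᵐ u : ℝ, ∀ z ∈ D, u ∈ Fall α L z :=
    (ae_ball_iff hDc).2 fun z _ => star_ae hα00 hα hL h0 h1 z
  rw [Measure.restrict_congr_set (Ico_ae_eq_Ioc (μ := volume) (a := (0:ℝ)) (b := 1))]
  filter_upwards [hF₀.recur hLpos, hF₁.recur hLpos, (fam_inf hLpos).recur hLpos,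
    ae_restrict_of_ae hD] with u hu0 hu1 hui huD
  obtain ⟨j, hj⟩ := hui
  exact fatou_eq_basin (rec_zero hα hc₀ hu0) (rec_one hα hc₁ hu1)
    (rec_inf hα00 (θ := 1 / ((j:ℝ) + 1)) (by positivity) hj) hDd huD

end Pool.Agent.W_MP_4481e3_an
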