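import Mathlib

open MeasureTheory Filter Topology Set

namespace Pool.Agent.W_MP_4481e3_an

/-- the fibre orbit `f_u^n(z)`, for a complex base point `u` -/
noncomputable def O (α : ℂ) (L : ℕ) : ℕ → ℂ → ℂ → ℂ
  | 0, _, z => z
  | n + 1, u, z => O α L n u z +
      α * Complex.cos (2 * Real.pi * ((L : ℂ) ^ n * u)) * O α L n u z * (1 - O α L n u z)

variable {α : ℂ} {L : ℕ}

@[simp] lemma O_zero (u z : ℂ) : O α L 0 u z = z := rfl

lemma O_succ (n : ℕ) (u z : ℂ) : O α L (n + 1) u z = O α L n u z +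
      α * Complex.cos (2 * Real.pi * ((L : ℂ) ^ n * u)) * O α L n u z * (1 - O α L n u z) := rfl

lemma O_shift (n k : ℕ) (u z : ℂ) :
    O α L (n + k) u z = O α L k ((L : ℂ) ^ n * u) (O α L n u z) := by
  induction k with
  | zero => rfl
  | succ k ih =>
    rw [← add_assoc, O_succ, O_succ, ih]
    have : (L : ℂ) ^ (n + k) * u = (L : ℂ) ^ k * ((L : ℂ) ^ n * u) := by ring
    rw [this]

lemma O_succ' (n : ℕ) (u z : ℂ) : O α L (n + 1) u z =
    O α L n ((L : ℂ) * u) (z + α * Complex.cos (2 * Real.pi * u) * z * (1 - z)) := by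
  rw [add_comm, O_shift, O_succ]
  simp

lemma O_continuous (n : ℕ) : Continuous fun p : ℂ × ℂ => O α L n p.1 p.2 := by
  induction n with
  | zero => exact continuous_snd
  | succ n ih =>
    simp only [O_succ]
    have hc : Continuous fun p : ℂ × ℂ => Complex.cos (2 * Real.pi * ((L : ℂ) ^ n * p.1)) :=
      Complex.continuous_cos.comp (by fun_prop)
    exact ih.add (((continuous_const.mul hc).mul ih).mul (continuous_const.sub ih))

lemma O_differentiable (n : ℕ) (z : ℂ) : Differentiable ℂ fun u : ℂ => O α L n u z := by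
  induction n with
  | zero => simp
  | succ n ih =>
    simp only [O_succ]
    have hc : Differentiable ℂ fun u : ℂ => Complex.cos (2 * Real.pi * ((L : ℂ) ^ n * u)) :=
      Complex.differentiable_cos.comp (by fun_prop)
    exact ih.add (((hc.const_mul _).mul ih).mul (ih.const_sub _))

lemma O_continuous_z (n : ℕ) (u : ℂ) : Continuous fun z : ℂ => O α L n u z :=
  (O_continuous n).comp (continuous_const.prodMk continuous_id)

lemma norm_cos_le (w : ℂ) : ‖Complex.cos w‖ ≤ Real.exp |w.im| := by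
  rw [Complex.cos, norm_div]
  have h2 : ‖(2:ℂ)‖ = 2 := by simp
  rw [h2, div_le_iff₀ (by norm_num)]
  refine (norm_add_le _ _).trans ?_
  rw [Complex.norm_exp, Complex.norm_exp]
  have h3 : (w * Complex.I).re = -w.im := by simp
  have h4 : (-w * Complex.I).re = w.im := by simp
  rw [h3, h4]
  have h5 : Real.exp (-w.im) ≤ Real.exp |w.im| := Real.exp_le_exp.2 (neg_le_abs _)
  have h6 : Real.exp (w.im) ≤ Real.exp |w.im| := Real.exp_le_exp.2 (le_abs_self _)
  linarith

/-- one step growth -/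
lemma step_growth (hα : ‖α‖ ≤ 1) (v z : ℂ) :
    max 1 ‖z + α * Complex.cos (2 * Real.pi * v) * z * (1 - z)‖ ≤
      3 * Real.exp (2 * Real.pi * |v.im|) * (max 1 ‖z‖) ^ 2 := by
  set m := max 1 ‖z‖ with hm
  have hm1 : 1 ≤ m := le_max_left _ _
  have hmz : ‖z‖ ≤ m := le_max_right _ _
  have he1 : 1 ≤ Real.exp (2 * Real.pi * |v.im|) := Real.one_le_exp (by positivity)
  have hcos : ‖Complex.cos (2 * Real.pi * v)‖ ≤ Real.exp (2 * Real.pi * |v.im|) := by
    refine (norm_cos_le _).trans (le_of_eq ?_)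
    congr 1
    have : (2 * (Real.pi : ℂ) * v).im = 2 * Real.pi * v.im := by
      simp [Complex.mul_im, Complex.mul_re]
    rw [this, abs_mul, abs_of_pos (by positivity)]
  set E := Real.exp (2 * Real.pi * |v.im|)
  apply max_le
  · nlinarith [mul_le_mul he1 (one_le_pow₀ hm1 : 1 ≤ m ^ 2) (by norm_num) (by linarith)]
  · have h1 : ‖z + α * Complex.cos (2 * Real.pi * v) * z * (1 - z)‖ ≤ ‖z‖ + 1 * E * ‖z‖ * (1 + ‖z‖) := by
      refine (norm_add_le _ _).trans ?_
      gcongr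
      rw [norm_mul, norm_mul, norm_mul]
      gcongr
      refine (norm_sub_le _ _).trans ?_
      simp
    have hz0 := norm_nonneg z
    have h2 : ‖z‖ + 1 * E * ‖z‖ * (1 + ‖z‖) ≤ m + E * m * (m + m) := by
      rw [one_mul]
      gcongr
    have h3 : m ≤ E * m ^ 2 := by
      have : m ≤ m ^ 2 := by nlinarith
      have h4 : m ^ 2 ≤ E * m ^ 2 := by nlinarith [sq_nonneg m]
      linarith
    nlinarith

lemma O_growth (hα : ‖α‖ ≤ 1) (n : ℕ) (u z : ℂ) :
    max 1 ‖O α L (n + 1) u z‖ ≤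
      3 * Real.exp (2 * Real.pi * |((L : ℂ) ^ n * u).im|) * (max 1 ‖O α L n u z‖) ^ 2 := by
  rw [O_succ]
  exact step_growth hα _ _

lemma cos_real_eq (x : ℝ) : Complex.cos (2 * Real.pi * (x : ℂ)) = (Real.cos (2 * Real.pi * x) : ℂ) := by
  push_cast; rfl

lemma pow_mul_real (n : ℕ) (x : ℝ) : ((L : ℂ) ^ n * (x : ℂ)) = (((L : ℝ) ^ n * x : ℝ) : ℂ) := by
  push_cast; rfl

lemma O_real_succ (n : ℕ) (u : ℝ) (z : ℂ) : O α L (n + 1) u z = O α L n u z +
      α * (Real.cos (2 * Real.pi * ((L : ℝ) ^ n * u)) : ℝ) * O α L n u z * (1 - O α L n u z) := by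
  rw [O_succ, pow_mul_real, cos_real_eq]

lemma O_shift_real (n k : ℕ) (u : ℝ) (z : ℂ) :
    O α L (n + k) u z = O α L k (((L : ℝ) ^ n * u : ℝ) : ℂ) (O α L n u z) := by
  rw [O_shift, pow_mul_real]

/-- symmetry `z ↦ 1 - z`, `α ↦ -α` -/
lemma O_symm (n : ℕ) (u z : ℂ) : 1 - O α L n u z = O (-α) L n u (1 - z) := by
  induction n with
  | zero => rfl
  | succ n ih =>
    rw [O_succ, O_succ, ← ih]
    ring

/-- periodicity in the base -/
lemma O_add_int (n : ℕ) (u z : ℂ) (m : ℤ) : O α L n (u + m) z = O α L n u z := by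
  induction n with
  | zero => rfl
  | succ n ih =>
    rw [O_succ, O_succ, ih]
    have : 2 * (Real.pi : ℂ) * ((L : ℂ) ^ n * (u + m)) =
        2 * Real.pi * ((L : ℂ) ^ n * u) + ((((L:ℤ) ^ n * m : ℤ)) : ℂ) * (2 * Real.pi) := by
      push_cast; ring
    rw [this, Complex.cos_add_int_mul_two_pi]

end Pool.Agent.W_MP_4481e3_an
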