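import Mathlib

open MeasureTheory Filter Topology Set

namespace Pool.Agent.W_MP_4481e3_an

/-! Two-constants lemma with a small exceptional set on the real axis. -/

/-- the elementary holomorphic majorant attached to a cell with centre `c`, half-length `l` -/
noncomputable def hcell (l c : ℝ) (w : ℂ) : ℂ := 2 * Complex.I * l / (w - c + Complex.I * l)

lemma hcell_re (l c : ℝ) (w : ℂ) :
    (hcell l c w).re = 2 * l * (w.im + l) / ((w.re - c) ^ 2 + (w.im + l) ^ 2) := by
  unfold hcell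
  rw [Complex.div_re]
  simp [Complex.normSq_apply, pow_two]

lemma hcell_re_nonneg {l c : ℝ} (hl : 0 ≤ l) {w : ℂ} (hw : 0 ≤ w.im) : 0 ≤ (hcell l c w).re := by
  rw [hcell_re]
  positivity

lemma hcell_re_ge_one {l c : ℝ} (hl : 0 < l) {w : ℂ} (hw : w.im = 0) (hc : |w.re - c| ≤ l) :
    1 ≤ (hcell l c w).re := by
  rw [hcell_re, hw, zero_add]
  have h1 : (w.re - c) ^ 2 ≤ l ^ 2 := by
    rw [← sq_abs]
    exact pow_le_pow_left₀ (abs_nonneg _) hc 2
  rw [le_div_iff₀ (by positivity)]
  nlinarith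

lemma hcell_re_le {l c : ℝ} (hl : 0 ≤ l) {w : ℂ} (hw : 0 < w.im) :
    (hcell l c w).re ≤ 2 * l / w.im := by
  rw [hcell_re, div_le_div_iff₀ (by positivity) hw]
  have h1 : 0 ≤ (w.re - c) ^ 2 := sq_nonneg _
  nlinarith [mul_nonneg hl h1, mul_nonneg hl (mul_nonneg hl hw.le), mul_nonneg hl (mul_nonneg hl hl)]

lemma hcell_diffAt {l c : ℝ} (hl : 0 < l) {w : ℂ} (hw : 0 ≤ w.im) :
    DifferentiableAt ℂ (hcell l c) w := by
  unfold hcell
  have hne : w - c + Complex.I * l ≠ 0 := by
    intro h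
    have := congrArg Complex.im h
    simp at this
    linarith
  exact DifferentiableAt.div (by fun_prop) (by fun_prop) hne

/-- the upper half disc -/
def UH : Set ℂ := {w | ‖w‖ < 1 ∧ 0 < w.im}

lemma isOpen_UH : IsOpen UH :=
  (isOpen_lt continuous_norm continuous_const).inter (isOpen_lt continuous_const Complex.continuous_im)

lemma closure_UH_subset : closure UH ⊆ {w | ‖w‖ ≤ 1 ∧ 0 ≤ w.im} := by
  apply closure_minimal
  · intro w hw
    exact ⟨hw.1.le, hw.2.le⟩
  · exact (isClosed_le continuous_norm continuous_const).inter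
      (isClosed_le continuous_const Complex.continuous_im)

lemma mem_closure_UH {w : ℂ} (h1 : ‖w‖ ≤ 1) (h2 : 0 < w.im) : w ∈ closure UH := by
  rw [mem_closure_iff_seq_limit]
  refine ⟨fun n => ((1 - 1 / ((n:ℝ) + 2) : ℝ) : ℂ) * w, fun n => ?_, ?_⟩
  · have h3 : (0:ℝ) < 1 - 1 / ((n:ℝ) + 2) := by
      have : (0:ℝ) < (n:ℝ) + 2 := by positivity
      rw [sub_pos, div_lt_one this]; linarith [(Nat.cast_nonneg n : (0:ℝ) ≤ n)]
    have h4 : 1 - 1 / ((n:ℝ) + 2) < 1 := by
      have : (0:ℝ) < 1 / ((n:ℝ) + 2) := by positivity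
      linarith
    constructor
    · rw [norm_mul, Complex.norm_real, Real.norm_eq_abs, abs_of_pos h3]
      have : 0 ≤ ‖w‖ := norm_nonneg w
      nlinarith
    · rw [Complex.im_ofReal_mul]
      positivity
  · have : Tendsto (fun n : ℕ => ((1 - 1 / ((n:ℝ) + 2) : ℝ) : ℂ) * w) atTop (𝓝 (((1 - 0 : ℝ) : ℂ) * w)) := by
      apply Tendsto.mul_const
      apply (Complex.continuous_ofReal.tendsto _).comp
      apply Tendsto.const_sub
      have h5 : Tendsto (fun n : ℕ => (n:ℝ) + 2) atTop atTop :=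
        tendsto_atTop_add_const_right _ _ tendsto_natCast_atTop_atTop
      simpa [Function.comp_def] using tendsto_inv_atTop_zero.comp h5
    simpa using this

/-- If the exceptional points are covered by finitely many cells, then the two-constants bound
holds in the upper half disc. -/
lemma two_const_upper {g : ℂ → ℂ} (hg : Differentiable ℂ g) {X l : ℝ} (hX : 0 ≤ X) (hl : 0 < l)
    (hb : ∀ w : ℂ, ‖w‖ ≤ 1 → ‖g w‖ ≤ Real.exp X) {ι : Type*} (s : Finset ι) (c : ι → ℝ)
    (hs : ∀ t : ℝ, |t| ≤ 1 → 2 < ‖g t‖ → ∃ j ∈ s, |t - c j| ≤ l) {w : ℂ} (hw : ‖w‖ ≤ 1)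
    (him : 0 < w.im) :
    ‖g w‖ ≤ 2 * Real.exp (X * (w.re ^ 2 - w.im ^ 2 + 2 * w.im + (s.card : ℝ) * (2 * l) / w.im)) := by
  set H : ℂ → ℂ := fun w => ∑ j ∈ s, hcell l (c j) w with hH
  set F : ℂ → ℂ := fun w => g w * Complex.exp (-(X : ℂ) * (H w + w ^ 2 - 2 * Complex.I * w)) with hF
  have hHd : ∀ w : ℂ, 0 ≤ w.im → DifferentiableAt ℂ H w := by
    intro w hw
    rw [hH]
    exact DifferentiableAt.fun_sum fun j _ => hcell_diffAt hl hw
  have hFd : ∀ w : ℂ, 0 ≤ w.im → DifferentiableAt ℂ F w := by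
    intro w hw
    have h1 := hHd w hw
    have h2 := hg w
    rw [hF]
    fun_prop
  have hFnorm : ∀ w : ℂ, ‖F w‖ = ‖g w‖ * Real.exp (-(X * ((H w).re + (w.re ^ 2 - w.im ^ 2 + 2 * w.im)))) := by
    intro w
    rw [hF]
    simp only [norm_mul, Complex.norm_exp]
    congr 2
    have h1 : (w ^ 2).re = w.re ^ 2 - w.im ^ 2 := by
      rw [pow_two, Complex.mul_re]; ring
    simp only [Complex.mul_re, Complex.neg_re, Complex.ofReal_re, Complex.neg_im, Complex.ofReal_im,
      Complex.sub_re, Complex.add_re, h1, Complex.I_re, Complex.I_im, Complex.mul_im, neg_zero,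
      zero_mul, sub_zero]
    simp
    left
    ring
  have hkey : ∀ z ∈ closure UH, ‖F z‖ ≤ 2 := by
    intro z hz
    refine Complex.norm_le_of_forall_mem_frontier_norm_le (U := UH) ?_ ?_ ?_ hz
    · refine Bornology.IsBounded.subset (Metric.isBounded_ball (x := (0:ℂ)) (r := 1)) ?_
      intro w hw
      simpa using hw.1
    · apply DifferentiableOn.diffContOnCl
      intro w hw
      exact (hFd w (closure_UH_subset hw).2).differentiableWithinAt
    · intro w hw
      have hwc := closure_UH_subset (frontier_subset_closure hw)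
      have hnot : w ∉ UH := by
        intro h
        rw [frontier, isOpen_UH.interior_eq] at hw
        exact hw.2 h
      have hHre : 0 ≤ (H w).re := by
        rw [hH]
        simp only [Complex.re_sum]
        exact Finset.sum_nonneg fun j _ => hcell_re_nonneg hl.le hwc.2
      rw [hFnorm]
      rcases lt_or_eq_of_le hwc.1 with hlt | heq
      · -- bottom side
        have him0 : w.im = 0 := by
          by_contra hne
          exact hnot ⟨hlt, lt_of_le_of_ne hwc.2 (Ne.symm hne)⟩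
        have hwre : w = (w.re : ℂ) := by
          apply Complex.ext <;> simp [him0]
        have hwabs : |w.re| ≤ 1 := by
          have h := hwc.1
          rw [hwre, Complex.norm_real, Real.norm_eq_abs] at h
          exact h
        by_cases hbad : 2 < ‖g w‖
        · obtain ⟨j, hj, hjl⟩ := hs w.re hwabs (by rw [← hwre]; exact hbad)
          have h1 : 1 ≤ (H w).re := by
            rw [hH]
            simp only [Complex.re_sum]
            calc (1:ℝ) ≤ (hcell l (c j) w).re := hcell_re_ge_one hl him0 hjl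
              _ ≤ _ := Finset.single_le_sum (f := fun j => (hcell l (c j) w).re)
                  (fun i _ => hcell_re_nonneg hl.le hwc.2) hj
          calc ‖g w‖ * Real.exp (-(X * ((H w).re + (w.re ^ 2 - w.im ^ 2 + 2 * w.im))))
              ≤ Real.exp X * Real.exp (-(X * ((H w).re + (w.re ^ 2 - w.im ^ 2 + 2 * w.im)))) := by
                gcongr
                exact hb w hwc.1
            _ = Real.exp (X * (1 - ((H w).re + (w.re ^ 2 - w.im ^ 2 + 2 * w.im)))) := by
                rw [← Real.exp_add]; congr 1; ring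
            _ ≤ 1 := by
                rw [Real.exp_le_one_iff, him0]
                apply mul_nonpos_of_nonneg_of_nonpos hX
                nlinarith [sq_nonneg w.re]
            _ ≤ 2 := by norm_num
        · push Not at hbad
          calc ‖g w‖ * Real.exp (-(X * ((H w).re + (w.re ^ 2 - w.im ^ 2 + 2 * w.im)))) ≤ 2 * 1 := by
                gcongr
                rw [Real.exp_le_one_iff, him0]
                have : 0 ≤ X * ((H w).re + (w.re ^ 2 - 0 ^ 2 + 2 * 0)) := by
                  apply mul_nonneg hX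
                  nlinarith [sq_nonneg w.re]
                linarith
            _ = 2 := by norm_num
      · -- the arc
        have hns : w.re ^ 2 + w.im ^ 2 = 1 := by
          have := Complex.sq_norm w
          rw [heq, Complex.normSq_apply] at this
          nlinarith
        have hyle : w.im ≤ 1 := by nlinarith [sq_nonneg w.re, sq_nonneg (w.im - 1)]
        calc ‖g w‖ * Real.exp (-(X * ((H w).re + (w.re ^ 2 - w.im ^ 2 + 2 * w.im))))
            ≤ Real.exp X * Real.exp (-(X * ((H w).re + (w.re ^ 2 - w.im ^ 2 + 2 * w.im)))) := by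
              gcongr
              exact hb w hwc.1
          _ = Real.exp (X * (1 - ((H w).re + (w.re ^ 2 - w.im ^ 2 + 2 * w.im)))) := by
              rw [← Real.exp_add]; congr 1; ring
          _ ≤ 1 := by
              rw [Real.exp_le_one_iff]
              apply mul_nonpos_of_nonneg_of_nonpos hX
              nlinarith [mul_nonneg hwc.2 (sub_nonneg.2 hyle)]
          _ ≤ 2 := by norm_num
  have h2 := hkey w (mem_closure_UH hw him)
  rw [hFnorm] at h2
  have hHle : (H w).re ≤ (s.card : ℝ) * (2 * l) / w.im := by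
    rw [hH]
    simp only [Complex.re_sum]
    calc ∑ j ∈ s, (hcell l (c j) w).re ≤ ∑ _j ∈ s, 2 * l / w.im :=
          Finset.sum_le_sum fun j _ => hcell_re_le hl.le him
      _ = (s.card : ℝ) * (2 * l) / w.im := by
          rw [Finset.sum_const, nsmul_eq_mul]; ring
  calc ‖g w‖ = (‖g w‖ * Real.exp (-(X * ((H w).re + (w.re ^ 2 - w.im ^ 2 + 2 * w.im))))) *
        Real.exp (X * ((H w).re + (w.re ^ 2 - w.im ^ 2 + 2 * w.im))) := by
          rw [mul_assoc, ← Real.exp_add]; simp
    _ ≤ 2 * Real.exp (X * ((H w).re + (w.re ^ 2 - w.im ^ 2 + 2 * w.im))) := by gcongr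
    _ ≤ 2 * Real.exp (X * (w.re ^ 2 - w.im ^ 2 + 2 * w.im + (s.card : ℝ) * (2 * l) / w.im)) := by
        have h3 : (H w).re + (w.re ^ 2 - w.im ^ 2 + 2 * w.im)
            ≤ w.re ^ 2 - w.im ^ 2 + 2 * w.im + (s.card : ℝ) * (2 * l) / w.im := by linarith
        gcongr

lemma exists_cells {g : ℂ → ℂ} (hg : Continuous g) {δ : ℝ} (hδ : 0 ≤ δ)
    (hm : volume {t : ℝ | |t| ≤ 1 ∧ 1 < ‖g t‖} ≤ ENNReal.ofReal δ) :
    ∃ (l : ℝ) (s : Finset ℕ) (c : ℕ → ℝ), 0 < l ∧
      (∀ t : ℝ, |t| ≤ 1 → 2 < ‖g t‖ → ∃ j ∈ s, |t - c j| ≤ l) ∧ (s.card : ℝ) * (2 * l) ≤ δ := by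
  classical
  have hcont : Continuous fun t : ℝ => ‖g t‖ := by fun_prop
  have huc : UniformContinuousOn (fun t : ℝ => ‖g t‖) (Icc (-1) 1) :=
    isCompact_Icc.uniformContinuousOn_of_continuous hcont.continuousOn
  rw [Metric.uniformContinuousOn_iff] at huc
  obtain ⟨η, hη, hη'⟩ := huc 1 one_pos
  obtain ⟨N, hN⟩ := exists_nat_gt (2 / η)
  have hNpos : (0:ℝ) < N := lt_trans (by positivity) hN
  have hN0 : 0 < N := by exact_mod_cast hNpos
  have hNη : 2 / (N:ℝ) < η := by
    rw [div_lt_iff₀ hNpos]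
    rw [div_lt_iff₀ hη] at hN
    linarith [mul_comm (N:ℝ) η]
  set a : ℕ → ℝ := fun j => -1 + 2 * j / N with ha
  have haS : ∀ j : ℕ, a (j+1) = a j + 2 / N := by
    intro j; simp only [ha]; push_cast; field_simp; ring
  set s : Finset ℕ := (Finset.range N).filter fun j => ∃ t ∈ Icc (a j) (a (j+1)), 2 < ‖g (t:ℂ)‖ with hs
  have hcellsub : ∀ j < N, Icc (a j) (a (j+1)) ⊆ Icc (-1) 1 := by
    intro j hj x hx
    have h1 : (0:ℝ) ≤ 2 * j / N := by positivity
    have h2 : (2 * ((j:ℝ)+1) / N) ≤ 2 := by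
      rw [div_le_iff₀ hNpos]
      have : ((j:ℝ)+1) ≤ N := by exact_mod_cast hj
      linarith
    constructor
    · have := hx.1; simp only [ha] at this; linarith
    · have := hx.2; simp only [ha] at this; push_cast at this; linarith
  refine ⟨1 / N, s, fun j => a j + 1 / N, by positivity, ?_, ?_⟩
  · intro t ht htg
    rw [abs_le] at ht
    -- find the cell
    have hex : ∃ j < N, t ∈ Icc (a j) (a (j+1)) := by
      rcases eq_or_lt_of_le ht.2 with h1 | h1
      · refine ⟨N - 1, by omega, ?_⟩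
        have hc : (((N - 1 : ℕ) : ℝ)) = N - 1 := by
          rw [Nat.cast_sub hN0]; simp
        rw [haS]
        simp only [ha, hc]
        rw [h1]
        constructor
        · have : 2 * ((N:ℝ) - 1) / N ≤ 2 := by
            rw [div_le_iff₀ hNpos]; linarith
          linarith
        · apply le_of_eq; field_simp; ring
      · have hnn : 0 ≤ (t + 1) * N / 2 := by
          apply div_nonneg (mul_nonneg (by linarith) hNpos.le) (by norm_num)
        refine ⟨⌊(t + 1) * N / 2⌋₊, ?_, ?_⟩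
        · rw [Nat.floor_lt hnn]
          nlinarith
        · have h2 := Nat.floor_le hnn
          have h3 := Nat.lt_floor_add_one ((t + 1) * N / 2)
          rw [haS]
          simp only [ha]
          constructor
          · have : 2 * (⌊(t + 1) * N / 2⌋₊ : ℝ) / N ≤ t + 1 := by
              rw [div_le_iff₀ hNpos]; linarith
            linarith
          · have : t + 1 ≤ 2 * (⌊(t + 1) * N / 2⌋₊ : ℝ) / N + 2 / N := by
              rw [← add_div, le_div_iff₀ hNpos]; linarith
            linarith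
    obtain ⟨j, hj, hjt⟩ := hex
    refine ⟨j, ?_, ?_⟩
    · rw [hs, Finset.mem_filter, Finset.mem_range]
      exact ⟨hj, t, hjt, htg⟩
    · rw [haS] at hjt
      rw [abs_le]
      have : 2 / (N:ℝ) = 1 / N + 1 / N := by ring
      constructor
      · linarith [hjt.1]
      · linarith [hjt.2]
  · have hsub : (⋃ j ∈ s, Ico (a j) (a (j+1))) ⊆ {t : ℝ | |t| ≤ 1 ∧ 1 < ‖g t‖} := by
      intro x hx
      simp only [mem_iUnion] at hx
      obtain ⟨j, hj, hx⟩ := hx
      rw [hs, Finset.mem_filter, Finset.mem_range] at hj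
      obtain ⟨hjN, t, ht, htg⟩ := hj
      have hxI := hcellsub j hjN ⟨hx.1, hx.2.le⟩
      have htI := hcellsub j hjN ht
      refine ⟨abs_le.2 hxI, ?_⟩
      have hd : dist x t < η := by
        rw [Real.dist_eq, abs_lt]
        rw [haS] at ht hx
        constructor
        · linarith [hx.1, ht.2]
        · linarith [hx.2, ht.1]
      have h5 := hη' x hxI t htI hd
      rw [Real.dist_eq, abs_lt] at h5
      linarith [h5.1]
    have hdisj : Set.PairwiseDisjoint (↑s : Set ℕ) fun j => Ico (a j) (a (j+1)) := by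
      intro i _ j _ hij
      rw [Function.onFun, Set.disjoint_left]
      intro x hxi hxj
      rw [haS] at hxi hxj
      simp only [ha] at hxi hxj
      have h1 : (i:ℝ) < j + 1 := by
        have := hxi.1.trans_lt hxj.2
        have h2 : 2 * (i:ℝ) / N < 2 * (j:ℝ)/N + 2 / N := by linarith
        rw [← add_div, div_lt_div_iff_of_pos_right hNpos] at h2
        linarith
      have h3 : (j:ℝ) < i + 1 := by
        have := hxj.1.trans_lt hxi.2
        have h2 : 2 * (j:ℝ) / N < 2 * (i:ℝ)/N + 2 / N := by linarith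
        rw [← add_div, div_lt_div_iff_of_pos_right hNpos] at h2
        linarith
      have h4 : i < j + 1 := by exact_mod_cast h1
      have h5 : j < i + 1 := by exact_mod_cast h3
      omega
    have hmeas := measure_mono hsub |>.trans hm
    rw [measure_biUnion_finset hdisj (fun j _ => measurableSet_Ico)] at hmeas
    have hvol : ∀ j ∈ s, volume (Ico (a j) (a (j+1))) = ENNReal.ofReal (2 / N) := by
      intro j _
      rw [Real.volume_Ico, haS]
      congr 1; ring
    rw [Finset.sum_congr rfl hvol, Finset.sum_const, nsmul_eq_mul,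
      ← ENNReal.ofReal_natCast, ← ENNReal.ofReal_mul (by positivity), ENNReal.ofReal_le_ofReal_iff hδ] at hmeas
    calc (s.card : ℝ) * (2 * (1 / N)) = (s.card : ℝ) * (2 / N) := by ring
      _ ≤ δ := hmeas

/-- Two-constants lemma with exceptional set, upper half disc. -/
lemma two_const_upper' {g : ℂ → ℂ} (hg : Differentiable ℂ g) {X δ : ℝ} (hX : 0 ≤ X) (hδ : 0 ≤ δ)
    (hb : ∀ w : ℂ, ‖w‖ ≤ 1 → ‖g w‖ ≤ Real.exp X)
    (hm : volume {t : ℝ | |t| ≤ 1 ∧ 1 < ‖g t‖} ≤ ENNReal.ofReal δ) {w : ℂ} (hw : ‖w‖ ≤ 1)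
    (him : 0 < w.im) :
    ‖g w‖ ≤ 2 * Real.exp (X * (w.re ^ 2 - w.im ^ 2 + 2 * w.im + δ / w.im)) := by
  obtain ⟨l, s, c, hl, hs, hcard⟩ := exists_cells hg.continuous hδ hm
  refine (two_const_upper hg hX hl hb s c hs hw him).trans ?_
  gcongr

lemma two_const_both {g : ℂ → ℂ} (hg : Differentiable ℂ g) {X δ : ℝ} (hX : 0 ≤ X) (hδ : 0 ≤ δ)
    (hb : ∀ w : ℂ, ‖w‖ ≤ 1 → ‖g w‖ ≤ Real.exp X)
    (hm : volume {t : ℝ | |t| ≤ 1 ∧ 1 < ‖g t‖} ≤ ENNReal.ofReal δ) {w : ℂ} (hw : ‖w‖ ≤ 1)
    (him : w.im ≠ 0) :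
    ‖g w‖ ≤ 2 * Real.exp (X * (w.re ^ 2 - w.im ^ 2 + 2 * |w.im| + δ / |w.im|)) := by
  rcases lt_or_gt_of_ne him with h | h
  · set g' : ℂ → ℂ := fun w => (starRingEnd ℂ) (g ((starRingEnd ℂ) w)) with hg'
    have hd' : Differentiable ℂ g' := by
      intro x
      have := (hg ((starRingEnd ℂ) x)).conj_conj
      simpa [hg', Function.comp_def] using this
    have h1 := two_const_upper' (g := g') hd' hX hδ (w := (starRingEnd ℂ) w)
      (by
        intro w hw
        simp only [hg', RCLike.norm_conj]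
        apply hb
        rw [RCLike.norm_conj]; exact hw)
      (by
        simpa [hg'] using hm)
      (by rw [RCLike.norm_conj]; exact hw) (by simp; exact h)
    simp only [hg', RCLike.norm_conj, Complex.conj_conj, Complex.conj_re, Complex.conj_im] at h1
    rw [abs_of_neg h]
    refine h1.trans (le_of_eq ?_)
    ring_nf
  · rw [abs_of_pos h]
    exact two_const_upper' hg hX hδ hb hm hw h

/-- the strip -/
def ST : Set ℂ := {w | w.re ^ 2 < 99 / 100 ∧ w.im ^ 2 < 1 / 100}

lemma isOpen_ST : IsOpen ST :=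
  (isOpen_lt (Complex.continuous_re.pow 2) continuous_const).inter
    (isOpen_lt (Complex.continuous_im.pow 2) continuous_const)

lemma closure_ST_subset : closure ST ⊆ {w | w.re ^ 2 ≤ 99 / 100 ∧ w.im ^ 2 ≤ 1 / 100} := by
  apply closure_minimal
  · intro w hw
    exact ⟨hw.1.le, hw.2.le⟩
  · exact (isClosed_le (Complex.continuous_re.pow 2) continuous_const).inter
      (isClosed_le (Complex.continuous_im.pow 2) continuous_const)

lemma norm_le_one_of_ST {w : ℂ} (h : w.re ^ 2 ≤ 99 / 100 ∧ w.im ^ 2 ≤ 1 / 100) : ‖w‖ ≤ 1 := by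
  have := Complex.sq_norm w
  rw [Complex.normSq_apply] at this
  have h2 : ‖w‖ ^ 2 ≤ 1 := by nlinarith [h.1, h.2]
  nlinarith [norm_nonneg w]

lemma two_const_strip {g : ℂ → ℂ} (hg : Differentiable ℂ g) {X δ : ℝ} (hX : 0 ≤ X) (hδ : 0 ≤ δ)
    (hb : ∀ w : ℂ, ‖w‖ ≤ 1 → ‖g w‖ ≤ Real.exp X)
    (hm : volume {t : ℝ | |t| ≤ 1 ∧ 1 < ‖g t‖} ≤ ENNReal.ofReal δ) {w : ℂ} (hw : w ∈ ST) :
    ‖g w‖ ≤ 2 * Real.exp (X * (w.re ^ 2 - w.im ^ 2 + 1 / 5 + 10 * δ)) := by
  set F : ℂ → ℂ := fun w => g w * Complex.exp (-(X : ℂ) * (w ^ 2 + (1 / 5 + 10 * δ : ℝ))) with hF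
  have hFd : Differentiable ℂ F := by rw [hF]; fun_prop
  have hFnorm : ∀ w : ℂ, ‖F w‖ = ‖g w‖ * Real.exp (-(X * (w.re ^ 2 - w.im ^ 2 + 1 / 5 + 10 * δ))) := by
    intro w
    rw [hF]
    simp only [norm_mul, Complex.norm_exp]
    congr 2
    have h1 : (w ^ 2).re = w.re ^ 2 - w.im ^ 2 := by
      rw [pow_two, Complex.mul_re]; ring
    have h2 : (w ^ 2 + ((1 / 5 + 10 * δ : ℝ) : ℂ)).re = w.re ^ 2 - w.im ^ 2 + (1 / 5 + 10 * δ) := by
      rw [Complex.add_re, h1, Complex.ofReal_re]
    rw [Complex.mul_re, h2]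
    simp only [Complex.neg_re, Complex.ofReal_re, Complex.neg_im, Complex.ofReal_im, neg_zero, zero_mul,
      sub_zero]
    ring
  have hkey : ‖F w‖ ≤ 2 := by
    refine Complex.norm_le_of_forall_mem_frontier_norm_le (U := ST) ?_ hFd.diffContOnCl ?_
      (subset_closure hw)
    · refine Bornology.IsBounded.subset (Metric.isBounded_closedBall (x := (0:ℂ)) (r := 1)) ?_
      intro w hw
      simpa using norm_le_one_of_ST ⟨hw.1.le, hw.2.le⟩
    · intro z hz
      have hzc := closure_ST_subset (frontier_subset_closure hz)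
      have hz1 := norm_le_one_of_ST hzc
      have hnot : z ∉ ST := by
        intro h
        rw [frontier, isOpen_ST.interior_eq] at hz
        exact hz.2 h
      rw [hFnorm]
      by_cases h1 : z.re ^ 2 < 99 / 100
      · -- horizontal side
        have him : z.im ^ 2 = 1 / 100 := by
          by_contra hne
          exact hnot ⟨h1, lt_of_le_of_ne hzc.2 hne⟩
        have habs : |z.im| = 1 / 10 := by
          have h3 : |z.im| ^ 2 = (1 / 10) ^ 2 := by rw [sq_abs, him]; norm_num
          have h4 := abs_nonneg z.im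
          nlinarith
        have hne : z.im ≠ 0 := by
          intro h; rw [h] at him; norm_num at him
        have h5 := two_const_both hg hX hδ hb hm hz1 hne
        rw [habs, him] at h5
        calc ‖g z‖ * Real.exp (-(X * (z.re ^ 2 - z.im ^ 2 + 1 / 5 + 10 * δ)))
            ≤ (2 * Real.exp (X * (z.re ^ 2 - 1 / 100 + 2 * (1 / 10) + δ / (1 / 10)))) *
              Real.exp (-(X * (z.re ^ 2 - z.im ^ 2 + 1 / 5 + 10 * δ))) := by gcongr
          _ = 2 := by
              rw [mul_assoc, ← Real.exp_add, him]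
              have : X * (z.re ^ 2 - 1 / 100 + 2 * (1 / 10) + δ / (1 / 10)) +
                  -(X * (z.re ^ 2 - 1 / 100 + 1 / 5 + 10 * δ)) = 0 := by ring
              rw [this]; simp
      · have hre : z.re ^ 2 = 99 / 100 := le_antisymm hzc.1 (not_lt.1 h1)
        calc ‖g z‖ * Real.exp (-(X * (z.re ^ 2 - z.im ^ 2 + 1 / 5 + 10 * δ)))
            ≤ Real.exp X * Real.exp (-(X * (z.re ^ 2 - z.im ^ 2 + 1 / 5 + 10 * δ))) := by
              gcongr
              exact hb z hz1
          _ = Real.exp (X * (1 - (z.re ^ 2 - z.im ^ 2 + 1 / 5 + 10 * δ))) := by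
              rw [← Real.exp_add]; congr 1; ring
          _ ≤ 1 := by
              rw [Real.exp_le_one_iff]
              apply mul_nonpos_of_nonneg_of_nonpos hX
              nlinarith [hzc.2]
          _ ≤ 2 := by norm_num
  rw [hFnorm] at hkey
  calc ‖g w‖ = (‖g w‖ * Real.exp (-(X * (w.re ^ 2 - w.im ^ 2 + 1 / 5 + 10 * δ)))) *
        Real.exp (X * (w.re ^ 2 - w.im ^ 2 + 1 / 5 + 10 * δ)) := by
          rw [mul_assoc, ← Real.exp_add]; simp
    _ ≤ _ := by gcongr

/-- **Lemma R**: the basic improvement estimate. -/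
theorem lemmaR {g : ℂ → ℂ} (hg : Differentiable ℂ g) {X : ℝ} (hX : 0 ≤ X)
    (hb : ∀ w : ℂ, ‖w‖ ≤ 1 → ‖g w‖ ≤ Real.exp X)
    (hm : volume {t : ℝ | |t| ≤ 1 ∧ 1 < ‖g t‖} ≤ ENNReal.ofReal (1 / 500)) {w : ℂ}
    (hw : ‖w‖ ≤ 1 / 6) :
    ‖g w‖ ≤ 2 * Real.exp (2 / 5 * X) := by
  have hsq : w.re ^ 2 + w.im ^ 2 ≤ 1 / 36 := by
    have := Complex.sq_norm w
    rw [Complex.normSq_apply] at this
    nlinarith [norm_nonneg w]
  by_cases h : w.im ^ 2 < 1 / 100
  · refine (two_const_strip hg hX (by norm_num) hb hm ⟨by nlinarith [sq_nonneg w.im], h⟩).trans ?_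
    rw [mul_comm (2/5) X]
    gcongr
    nlinarith [sq_nonneg w.im]
  · push Not at h
    have habs : 1 / 10 ≤ |w.im| := by
      by_contra hlt
      push Not at hlt
      have : |w.im| ^ 2 < (1/10) ^ 2 := by
        have := abs_nonneg w.im
        nlinarith
      rw [sq_abs] at this
      linarith
    have hne : w.im ≠ 0 := by
      intro h0; rw [h0] at habs; norm_num at habs
    refine (two_const_both hg hX (by norm_num) hb hm (hw.trans (by norm_num)) hne).trans ?_
    have hdiv : (1 / 500 : ℝ) / |w.im| ≤ 1 / 50 := by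
      rw [div_le_iff₀ (by linarith)]
      linarith
    have hy : |w.im| ≤ 1 / 6 := (Complex.abs_im_le_norm w).trans hw
    rw [mul_comm (2/5) X]
    have : w.re ^ 2 - w.im ^ 2 + 2 * |w.im| + 1 / 500 / |w.im| ≤ 2 / 5 := by
      have h6 : w.im ^ 2 = |w.im| ^ 2 := (sq_abs _).symm
      nlinarith
    gcongr

end Pool.Agent.W_MP_4481e3_an
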