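import Pool.Agent.W_MP_4481e3_an.Basic
import Pool.Agent.W_MP_4481e3_an.LemmaR

open MeasureTheory Filter Topology Set

namespace Pool.Agent.W_MP_4481e3_an

variable {α : ℂ} {L : ℕ}

lemma O_scaled_diff (n : ℕ) (c : ℂ) (z : ℂ) :
    Differentiable ℂ fun ζ : ℂ => O α L n (c + ζ / (L : ℂ) ^ n) z :=
  (O_differentiable n z).comp (by fun_prop)

lemma A_step (hα : ‖α‖ ≤ 1) (hL : 6 ≤ L) {ρ : ℝ} (hρ : 1 ≤ ρ) {z : ℂ} {c : ℝ} {n : ℕ} {X : ℝ}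
    (hX : 0 ≤ X) (h1 : ∀ ζ : ℂ, ‖ζ‖ ≤ 1 → ‖O α L n (c + ζ / (L : ℂ) ^ n) z‖ ≤ ρ * Real.exp X)
    (h2 : volume {t : ℝ | |t| ≤ 1 ∧ ρ < ‖O α L n (c + t / (L : ℂ) ^ n) z‖} ≤
      ENNReal.ofReal (1 / 500)) {ζ : ℂ} (hζ : ‖ζ‖ ≤ 1) :
    ‖O α L (n + 1) (c + ζ / (L : ℂ) ^ (n + 1)) z‖ ≤
      ρ * Real.exp (4 / 5 * X + Real.log (12 * Real.exp (2 * Real.pi) * ρ)) := by
  have hρ0 : 0 < ρ := by linarith
  have hL0 : (0:ℝ) < L := by
    have : (6:ℝ) ≤ L := by exact_mod_cast hL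
    linarith
  have hL6 : (6:ℝ) ≤ L := by exact_mod_cast hL
  have hLc : (L : ℂ) ≠ 0 := by
    have : L ≠ 0 := by omega
    exact_mod_cast this
  set g : ℂ → ℂ := fun ζ => O α L n (c + ζ / (L : ℂ) ^ n) z / ρ with hg
  have hgd : Differentiable ℂ g := (O_scaled_diff n c z).div_const _
  have hgn : ∀ ζ, ‖g ζ‖ = ‖O α L n (c + ζ / (L : ℂ) ^ n) z‖ / ρ := by
    intro ζ
    rw [hg]
    simp only [norm_div, Complex.norm_real, Real.norm_eq_abs, abs_of_pos hρ0]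
  have hR := lemmaR hgd hX (by
      intro w hw
      rw [hgn, div_le_iff₀ hρ0, mul_comm]
      exact h1 w hw) (by
      refine le_trans (measure_mono ?_) h2
      intro t ht
      refine ⟨ht.1, ?_⟩
      have := ht.2
      rw [hgn, lt_div_iff₀ hρ0, one_mul] at this
      exact this) (w := ζ / L) (by
      rw [norm_div, Complex.norm_natCast, div_le_iff₀ hL0]
      linarith)
  rw [hgn, div_le_iff₀ hρ0] at hR
  have hu : (c : ℂ) + ζ / (L:ℂ) / (L : ℂ) ^ n = c + ζ / (L : ℂ) ^ (n + 1) := by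
    rw [div_div, pow_succ, mul_comm (L:ℂ)]
  rw [hu] at hR
  have hgr := O_growth (L := L) hα n (c + ζ / (L : ℂ) ^ (n + 1)) z
  have him : |((L : ℂ) ^ n * (c + ζ / (L : ℂ) ^ (n + 1))).im| ≤ 1 := by
    have : (L : ℂ) ^ n * (c + ζ / (L : ℂ) ^ (n + 1)) = (((L:ℝ) ^ n * c : ℝ) : ℂ) + ζ / L := by
      push_cast
      field_simp
      ring
    rw [this, Complex.add_im, Complex.ofReal_im, zero_add]
    have h3 : ‖ζ / L‖ ≤ 1 := by
      rw [norm_div, Complex.norm_natCast, div_le_one hL0]; linarith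
    exact (Complex.abs_im_le_norm _).trans h3
  have hexp : Real.exp (2 * Real.pi * |((L : ℂ) ^ n * (c + ζ / (L : ℂ) ^ (n + 1))).im|) ≤
      Real.exp (2 * Real.pi) := by
    apply Real.exp_le_exp.2
    have := Real.pi_pos
    nlinarith
  have hmax : max 1 ‖O α L n (c + ζ / (L : ℂ) ^ (n + 1)) z‖ ≤ 2 * Real.exp (2 / 5 * X) * ρ := by
    apply max_le
    · have : 1 ≤ Real.exp (2 / 5 * X) := Real.one_le_exp (by positivity)
      nlinarith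
    · exact hR
  calc ‖O α L (n + 1) (c + ζ / (L : ℂ) ^ (n + 1)) z‖ ≤ _ := le_max_right 1 _
    _ ≤ _ := hgr
    _ ≤ 3 * Real.exp (2 * Real.pi) * (2 * Real.exp (2 / 5 * X) * ρ) ^ 2 := by gcongr
    _ = ρ * ((Real.exp (2 / 5 * X)) ^ 2 * (12 * Real.exp (2 * Real.pi) * ρ)) := by ring
    _ = ρ * Real.exp (4 / 5 * X + Real.log (12 * Real.exp (2 * Real.pi) * ρ)) := by
        rw [Real.exp_add, Real.exp_log (by positivity), ← Real.exp_nat_mul]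
        congr 3
        push_cast; ring

lemma A_bound (hα : ‖α‖ ≤ 1) (hL : 6 ≤ L) {ρ : ℝ} (hρ : 1 ≤ ρ) {z : ℂ} {c : ℝ} {n₀ : ℕ} {X : ℝ}
    (hX : 0 ≤ X) (h1 : ∀ ζ : ℂ, ‖ζ‖ ≤ 1 → ‖O α L n₀ (c + ζ / (L : ℂ) ^ n₀) z‖ ≤ ρ * Real.exp X)
    (k : ℕ)
    (h2 : ∀ m, n₀ ≤ m → m < n₀ + k →
      volume {t : ℝ | |t| ≤ 1 ∧ ρ < ‖O α L m (c + t / (L : ℂ) ^ m) z‖} ≤ ENNReal.ofReal (1 / 500)) :
    ∀ ζ : ℂ, ‖ζ‖ ≤ 1 → ‖O α L (n₀ + k) (c + ζ / (L : ℂ) ^ (n₀ + k)) z‖ ≤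
      ρ * Real.exp ((4 / 5) ^ k * X + 5 * Real.log (12 * Real.exp (2 * Real.pi) * ρ)) := by
  set CA := Real.log (12 * Real.exp (2 * Real.pi) * ρ) with hCA
  have hCA0 : 0 ≤ CA := by
    apply Real.log_nonneg
    have : 1 ≤ Real.exp (2 * Real.pi) := Real.one_le_exp (by positivity)
    nlinarith
  induction k with
  | zero =>
    intro ζ hζ
    refine (h1 ζ hζ).trans ?_
    have : X ≤ (4 / 5) ^ 0 * X + 5 * CA := by simp; linarith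
    gcongr
  | succ k ih =>
    intro ζ hζ
    have ih' := ih (fun m hm hm' => h2 m hm (by omega))
    have h3 := A_step hα hL hρ (X := (4 / 5) ^ k * X + 5 * CA) (by positivity) ih'
      (h2 (n₀ + k) (by omega) (by omega)) hζ
    rw [← hCA] at h3
    rw [← add_assoc]
    refine h3.trans ?_
    have : 4 / 5 * ((4 / 5) ^ k * X + 5 * CA) + CA = (4 / 5) ^ (k + 1) * X + 5 * CA := by ring
    rw [this]

lemma vol_affine (c : ℝ) {a : ℝ} (ha : 0 < a) (S : Set ℝ) :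
    volume ((fun t : ℝ => c + a * t) ⁻¹' S) = ENNReal.ofReal a⁻¹ * volume S := by
  have h1 : (fun t : ℝ => c + a * t) ⁻¹' S = (fun t : ℝ => a * t) ⁻¹' ((fun y => c + y) ⁻¹' S) := rfl
  rw [h1, Real.volume_preimage_mul_left ha.ne', measure_preimage_add, abs_of_pos (inv_pos.2 ha)]

/-- Data describing the situation at a density point of the set where the orbit does not fall. -/
structure Dens (α : ℂ) (L : ℕ) (z : ℂ) (u₀ ρ : ℝ) (Nc Bad : Set ℝ) : Prop where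
  esc : ∀ (n : ℕ) (u : ℝ), u ∉ Nc → (L : ℝ) ^ n * u ∉ Bad → ‖O α L n u z‖ ≤ ρ
  bad : ∀ a : ℝ, volume (Bad ∩ Icc (a - 1) (a + 1)) ≤ ENNReal.ofReal (1 / 1000)
  dens : ∀ T > (0:ℝ), ∀ δ > (0:ℝ), ∃ n₀ : ℕ, ∀ n ≥ n₀,
    volume (Nc ∩ Metric.closedBall u₀ (T / (L : ℝ) ^ n)) ≤ ENNReal.ofReal (δ / (L : ℝ) ^ n)

lemma Dens.window {z : ℂ} {u₀ ρ : ℝ} {Nc Bad : Set ℝ} (hD : Dens α L z u₀ ρ Nc Bad) (hL : 6 ≤ L)
    {T δ : ℝ} {n : ℕ} (hn : volume (Nc ∩ Metric.closedBall u₀ (T / (L : ℝ) ^ n)) ≤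
      ENNReal.ofReal (δ / (L : ℝ) ^ n)) (hδ : δ ≤ 1 / 1000) {c : ℝ}
    (hc : |c - u₀| ≤ (T - 1) / (L:ℝ) ^ n) :
    volume {t : ℝ | |t| ≤ 1 ∧ ρ < ‖O α L n (c + t / (L : ℂ) ^ n) z‖} ≤
      ENNReal.ofReal (1 / 500) := by
  have hL0 : (0:ℝ) < L := by
    have : (6:ℝ) ≤ L := by exact_mod_cast hL
    linarith
  have hLn : (0:ℝ) < (L:ℝ) ^ n := pow_pos hL0 n
  have hsub : {t : ℝ | |t| ≤ 1 ∧ ρ < ‖O α L n (c + t / (L : ℂ) ^ n) z‖} ⊆
      ((fun t : ℝ => c + ((L:ℝ) ^ n)⁻¹ * t) ⁻¹' (Nc ∩ Metric.closedBall u₀ (T / (L : ℝ) ^ n))) ∪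
      ((fun t : ℝ => (L:ℝ)^n * c + 1 * t) ⁻¹' (Bad ∩ Icc ((L:ℝ)^n * c - 1) ((L:ℝ)^n * c + 1))) := by
    intro t ht
    by_contra hcon
    rw [mem_union, not_or] at hcon
    obtain ⟨h1, h2⟩ := hcon
    have hcast : (c : ℂ) + t / (L : ℂ) ^ n = ((c + ((L:ℝ) ^ n)⁻¹ * t : ℝ) : ℂ) := by
      push_cast; rw [div_eq_inv_mul]
    have h3 : c + ((L:ℝ) ^ n)⁻¹ * t ∉ Nc := by
      intro h
      apply h1
      refine ⟨h, ?_⟩
      rw [Metric.mem_closedBall, Real.dist_eq]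
      have : c + ((L:ℝ) ^ n)⁻¹ * t - u₀ = (c - u₀) + ((L:ℝ) ^ n)⁻¹ * t := by ring
      rw [this]
      refine (abs_add_le _ _).trans ?_
      rw [abs_mul, abs_of_pos (inv_pos.2 hLn)]
      have : ((L:ℝ) ^ n)⁻¹ * |t| ≤ ((L:ℝ) ^ n)⁻¹ * 1 := by
        gcongr
        exact ht.1
      calc |c - u₀| + ((L:ℝ) ^ n)⁻¹ * |t| ≤ (T - 1) / (L:ℝ) ^ n + ((L:ℝ) ^ n)⁻¹ * 1 := by linarith
        _ = T / (L:ℝ) ^ n := by field_simp; ring
    have h4 : (L : ℝ) ^ n * (c + ((L:ℝ) ^ n)⁻¹ * t) ∉ Bad := by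
      intro h
      apply h2
      have h5 : (L : ℝ) ^ n * (c + ((L:ℝ) ^ n)⁻¹ * t) = (L:ℝ)^n * c + 1 * t := by
        field_simp
      rw [h5] at h
      refine ⟨h, ?_⟩
      have := abs_le.1 ht.1
      constructor <;> linarith [this.1, this.2]
    have h6 := hD.esc n _ h3 h4
    have h7 := ht.2
    rw [hcast] at h7
    linarith
  refine (measure_mono hsub).trans ((measure_union_le _ _).trans ?_)
  rw [vol_affine _ (inv_pos.2 hLn), vol_affine _ one_pos, inv_inv, inv_one, ENNReal.ofReal_one, one_mul]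
  have h8 : ENNReal.ofReal ((L:ℝ) ^ n) * volume (Nc ∩ Metric.closedBall u₀ (T / (L : ℝ) ^ n)) ≤
      ENNReal.ofReal (1 / 1000) := by
    refine (mul_le_mul_right hn _).trans ?_
    rw [← ENNReal.ofReal_mul hLn.le]
    apply ENNReal.ofReal_le_ofReal
    have : (L:ℝ) ^ n * (δ / (L : ℝ) ^ n) = δ := by field_simp
    rw [this]; exact hδ
  calc _ ≤ ENNReal.ofReal (1 / 1000) + ENNReal.ofReal (1 / 1000) := add_le_add h8 (hD.bad _)
    _ = ENNReal.ofReal (1 / 500) := by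
        rw [← ENNReal.ofReal_add (by norm_num) (by norm_num)]; norm_num

/-- the universal bound -/
noncomputable def PP (ρ : ℝ) : ℝ := ρ * Real.exp (1 + 5 * Real.log (12 * Real.exp (2 * Real.pi) * ρ))

lemma one_le_PP {ρ : ℝ} (hρ : 1 ≤ ρ) : 1 ≤ PP ρ := by
  unfold PP
  have hCA0 : 0 ≤ Real.log (12 * Real.exp (2 * Real.pi) * ρ) := by
    apply Real.log_nonneg
    have : 1 ≤ Real.exp (2 * Real.pi) := Real.one_le_exp (by positivity)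
    nlinarith
  have : 1 ≤ Real.exp (1 + 5 * Real.log (12 * Real.exp (2 * Real.pi) * ρ)) :=
    Real.one_le_exp (by positivity)
  nlinarith

/-- **Bound (A)**. -/
theorem Dens.boundA {z : ℂ} {u₀ ρ : ℝ} {Nc Bad : Set ℝ} (hD : Dens α L z u₀ ρ Nc Bad)
    (hα : ‖α‖ ≤ 1) (hL : 6 ≤ L) (hρ : 1 ≤ ρ) {T : ℝ} (hT : 0 ≤ T) :
    ∃ n₁ : ℕ, ∀ n ≥ n₁, ∀ ζ : ℂ, |ζ.re| ≤ T → |ζ.im| ≤ 1 →
      ‖O α L n (u₀ + ζ / (L : ℂ) ^ n) z‖ ≤ PP ρ := by
  have hL1 : (1:ℝ) ≤ L := by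
    have : (6:ℝ) ≤ L := by exact_mod_cast hL
    linarith
  have hL0 : (0:ℝ) < L := by linarith
  obtain ⟨n₀, hn₀⟩ := hD.dens (T + 1) (by linarith) (1 / 1000) (by norm_num)
  -- the a priori bound at time n₀
  obtain ⟨M, hM⟩ : ∃ M : ℝ, ∀ w ∈ Metric.closedBall (u₀ : ℂ) (T + 1), ‖O α L n₀ w z‖ ≤ M := by
    have hc : IsCompact (Metric.closedBall (u₀ : ℂ) (T + 1)) := isCompact_closedBall _ _
    obtain ⟨M, hM⟩ := hc.exists_bound_of_continuousOn (f := fun w => O α L n₀ w z)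
      (O_differentiable n₀ z).continuous.continuousOn
    exact ⟨M, hM⟩
  set M' := max 1 M with hM'
  have hM1 : 1 ≤ M' := le_max_left _ _
  set X := Real.log M' with hXdef
  have hX : 0 ≤ X := Real.log_nonneg hM1
  obtain ⟨k₀, hk₀⟩ : ∃ k₀ : ℕ, ∀ k ≥ k₀, (4 / 5 : ℝ) ^ k * X ≤ 1 := by
    have ht : Tendsto (fun k : ℕ => (4 / 5 : ℝ) ^ k * X) atTop (𝓝 (0 * X)) :=
      (tendsto_pow_atTop_nhds_zero_of_lt_one (by norm_num) (by norm_num)).mul_const X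
    rw [zero_mul] at ht
    have := (ht.eventually (Iic_mem_nhds (zero_lt_one' ℝ)))
    rw [eventually_atTop] at this
    obtain ⟨k₀, hk⟩ := this
    exact ⟨k₀, hk⟩
  refine ⟨n₀ + k₀, fun n hn ζ hre him => ?_⟩
  obtain ⟨k, rfl⟩ : ∃ k, n = n₀ + k := ⟨n - n₀, by omega⟩
  have hk : k₀ ≤ k := by omega
  set t := ζ.re with ht
  set c : ℝ := u₀ + t / (L:ℝ) ^ (n₀ + k) with hc
  have hpos : ∀ m, (0:ℝ) < (L:ℝ) ^ m := fun m => pow_pos hL0 m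
  have hcu : ∀ m, m ≤ n₀ + k → |c - u₀| ≤ (T + 1 - 1) / (L:ℝ) ^ m := by
    intro m hm
    rw [hc, add_sub_cancel_left, abs_div, abs_of_pos (hpos _), add_sub_cancel_right]
    have : (L:ℝ) ^ m ≤ (L:ℝ) ^ (n₀ + k) := pow_le_pow_right₀ hL1 hm
    have := hpos m
    gcongr
  have h1 : ∀ ζ : ℂ, ‖ζ‖ ≤ 1 → ‖O α L n₀ (c + ζ / (L : ℂ) ^ n₀) z‖ ≤ ρ * Real.exp X := by
    intro ξ hξ
    have hmem : (c : ℂ) + ξ / (L : ℂ) ^ n₀ ∈ Metric.closedBall (u₀ : ℂ) (T + 1) := by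
      rw [Metric.mem_closedBall, dist_eq_norm]
      have : (c : ℂ) + ξ / (L : ℂ) ^ n₀ - u₀ = ((c - u₀ : ℝ) : ℂ) + ξ / (L : ℂ) ^ n₀ := by
        push_cast; ring
      rw [this]
      refine (norm_add_le _ _).trans ?_
      rw [Complex.norm_real, Real.norm_eq_abs, norm_div, norm_pow, Complex.norm_natCast]
      have h3 := hcu 0 (by omega)
      simp only [pow_zero, div_one, add_sub_cancel_right] at h3
      have h4 : ‖ξ‖ / (L:ℝ) ^ n₀ ≤ 1 := by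
        rw [div_le_one (hpos _)]
        exact hξ.trans (one_le_pow₀ hL1)
      linarith
    refine (hM _ hmem).trans ?_
    rw [Real.exp_log (by linarith)]
    have : M ≤ M' := le_max_right _ _
    nlinarith
  have h2 := A_bound hα hL hρ hX h1 k (fun m hm hm' =>
    hD.window hL (hn₀ m hm) le_rfl (hcu m (by omega))) (ζ := (ζ.im : ℂ) * Complex.I) (by
      rw [norm_mul, Complex.norm_I, mul_one, Complex.norm_real, Real.norm_eq_abs]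
      exact him)
  have h3 : (c : ℂ) + (ζ.im : ℂ) * Complex.I / (L : ℂ) ^ (n₀ + k) =
      u₀ + ζ / (L : ℂ) ^ (n₀ + k) := by
    rw [hc, ht]
    push_cast
    rw [add_assoc, ← add_div]
    congr 2
    exact Complex.re_add_im ζ
  rw [h3] at h2
  refine h2.trans ?_
  unfold PP
  have := hk₀ k hk
  gcongr

end Pool.Agent.W_MP_4481e3_an
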