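import Mathlib

open MeasureTheory Filter Topology Set

namespace Pool.Agent.W_MP_4481e3_an

/-- shifting the contour upwards -/
lemma contour {G : ℂ → ℂ} (hG : Differentiable ℂ G) {T h M c₀ : ℝ} (hT : 0 ≤ T) (hh : 0 ≤ h)
    (hM : 0 ≤ M) (hc : 0 < c₀)
    (hb : ∀ ζ : ℂ, |ζ.re| ≤ T → 0 ≤ ζ.im → ζ.im ≤ h → ‖G ζ‖ ≤ M * Real.exp (-c₀ * ζ.im)) :
    ‖∫ t in (-T)..T, G t‖ ≤ M * (2 / c₀ + 2 * T * Real.exp (-c₀ * h)) := by
  have hrect := Complex.integral_boundary_rect_eq_zero_of_differentiableOn G (-T : ℂ) (T + h * Complex.I)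
    hG.differentiableOn
  have e1 : (-(T:ℂ)).re = -T := by simp
  have e2 : ((T:ℂ) + h * Complex.I).re = T := by simp
  have e3 : (-(T:ℂ)).im = 0 := by simp
  have e4 : ((T:ℂ) + h * Complex.I).im = h := by simp
  rw [e1, e2, e3, e4] at hrect
  simp only [Complex.ofReal_zero, zero_mul, add_zero] at hrect
  have htop : ‖∫ x in (-T)..T, G (x + h * Complex.I)‖ ≤ M * Real.exp (-c₀ * h) * (2 * T) := by
    have := intervalIntegral.norm_integral_le_of_norm_le_const (a := -T) (b := T)
      (f := fun x : ℝ => G (x + h * Complex.I)) (C := M * Real.exp (-c₀ * h)) (by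
        intro x hx
        rw [uIoc_of_le (by linarith)] at hx
        have := hb (x + h * Complex.I) (by simp; rw [abs_le]; constructor <;> linarith [hx.1, hx.2])
          (by simp; exact hh) (by simp)
        simpa using this)
    refine this.trans (le_of_eq ?_)
    rw [show T - -T = 2 * T by ring, abs_of_nonneg (by linarith)]
  have hside : ∀ σ : ℝ, |σ| ≤ T → ‖∫ y in (0:ℝ)..h, G (σ + y * Complex.I)‖ ≤ M / c₀ := by
    intro σ hσ
    have h1 := intervalIntegral.norm_integral_le_of_norm_le (a := 0) (b := h) (μ := volume)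
      (f := fun y : ℝ => G (σ + y * Complex.I)) (g := fun y => M * Real.exp (-c₀ * y)) hh
      (by
        refine Filter.Eventually.of_forall fun y hy => ?_
        have := hb (σ + y * Complex.I) (by simpa using hσ) (by simpa using hy.1.le)
          (by simpa using hy.2)
        simpa using this)
      (by
        apply Continuous.intervalIntegrable
        fun_prop)
    refine h1.trans ?_
    rw [intervalIntegral.integral_const_mul]
    have h2 : ∫ y in (0:ℝ)..h, Real.exp (-c₀ * y) = (1 - Real.exp (-c₀ * h)) / c₀ := by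
      have hd : ∀ y ∈ uIcc (0:ℝ) h, HasDerivAt (fun y => - Real.exp (-c₀ * y) / c₀) (Real.exp (-c₀ * y)) y := by
        intro y _
        have h3 : HasDerivAt (fun y => Real.exp (-c₀ * y)) (Real.exp (-c₀ * y) * (-c₀ * 1)) y :=
          ((hasDerivAt_id y).const_mul (-c₀)).exp
        have h4 := (h3.neg).div_const c₀
        have h5 : -(Real.exp (-c₀ * y) * (-c₀ * 1)) / c₀ = Real.exp (-c₀ * y) := by
          rw [div_eq_iff hc.ne']
          ring
        rw [h5] at h4
        exact h4
      rw [intervalIntegral.integral_eq_sub_of_hasDerivAt hd (by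
        apply Continuous.intervalIntegrable; fun_prop)]
      simp
      ring
    rw [h2, ← mul_div_assoc]
    have : 0 < Real.exp (-c₀ * h) := Real.exp_pos _
    gcongr
    nlinarith
  have hs1 := hside T (by rw [abs_of_nonneg hT])
  have hs2 := hside (-T) (by rw [abs_neg, abs_of_nonneg hT])
  have heq : (∫ t in (-T)..T, G t) = (∫ x in (-T)..T, G (x + h * Complex.I)) -
      Complex.I • (∫ y in (0:ℝ)..h, G (T + y * Complex.I)) +
      Complex.I • (∫ y in (0:ℝ)..h, G (((-T : ℝ) : ℂ) + y * Complex.I)) := by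
    linear_combination hrect
  rw [heq]
  calc ‖(∫ x in (-T)..T, G (x + h * Complex.I)) -
      Complex.I • (∫ y in (0:ℝ)..h, G (T + y * Complex.I)) +
      Complex.I • (∫ y in (0:ℝ)..h, G (((-T : ℝ) : ℂ) + y * Complex.I))‖
      ≤ ‖∫ x in (-T)..T, G (x + h * Complex.I)‖ +
        ‖Complex.I • (∫ y in (0:ℝ)..h, G (T + y * Complex.I))‖ +
        ‖Complex.I • (∫ y in (0:ℝ)..h, G (((-T : ℝ) : ℂ) + y * Complex.I))‖ :=
        (norm_add_le _ _).trans (by gcongr; exact norm_sub_le _ _)
    _ ≤ M * Real.exp (-c₀ * h) * (2 * T) + M / c₀ + M / c₀ := by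
        rw [norm_smul, norm_smul, Complex.norm_I, one_mul, one_mul]
        gcongr
    _ = M * (2 / c₀ + 2 * T * Real.exp (-c₀ * h)) := by ring

/-- the Schwarz reflection of a function -/
noncomputable def star (g : ℂ → ℂ) : ℂ → ℂ := fun ζ => (starRingEnd ℂ) (g ((starRingEnd ℂ) ζ))

lemma star_diff {g : ℂ → ℂ} (hg : Differentiable ℂ g) : Differentiable ℂ (star g) := by
  intro x
  have := (hg ((starRingEnd ℂ) x)).conj_conj
  show DifferentiableAt ℂ (fun ζ => (starRingEnd ℂ) (g ((starRingEnd ℂ) ζ))) x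
  simpa [Function.comp_def] using this

lemma star_real (g : ℂ → ℂ) (t : ℝ) : star g t = (starRingEnd ℂ) (g t) := by
  simp [star]

/-- the two integrals of a product against the characters of frequency `±1` and `±2`. -/
lemma osc_bound {H : ℂ → ℂ} (hH : Differentiable ℂ H) {T h M b : ℝ} {m : ℝ} (hT : 0 ≤ T) (hh : 0 ≤ h)
    (hM : 0 ≤ M) (hb : b + Real.pi / 4 ≤ 2 * Real.pi * m)
    (hg : ∀ ζ : ℂ, |ζ.re| ≤ T → |ζ.im| ≤ h → ‖H ζ‖ ≤ M * Real.exp (b * |ζ.im|))
    (hTh : 2 * T * Real.exp (-(Real.pi / 4) * h) ≤ 1) (x₀ : ℝ) :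
    ‖∫ t in (-T)..T, Complex.exp (2 * Real.pi * m * Complex.I * (x₀ + t)) * H t‖ ≤ M * 4 := by
  set G : ℂ → ℂ := fun ζ => Complex.exp (2 * Real.pi * m * Complex.I * (x₀ + ζ)) * H ζ with hG
  have hGd : Differentiable ℂ G := by
    rw [hG]; fun_prop
  have h1 := contour (G := G) hGd (T := T) (h := h) (M := M) (c₀ := Real.pi / 4) hT hh hM
    (by positivity) (by
      intro ζ h1 h2 h3
      have hn : ‖G ζ‖ = Real.exp (-(2 * Real.pi * m * ζ.im)) * ‖H ζ‖ := by
        rw [hG]
        simp only [norm_mul, Complex.norm_exp]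
        congr 2
        simp [Complex.mul_re, Complex.mul_im]
      rw [hn]
      have h4 := hg ζ h1 (by rw [abs_of_nonneg h2]; exact h3)
      rw [abs_of_nonneg h2] at h4
      calc Real.exp (-(2 * Real.pi * m * ζ.im)) * ‖H ζ‖
          ≤ Real.exp (-(2 * Real.pi * m * ζ.im)) * (M * Real.exp (b * ζ.im)) := by gcongr
        _ = M * Real.exp (-(2 * Real.pi * m * ζ.im) + b * ζ.im) := by rw [Real.exp_add]; ring
        _ ≤ M * Real.exp (-(Real.pi / 4) * ζ.im) := by
            gcongr
            nlinarith)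
  refine h1.trans ?_
  gcongr
  have h5 : 2 / (Real.pi / 4) ≤ 3 := by
    rw [div_le_iff₀ (by positivity)]
    have := Real.pi_gt_three
    linarith
  linarith

end Pool.Agent.W_MP_4481e3_an
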