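import Pool.Agent.W_MP_4481e3_an.Energy

open MeasureTheory Filter Topology Set

namespace Pool.Agent.W_MP_4481e3_an

variable {α : ℂ} {L : ℕ}

/-- second part of the data at a density point: away from `Bad2` the orbit is not near `0`, `1` -/
structure Near (α : ℂ) (L : ℕ) (z : ℂ) (ε₁ : ℝ) (Nc Bad2 : Set ℝ) : Prop where
  near : ∀ (n : ℕ) (u : ℝ), u ∉ Nc → (L : ℝ) ^ n * u ∉ Bad2 →
    ε₁ ≤ ‖O α L n u z * (1 - O α L n u z)‖
  bad2 : ∀ a : ℝ, volume (Bad2 ∩ Icc a (a + 1)) ≤ ENNReal.ofReal (1 / 2)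

lemma Near.exists_pt {z : ℂ} {ε₁ : ℝ} {Nc Bad2 : Set ℝ} (hN : Near α L z ε₁ Nc Bad2) (hL : 6 ≤ L)
    {u₀ T : ℝ} {n : ℕ} (hn : volume (Nc ∩ Metric.closedBall u₀ (T / (L : ℝ) ^ n)) ≤
      ENNReal.ofReal (1 / 4 / (L : ℝ) ^ n)) {a : ℝ} (ha : -T ≤ a) (ha' : a + 1 ≤ T) :
    ∃ t ∈ Icc a (a + 1), ε₁ ≤ ‖gg α L z u₀ n t * (1 - gg α L z u₀ n t)‖ := by
  have hL0 : (0:ℝ) < L := by
    have : (6:ℝ) ≤ L := by exact_mod_cast hL
    linarith
  have hLn : (0:ℝ) < (L:ℝ) ^ n := pow_pos hL0 n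
  by_contra hcon
  push Not at hcon
  have hsub : Icc a (a + 1) ⊆
      ((fun t : ℝ => u₀ + ((L:ℝ) ^ n)⁻¹ * t) ⁻¹' (Nc ∩ Metric.closedBall u₀ (T / (L : ℝ) ^ n))) ∪
      ((fun t : ℝ => (L:ℝ)^n * u₀ + 1 * t) ⁻¹'
        (Bad2 ∩ Icc ((L:ℝ)^n * u₀ + a) ((L:ℝ)^n * u₀ + a + 1))) := by
    intro t ht
    by_contra hcon2
    rw [mem_union, not_or] at hcon2
    obtain ⟨h1, h2⟩ := hcon2
    have hcast : (u₀ : ℂ) + t / (L : ℂ) ^ n = ((u₀ + ((L:ℝ) ^ n)⁻¹ * t : ℝ) : ℂ) := by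
      push_cast; rw [div_eq_inv_mul]
    have h3 : u₀ + ((L:ℝ) ^ n)⁻¹ * t ∉ Nc := by
      intro h
      apply h1
      refine ⟨h, ?_⟩
      rw [Metric.mem_closedBall, Real.dist_eq, add_sub_cancel_left, abs_mul,
        abs_of_pos (inv_pos.2 hLn), ← div_eq_inv_mul]
      have : |t| ≤ T := abs_le.2 ⟨by linarith [ht.1], by linarith [ht.2]⟩
      gcongr
    have h4 : (L : ℝ) ^ n * (u₀ + ((L:ℝ) ^ n)⁻¹ * t) ∉ Bad2 := by
      intro h
      apply h2
      have h5 : (L : ℝ) ^ n * (u₀ + ((L:ℝ) ^ n)⁻¹ * t) = (L:ℝ)^n * u₀ + 1 * t := by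
        field_simp
      rw [h5] at h
      refine ⟨h, ?_⟩
      constructor <;> linarith [ht.1, ht.2]
    have h6 := hN.near n _ h3 h4
    have h7 := hcon t ht
    unfold gg at h7
    rw [hcast] at h7
    linarith
  have h8 := (measure_mono hsub).trans (measure_union_le (μ := volume) _ _)
  rw [vol_affine _ (inv_pos.2 hLn), vol_affine _ one_pos, inv_inv, inv_one, ENNReal.ofReal_one,
    one_mul, Real.volume_Icc] at h8
  have h9 : ENNReal.ofReal ((L:ℝ) ^ n) * volume (Nc ∩ Metric.closedBall u₀ (T / (L : ℝ) ^ n)) ≤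
      ENNReal.ofReal (1 / 4) := by
    refine (mul_le_mul_right hn _).trans ?_
    rw [← ENNReal.ofReal_mul hLn.le]
    apply ENNReal.ofReal_le_ofReal
    apply le_of_eq
    field_simp
  have h10 := h8.trans (add_le_add h9 (hN.bad2 _))
  rw [← ENNReal.ofReal_add (by norm_num) (by norm_num), ENNReal.ofReal_le_ofReal_iff (by norm_num)] at h10
  norm_num at h10

lemma int_low {z : ℂ} {u₀ P T ε₁ : ℝ} {n₁ n : ℕ} (hP : 1 ≤ P)
    (hg : Good α L z u₀ P (T + 1) n₁) (hn : n₁ ≤ n) (hε : 0 < ε₁) (hε1 : ε₁ ≤ 1) {a : ℝ}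
    (ha : -T ≤ a) (ha' : a + 1 ≤ T)
    (hex : ∃ t ∈ Icc a (a + 1), ε₁ ≤ ‖gg α L z u₀ n t * (1 - gg α L z u₀ n t)‖) :
    ε₁ ^ 3 / (8 * (P * (1 + P))) ≤
      ∫ t in a..(a + 1), ‖gg α L z u₀ n t * (1 - gg α L z u₀ n t)‖ ^ 2 := by
  set G : ℂ → ℂ := fun ζ => gg α L z u₀ n ζ * (1 - gg α L z u₀ n ζ) with hG
  have hGd : Differentiable ℂ G := (gg_diff z u₀ n).mul ((gg_diff z u₀ n).const_sub 1)
  have hGc : Continuous G := hGd.continuous
  set K := P * (1 + P) with hK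
  have hK2 : 2 ≤ K := by nlinarith
  have hbd : ∀ t : ℝ, |t| ≤ T → ‖deriv G t‖ ≤ K := by
    intro t ht
    have := Complex.norm_deriv_le_of_forall_mem_sphere_norm_le (c := (t : ℂ)) (R := 1) (C := K)
      (f := G) one_pos hGd.diffContOnCl (by
        intro ζ hζ
        rw [mem_sphere_iff_norm] at hζ
        have h1 : |(ζ - t).re| ≤ 1 := (Complex.abs_re_le_norm _).trans hζ.le
        have h2 : |(ζ - t).im| ≤ 1 := (Complex.abs_im_le_norm _).trans hζ.le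
        simp only [Complex.sub_re, Complex.ofReal_re] at h1
        simp only [Complex.sub_im, Complex.ofReal_im, sub_zero] at h2
        have h3 : |ζ.re| ≤ T + 1 := by
          rw [abs_le] at h1 ht ⊢
          constructor <;> linarith
        have h4 := hg n hn ζ h3 h2
        rw [hG]
        simp only [norm_mul]
        have h5 : ‖1 - gg α L z u₀ n ζ‖ ≤ 1 + P := by
          refine (norm_sub_le _ _).trans ?_
          simp only [norm_one]
          linarith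
        calc _ ≤ P * (1 + P) := by gcongr
          _ = K := rfl)
    simpa using this
  obtain ⟨t₀, ht₀, hε₀⟩ := hex
  have hlip : ∀ t ∈ Icc a (a + 1), ‖G t - G t₀‖ ≤ K * |t - t₀| := by
    intro t ht
    have := Convex.norm_image_sub_le_of_norm_hasDerivWithin_le (𝕜 := ℝ) (f := fun t : ℝ => G t)
      (f' := fun t : ℝ => deriv G t) (C := K) (s := Icc a (a + 1)) (x := t₀) (y := t)
      (fun x _ => ((hGd x).hasDerivAt.comp_ofReal).hasDerivWithinAt)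
      (fun x hx => hbd x (abs_le.2 ⟨by linarith [hx.1], by linarith [hx.2]⟩)) (convex_Icc _ _) ht₀ ht
    simpa [Real.norm_eq_abs] using this
  set r := ε₁ / (2 * K) with hr
  have hr0 : 0 < r := by positivity
  have hr1 : r ≤ 1 / 2 := by
    rw [hr, div_le_iff₀ (by positivity)]; nlinarith
  have hKr : K * r = ε₁ / 2 := by rw [hr]; field_simp
  have hlow : ∀ t ∈ Icc a (a + 1), |t - t₀| ≤ r → (ε₁ / 2) ^ 2 ≤ ‖G t‖ ^ 2 := by
    intro t ht htr
    have h1 := hlip t ht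
    have h2 : ‖G t₀‖ ≤ ‖G t‖ + ‖G t - G t₀‖ := by
      have := norm_sub_le (G t) (G t - G t₀)
      simpa using this
    have h3 : K * |t - t₀| ≤ K * r := by gcongr
    have h4 : ε₁ ≤ ‖G t₀‖ := hε₀
    apply pow_le_pow_left₀ (by positivity)
    linarith
  have hcont : Continuous fun t : ℝ => ‖G t‖ ^ 2 := by fun_prop
  -- choose the sub-interval
  obtain ⟨b, hb1, hb2, hb3⟩ : ∃ b : ℝ, a ≤ b ∧ b + r ≤ a + 1 ∧ ∀ t ∈ Icc b (b + r), |t - t₀| ≤ r := by
    rcases le_or_gt t₀ (a + 1 / 2) with h | h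
    · refine ⟨t₀, ht₀.1, by linarith, fun t ht => ?_⟩
      rw [abs_le]; constructor <;> linarith [ht.1, ht.2]
    · refine ⟨t₀ - r, by linarith, by linarith [ht₀.2], fun t ht => ?_⟩
      rw [abs_le]; constructor <;> linarith [ht.1, ht.2]
  have h5 : (∫ t in b..(b + r), ‖G t‖ ^ 2) ≤ ∫ t in a..(a + 1), ‖G t‖ ^ 2 :=
    intervalIntegral.integral_mono_interval hb1 (by linarith) hb2
      (Filter.Eventually.of_forall fun t => by positivity) (hcont.intervalIntegrable _ _)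
  have h6 : (∫ _t in b..(b + r), (ε₁ / 2) ^ 2) ≤ ∫ t in b..(b + r), ‖G t‖ ^ 2 := by
    apply intervalIntegral.integral_mono_on (by linarith) (by simp) (hcont.intervalIntegrable _ _)
    intro t ht
    exact hlow t ⟨by linarith [ht.1], by linarith [ht.2]⟩ (hb3 t ht)
  rw [intervalIntegral.integral_const, smul_eq_mul, add_sub_cancel_left] at h6
  refine le_trans (le_of_eq ?_) (h6.trans h5)
  rw [hr]
  field_simp
  ring

lemma int_low_window {z : ℂ} {u₀ P ε₁ : ℝ} {n₁ n : ℕ} (K : ℕ) (hP : 1 ≤ P)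
    (hg : Good α L z u₀ P (K + 1) n₁) (hn : n₁ ≤ n) (hε : 0 < ε₁) (hε1 : ε₁ ≤ 1)
    (hex : ∀ a : ℝ, -(K:ℝ) ≤ a → a + 1 ≤ K →
      ∃ t ∈ Icc a (a + 1), ε₁ ≤ ‖gg α L z u₀ n t * (1 - gg α L z u₀ n t)‖) :
    2 * K * (ε₁ ^ 3 / (8 * (P * (1 + P)))) ≤
      ∫ t in (-(K:ℝ))..K, ‖gg α L z u₀ n t * (1 - gg α L z u₀ n t)‖ ^ 2 := by
  have hgc : Continuous (gg α L z u₀ n) := (gg_diff z u₀ n).continuous
  have hcont : Continuous fun t : ℝ => ‖gg α L z u₀ n t * (1 - gg α L z u₀ n t)‖ ^ 2 := by fun_prop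
  have hsum := intervalIntegral.sum_integral_adjacent_intervals (μ := volume)
    (f := fun t : ℝ => ‖gg α L z u₀ n t * (1 - gg α L z u₀ n t)‖ ^ 2)
    (a := fun i : ℕ => -(K:ℝ) + i) (n := 2 * K) (fun k _ => hcont.intervalIntegrable _ _)
  have hend : -(K:ℝ) + ((2 * K : ℕ) : ℝ) = K := by push_cast; ring
  simp only [Nat.cast_zero, add_zero] at hsum
  rw [hend] at hsum
  rw [← hsum]
  calc 2 * K * (ε₁ ^ 3 / (8 * (P * (1 + P)))) =
        ∑ _i ∈ Finset.range (2 * K), ε₁ ^ 3 / (8 * (P * (1 + P))) := by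
          rw [Finset.sum_const, Finset.card_range, nsmul_eq_mul]; push_cast; ring
    _ ≤ _ := by
        apply Finset.sum_le_sum
        intro i hi
        rw [Finset.mem_range] at hi
        have h1 : ((i:ℝ) + 1) ≤ 2 * K := by exact_mod_cast hi
        have h0 : (0:ℝ) ≤ i := Nat.cast_nonneg i
        have h2 := int_low (a := -(K:ℝ) + i) hP hg hn hε hε1 (by linarith) (by linarith)
          (hex _ (by linarith) (by linarith))
        have h3 : -(K:ℝ) + ((i + 1 : ℕ) : ℝ) = -(K:ℝ) + i + 1 := by push_cast; ring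
        rw [h3]
        exact h2

/-- **Contradiction**: there is no density point of the non-falling set. -/
theorem Dens.contra {z : ℂ} {u₀ ρ ε₁ : ℝ} {Nc Bad Bad2 : Set ℝ} (hD : Dens α L z u₀ ρ Nc Bad)
    (hN : Near α L z ε₁ Nc Bad2) (hα0 : α ≠ 0) (hα : ‖α‖ ≤ 1) (hL : 6 ≤ L) (hρ : 1 ≤ ρ)
    (hε : 0 < ε₁) (hε1 : ε₁ ≤ 1) : False := by
  have hL6 : (6:ℝ) ≤ L := by exact_mod_cast hL
  have hL1 : (1:ℝ) ≤ L := by linarith
  have hL0 : (0:ℝ) < L := by linarith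
  set P := PP ρ with hPdef
  have hP : 1 ≤ P := one_le_PP hρ
  set κ := ε₁ ^ 3 / (8 * (P * (1 + P))) with hκ
  have hκ0 : 0 < κ := by positivity
  set c := ‖α‖ ^ 2 / 2 * κ with hc
  have hc0 : 0 < c := by
    have : 0 < ‖α‖ := norm_pos_iff.2 hα0
    positivity
  set C := 24 * Real.exp (4 * EE P) with hC
  have hC0 : 0 < C := by positivity
  -- number of steps
  obtain ⟨J, hJ⟩ := exists_nat_gt ((P ^ 2 + C) / c)
  rw [div_lt_iff₀ hc0] at hJ
  -- height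
  obtain ⟨J', hJ'⟩ : ∃ J' : ℕ, 2 * (L:ℝ) ^ J * Real.exp (-(Real.pi / 4) * (L:ℝ) ^ J') ≤ 1 := by
    have h1 : Tendsto (fun j : ℕ => (L:ℝ) ^ j) atTop atTop :=
      tendsto_pow_atTop_atTop_of_one_lt (by linarith)
    have h2 : Tendsto (fun j : ℕ => 2 * (L:ℝ) ^ J * Real.exp (-(Real.pi / 4) * (L:ℝ) ^ j)) atTop
        (𝓝 (2 * (L:ℝ) ^ J * 0)) := by
      apply Tendsto.const_mul
      apply Real.tendsto_exp_atBot.comp
      apply Tendsto.const_mul_atTop_of_neg _ h1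
      have := Real.pi_pos
      linarith
    rw [mul_zero] at h2
    obtain ⟨j, hj⟩ := (h2.eventually (Iic_mem_nhds (zero_lt_one' ℝ))).exists
    exact ⟨j, hj⟩
  obtain ⟨n₁, hn₁⟩ := hD.boundA hα hL hρ (T := (L:ℝ) ^ J + 1) (by positivity)
  have hgood : Good α L z u₀ P ((L:ℝ) ^ J + 1) n₁ := hn₁
  obtain ⟨n₂, hn₂⟩ := hD.dens ((L:ℝ) ^ J) (by positivity) (1 / 4) (by norm_num)
  set n := max (n₁ + J') n₂ with hn
  have hnn₁ : n₁ + J' ≤ n := le_max_left _ _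
  have hnn₂ : n₂ ≤ n := le_max_right _ _
  set A : ℕ → ℝ := fun i => (∫ t in (-(L:ℝ) ^ i)..((L:ℝ) ^ i), ‖gg α L z u₀ (n + i) t‖ ^ 2) /
    (2 * (L:ℝ) ^ i) with hA
  have hpos : ∀ i, (0:ℝ) < (L:ℝ) ^ i := fun i => pow_pos hL0 i
  have hstep : ∀ i < J, A i + c - C / 2 ^ (i + 1) ≤ A (i + 1) := by
    intro i hi
    have hiJ : (L:ℝ) ^ i ≤ (L:ℝ) ^ J := pow_le_pow_right₀ hL1 hi.le
    have hen := energy (T := (L:ℝ) ^ i) (J := J') (n := n + i) hα hL hP (hpos i).le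
      (hgood.mono (by linarith)) (by omega) (by
        refine le_trans ?_ hJ'
        gcongr)
    have hlow := int_low_window (n := n + i) (L ^ i) hP (hgood.mono (by push_cast; linarith))
      (by omega) hε hε1 (by
        intro a ha ha'
        push_cast at ha ha'
        refine hN.exists_pt hL (T := (L:ℝ) ^ i) ?_ ha ha'
        refine (measure_mono ?_).trans (hn₂ (n + i) (by omega))
        apply inter_subset_inter_right
        apply Metric.closedBall_subset_closedBall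
        have := hpos (n + i)
        gcongr)
    push_cast at hlow
    rw [← hκ] at hlow
    have hscale : (∫ t in (-(L:ℝ) ^ i)..((L:ℝ) ^ i), ‖gg α L z u₀ (n + i + 1) (L * t)‖ ^ 2) =
        (L:ℝ)⁻¹ * ∫ t in (-(L:ℝ) ^ (i + 1))..((L:ℝ) ^ (i + 1)), ‖gg α L z u₀ (n + (i + 1)) t‖ ^ 2 := by
      have h1 := intervalIntegral.integral_comp_mul_left (a := -(L:ℝ) ^ i) (b := (L:ℝ) ^ i)
        (fun s : ℝ => ‖gg α L z u₀ (n + i + 1) s‖ ^ 2) (c := (L:ℝ)) hL0.ne'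
      push_cast at h1
      rw [h1, smul_eq_mul]
      congr 2
      · rw [pow_succ]; ring
      · rw [pow_succ]; ring
    rw [hscale] at hen
    set I0 := ∫ t in (-(L:ℝ) ^ i)..((L:ℝ) ^ i), ‖gg α L z u₀ (n + i) t‖ ^ 2 with hI0
    set I1 := ∫ t in (-(L:ℝ) ^ (i + 1))..((L:ℝ) ^ (i + 1)), ‖gg α L z u₀ (n + (i + 1)) t‖ ^ 2 with hI1
    set V := ∫ t in (-(L:ℝ) ^ i)..((L:ℝ) ^ i), ‖gg α L z u₀ (n + i) t * (1 - gg α L z u₀ (n + i) t)‖ ^ 2
      with hV
    have hA0 : A i = I0 / (2 * (L:ℝ) ^ i) := rfl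
    have hA1 : A (i + 1) = ((L:ℝ)⁻¹ * I1) / (2 * (L:ℝ) ^ i) := by
      show I1 / (2 * (L:ℝ) ^ (i + 1)) = _
      rw [pow_succ]; field_simp
    have hCi : C / (2 * (L:ℝ) ^ i) ≤ C / 2 ^ (i + 1) := by
      have : (2:ℝ) ^ i ≤ (L:ℝ) ^ i := pow_le_pow_left₀ (by norm_num) (by linarith) i
      have h2 : (2:ℝ) ^ (i + 1) ≤ 2 * (L:ℝ) ^ i := by rw [pow_succ]; linarith
      gcongr
    have hcV : c ≤ (‖α‖ ^ 2 / 2 * V) / (2 * (L:ℝ) ^ i) := by
      rw [le_div_iff₀ (by have := hpos i; positivity), hc]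
      calc ‖α‖ ^ 2 / 2 * κ * (2 * (L:ℝ) ^ i) = ‖α‖ ^ 2 / 2 * (2 * (L:ℝ) ^ i * κ) := by ring
        _ ≤ _ := by gcongr
    calc A i + c - C / 2 ^ (i + 1) ≤ I0 / (2 * (L:ℝ) ^ i) + (‖α‖ ^ 2 / 2 * V) / (2 * (L:ℝ) ^ i) -
          C / (2 * (L:ℝ) ^ i) := by rw [hA0]; linarith
      _ = (I0 + ‖α‖ ^ 2 / 2 * V - C) / (2 * (L:ℝ) ^ i) := by ring
      _ ≤ ((L:ℝ)⁻¹ * I1) / (2 * (L:ℝ) ^ i) := by
          have := hpos i
          gcongr
      _ = A (i + 1) := hA1.symm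
  have hind : ∀ i ≤ J, i * c - C * (1 - 1 / 2 ^ i) ≤ A i := by
    intro i
    induction i with
    | zero =>
      intro _
      have : 0 ≤ A 0 := by
        apply div_nonneg _ (by positivity)
        apply intervalIntegral.integral_nonneg (by simp)
        intro t _
        positivity
      simpa using this
    | succ i ih =>
      intro hi
      have h1 := ih (by omega)
      have h2 := hstep i (by omega)
      push_cast
      have h3 : C * (1 - 1 / 2 ^ (i + 1)) = C * (1 - 1 / 2 ^ i) + C / 2 ^ (i + 1) := by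
        rw [pow_succ]; field_simp; ring
      rw [h3]
      linarith
  have hAJ : A J ≤ P ^ 2 := by
    have hcont : Continuous fun t : ℝ => ‖gg α L z u₀ (n + J) t‖ ^ 2 := by
      have := (gg_diff (α := α) (L := L) z u₀ (n + J)).continuous
      fun_prop
    have h1 : (∫ t in (-(L:ℝ) ^ J)..((L:ℝ) ^ J), ‖gg α L z u₀ (n + J) t‖ ^ 2) ≤
        ∫ _t in (-(L:ℝ) ^ J)..((L:ℝ) ^ J), P ^ 2 := by
      apply intervalIntegral.integral_mono_on (by have := hpos J; linarith)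
        (hcont.intervalIntegrable _ _) (by simp)
      intro t ht
      apply pow_le_pow_left₀ (norm_nonneg _)
      apply hgood (n + J) (by omega)
      · simp only [Complex.ofReal_re]
        rw [abs_le]; constructor <;> linarith [ht.1, ht.2]
      · simp
    rw [intervalIntegral.integral_const, smul_eq_mul] at h1
    show _ / _ ≤ _
    rw [div_le_iff₀ (by have := hpos J; positivity)]
    calc _ ≤ _ := h1
      _ = P ^ 2 * (2 * (L:ℝ) ^ J) := by ring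
  have h4 := hind J le_rfl
  have h5 : C * (1 - 1 / 2 ^ J) ≤ C := by
    have : (0:ℝ) < 1 / 2 ^ J := by positivity
    nlinarith
  linarith

end Pool.Agent.W_MP_4481e3_an
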