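import Mathlib

open MeasureTheory Filter Topology Set

namespace Pool.Agent.W_MP_4481e3_an

/-- The chordal (spherical) distance on the Riemann sphere `OnePoint ℂ`. -/
noncomputable def chordal : OnePoint ℂ → OnePoint ℂ → ℝ
  | some z, some w => 2 * ‖z - w‖ / (√(1 + ‖z‖ ^ 2) * √(1 + ‖w‖ ^ 2))
  | some z, none => 2 / √(1 + ‖z‖ ^ 2)
  | none, some w => 2 / √(1 + ‖w‖ ^ 2)
  | none, none => 0

/-- The expanding base map `E(u) = L u mod 1` on the circle `ℝ/ℤ = [0,1)`. -/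
noncomputable def baseMap (L : ℕ) (u : ℝ) : ℝ := Int.fract ((L : ℝ) * u)

/-- The fibre map `f_u(z) = z + α cos(2πu) z (1 - z)` on the Riemann sphere, fixing `∞`. -/
noncomputable def fibreMap (α : ℂ) (u : ℝ) : OnePoint ℂ → OnePoint ℂ :=
  OnePoint.map fun z : ℂ => z + α * (Real.cos (2 * Real.pi * u) : ℂ) * z * (1 - z)

/-- `f_u^n = f_{E^{n-1}u} ∘ ⋯ ∘ f_{Eu} ∘ f_u`. -/
noncomputable def fibreIter (α : ℂ) (L : ℕ) (u : ℝ) : ℕ → OnePoint ℂ → OnePoint ℂ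
  | 0 => id
  | n + 1 => fibreMap α ((baseMap L)^[n] u) ∘ fibreIter α L u n

/-- The sequence `F` of self-maps of the sphere is a normal family on `V`: every subsequence has a
further subsequence which converges locally uniformly on `V` in the spherical metric. -/
def NormalOn (F : ℕ → OnePoint ℂ → OnePoint ℂ) (V : Set (OnePoint ℂ)) : Prop :=
  ∀ φ : ℕ → ℕ, StrictMono φ → ∃ ψ : ℕ → ℕ, StrictMono ψ ∧ ∃ g : OnePoint ℂ → OnePoint ℂ,
    ∀ x ∈ V, ∃ r > 0, ∀ ε > 0, ∃ N : ℕ, ∀ n ≥ N, ∀ y ∈ V, chordal x y < r →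
      chordal (F (φ (ψ n)) y) (g y) < ε

/-- The random Fatou set: points with a neighbourhood on which `(f_u^n)_{n ≥ 1}` is normal. -/
def randomFatou (α : ℂ) (L : ℕ) (u : ℝ) : Set (OnePoint ℂ) :=
  {z | ∃ r > 0, NormalOn (fun n => fibreIter α L u (n + 1)) {y | chordal z y < r}}

/-- The combined basin of `0`, `1`, `∞` at `u`. -/
def combinedBasin (α : ℂ) (L : ℕ) (u : ℝ) : Set (OnePoint ℂ) :=
  {z | ∃ p : OnePoint ℂ, (p = ((0 : ℂ) : OnePoint ℂ) ∨ p = ((1 : ℂ) : OnePoint ℂ) ∨ p = OnePoint.infty) ∧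
    Tendsto (fun n => chordal (fibreIter α L u n z) p) atTop (𝓝 0)}

end Pool.Agent.W_MP_4481e3_an
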