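import Pool.Agent.W_MP_4481e3_an.BoundA
import Pool.Agent.W_MP_4481e3_an.Contour

open MeasureTheory Filter Topology Set

namespace Pool.Agent.W_MP_4481e3_an

variable {α : ℂ} {L : ℕ}

/-- the scaled curve -/
noncomputable def gg (α : ℂ) (L : ℕ) (z : ℂ) (u₀ : ℝ) (n : ℕ) (ζ : ℂ) : ℂ :=
  O α L n (u₀ + ζ / (L : ℂ) ^ n) z

lemma gg_diff (z : ℂ) (u₀ : ℝ) (n : ℕ) : Differentiable ℂ (gg α L z u₀ n) := O_scaled_diff n u₀ z

lemma gg_succ (hL : 6 ≤ L) (z : ℂ) (u₀ : ℝ) (n : ℕ) (ζ : ℂ) :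
    gg α L z u₀ (n + 1) (L * ζ) = gg α L z u₀ n ζ +
      α * Complex.cos (2 * Real.pi * ((((L:ℝ) ^ n * u₀ : ℝ) : ℂ) + ζ)) * gg α L z u₀ n ζ *
        (1 - gg α L z u₀ n ζ) := by
  have hLc : (L : ℂ) ≠ 0 := by
    have : L ≠ 0 := by omega
    exact_mod_cast this
  unfold gg
  rw [O_succ]
  have h1 : (u₀ : ℂ) + L * ζ / (L : ℂ) ^ (n + 1) = u₀ + ζ / (L:ℂ) ^ n := by
    rw [pow_succ]; field_simp
  have h2 : (L:ℂ) ^ n * (u₀ + ζ / (L:ℂ) ^ n) = (((L:ℝ) ^ n * u₀ : ℝ) : ℂ) + ζ := by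
    push_cast; field_simp
  rw [h1, h2]

/-- the uniform bound hypothesis on a window -/
def Good (α : ℂ) (L : ℕ) (z : ℂ) (u₀ P T : ℝ) (n₁ : ℕ) : Prop :=
  ∀ n ≥ n₁, ∀ ζ : ℂ, |ζ.re| ≤ T → |ζ.im| ≤ 1 → ‖gg α L z u₀ n ζ‖ ≤ P

lemma Good.mono {z : ℂ} {u₀ P T T' : ℝ} {n₁ : ℕ} (h : Good α L z u₀ P T n₁) (hT : T' ≤ T) :
    Good α L z u₀ P T' n₁ := fun n hn ζ h1 h2 => h n hn ζ (h1.trans hT) h2

noncomputable def DD (P : ℝ) : ℝ := Real.log P + Real.log 3

lemma DD_nonneg {P : ℝ} (hP : 1 ≤ P) : 0 ≤ DD P :=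
  add_nonneg (Real.log_nonneg hP) (Real.log_nonneg (by norm_num))

lemma exp_aux (A B : ℝ) : Real.exp (Real.log 3 + A + 2 * B) = 3 * Real.exp A * Real.exp B ^ 2 := by
  rw [Real.exp_add, Real.exp_add, Real.exp_log (by norm_num), two_mul, Real.exp_add]
  ring

lemma growth1 (hα : ‖α‖ ≤ 1) (hL : 6 ≤ L) {z : ℂ} {u₀ P T : ℝ} {n₁ : ℕ} (hP : 1 ≤ P) (hT : 0 ≤ T)
    (hg : Good α L z u₀ P T n₁) (j : ℕ) : ∀ n, n₁ + j ≤ n → ∀ ζ : ℂ, |ζ.re| ≤ T →
      |ζ.im| ≤ (L:ℝ) ^ j →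
      max 1 ‖gg α L z u₀ n ζ‖ ≤ Real.exp (2 ^ j * DD P - Real.log 3 + Real.pi / 2 * |ζ.im|) := by
  have hL6 : (6:ℝ) ≤ L := by exact_mod_cast hL
  have hL0 : (0:ℝ) < L := by linarith
  induction j with
  | zero =>
    intro n hn ζ hre him
    have h1 := hg n (by omega) ζ hre (by simpa using him)
    have h2 : max 1 ‖gg α L z u₀ n ζ‖ ≤ P := max_le hP h1
    refine h2.trans ?_
    calc P = Real.exp (Real.log P) := (Real.exp_log (by linarith)).symm
      _ ≤ _ := by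
        apply Real.exp_le_exp.2
        unfold DD
        have : 0 ≤ Real.pi / 2 * |ζ.im| := by positivity
        simp
        linarith
  | succ j ih =>
    intro n hn ζ hre him
    obtain ⟨n', rfl⟩ : ∃ n', n = n' + 1 := ⟨n - 1, by omega⟩
    set ξ : ℂ := ζ / L with hξ
    have hLc : (L : ℂ) ≠ 0 := by
      have : L ≠ 0 := by omega
      exact_mod_cast this
    have hξre : ξ.re = ζ.re / L := by
      rw [hξ]; exact Complex.div_natCast_re _ _
    have hξim : ξ.im = ζ.im / L := by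
      rw [hξ]; exact Complex.div_natCast_im _ _
    have h1 := ih n' (by omega) ξ (by
        rw [hξre, abs_div, abs_of_pos hL0, div_le_iff₀ hL0]
        nlinarith) (by
        rw [hξim, abs_div, abs_of_pos hL0, div_le_iff₀ hL0, ← pow_succ]
        exact him)
    have h2 : ζ = L * ξ := by rw [hξ]; field_simp
    have h3 := step_growth hα ((((L:ℝ) ^ n' * u₀ : ℝ) : ℂ) + ξ) (gg α L z u₀ n' ξ)
    rw [← gg_succ hL, ← h2] at h3
    rw [Complex.add_im, Complex.ofReal_im, zero_add, hξim, abs_div, abs_of_pos hL0] at h3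
    rw [hξim, abs_div, abs_of_pos hL0] at h1
    set s := |ζ.im| with hs
    have hs0 : 0 ≤ s := abs_nonneg _
    refine h3.trans ?_
    calc 3 * Real.exp (2 * Real.pi * (s / L)) * max 1 ‖gg α L z u₀ n' ξ‖ ^ 2
        ≤ 3 * Real.exp (2 * Real.pi * (s / L)) *
          (Real.exp (2 ^ j * DD P - Real.log 3 + Real.pi / 2 * (s / L))) ^ 2 := by gcongr
      _ = Real.exp (Real.log 3 + 2 * Real.pi * (s / L) +
          2 * (2 ^ j * DD P - Real.log 3 + Real.pi / 2 * (s / L))) := (exp_aux _ _).symm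
      _ ≤ _ := by
          apply Real.exp_le_exp.2
          have h4 : 3 * Real.pi * (s / L) ≤ Real.pi / 2 * s := by
            have h5 : s / L ≤ s / 6 := by gcongr
            have := Real.pi_pos
            nlinarith
          have h6 : (2:ℝ) ^ (j + 1) * DD P = 2 * (2 ^ j * DD P) := by rw [pow_succ]; ring
          rw [h6]
          linarith

noncomputable def EE (P : ℝ) : ℝ := DD P + 12 * DD P ^ 2 / Real.pi

lemma EE_nonneg {P : ℝ} (hP : 1 ≤ P) : 0 ≤ EE P := by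
  have := DD_nonneg hP
  unfold EE
  positivity

lemma growth2 (hα : ‖α‖ ≤ 1) (hL : 6 ≤ L) {z : ℂ} {u₀ P T : ℝ} {n₁ : ℕ} (hP : 1 ≤ P) (hT : 0 ≤ T)
    (hg : Good α L z u₀ P T n₁) (J : ℕ) : ∀ n, n₁ + J ≤ n → ∀ ζ : ℂ, |ζ.re| ≤ T →
      |ζ.im| ≤ (L:ℝ) ^ J →
      max 1 ‖gg α L z u₀ n ζ‖ ≤ Real.exp (EE P + 7 * Real.pi / 12 * |ζ.im|) := by
  intro n hn ζ hre him
  have hpi := Real.pi_pos
  have hD := DD_nonneg hP
  have hlog3 : 0 ≤ Real.log 3 := Real.log_nonneg (by norm_num)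
  have hL4 : (4:ℝ) ≤ L := by
    have : (6:ℝ) ≤ L := by exact_mod_cast hL
    linarith
  classical
  have hex : ∃ j, |ζ.im| ≤ (L:ℝ) ^ j := ⟨J, him⟩
  set j := Nat.find hex with hj
  have hjs : |ζ.im| ≤ (L:ℝ) ^ j := Nat.find_spec hex
  have hjJ : j ≤ J := Nat.find_min' hex him
  have h1 := growth1 hα hL hP hT hg j n (by omega) ζ hre hjs
  refine h1.trans (Real.exp_le_exp.2 ?_)
  have hs0 : 0 ≤ |ζ.im| := abs_nonneg _
  unfold EE
  rcases Nat.eq_zero_or_pos j with h0 | hpos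
  · rw [h0]
    have : 0 ≤ 12 * DD P ^ 2 / Real.pi := by positivity
    nlinarith
  · obtain ⟨i, hi⟩ : ∃ i, j = i + 1 := ⟨j - 1, by omega⟩
    have hlt : (L:ℝ) ^ i < |ζ.im| := by
      have := Nat.find_min hex (m := i) (by rw [← hj]; omega)
      exact not_le.1 this
    rw [hi]
    set x : ℝ := 2 ^ i with hx
    have hx2 : x ^ 2 ≤ |ζ.im| := by
      calc x ^ 2 = 4 ^ i := by rw [hx, ← pow_mul, mul_comm, pow_mul]; norm_num
        _ ≤ (L:ℝ) ^ i := pow_le_pow_left₀ (by norm_num) hL4 i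
        _ ≤ _ := hlt.le
    have hamgm : 2 * x * DD P ≤ Real.pi / 12 * x ^ 2 + 12 * DD P ^ 2 / Real.pi := by
      have h5 : 0 ≤ (Real.pi / 12 * x - DD P) ^ 2 * (12 / Real.pi) := by positivity
      have h6 : (Real.pi / 12 * x - DD P) ^ 2 * (12 / Real.pi) =
          Real.pi / 12 * x ^ 2 - 2 * x * DD P + 12 * DD P ^ 2 / Real.pi := by
        field_simp; ring
      linarith
    have h7 : (2:ℝ) ^ (i + 1) * DD P = 2 * x * DD P := by rw [hx, pow_succ]; ring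
    rw [h7]
    nlinarith

/-- oscillatory integrals against cosines -/
lemma osc_cos {H : ℂ → ℂ} (hH : Differentiable ℂ H) {T h M b : ℝ} {m : ℝ} (hT : 0 ≤ T) (hh : 0 ≤ h)
    (hM : 0 ≤ M) (hb : b + Real.pi / 4 ≤ 2 * Real.pi * m)
    (hg : ∀ ζ : ℂ, |ζ.re| ≤ T → |ζ.im| ≤ h → ‖H ζ‖ ≤ M * Real.exp (b * |ζ.im|))
    (hTh : 2 * T * Real.exp (-(Real.pi / 4) * h) ≤ 1) (x₀ : ℝ) :
    ‖∫ t in (-T)..T, (Real.cos (2 * Real.pi * m * (x₀ + t)) : ℂ) * H t‖ ≤ M * 4 := by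
  have h1 := osc_bound hH hT hh hM hb hg hTh x₀
  have h2 := osc_bound (star_diff hH) hT hh hM hb (by
    intro ζ h1 h2
    have := hg ((starRingEnd ℂ) ζ) (by simpa using h1) (by simpa using h2)
    simpa [star] using this) hTh x₀
  have h3 : ‖∫ t in (-T)..T, Complex.exp (-(2 * Real.pi * m * Complex.I * (x₀ + t))) * H t‖ ≤ M * 4 := by
    have h4 : (∫ t in (-T)..T, Complex.exp (2 * Real.pi * m * Complex.I * (x₀ + t)) * star H t) =
        (starRingEnd ℂ) (∫ t in (-T)..T, Complex.exp (-(2 * Real.pi * m * Complex.I * (x₀ + t))) * H t) := by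
      rw [← intervalIntegral.intervalIntegral_conj]
      congr 1
      ext t
      rw [star_real, map_mul, ← Complex.exp_conj]
      congr 2
      have h2 : (2:ℂ) = ((2:ℝ):ℂ) := by norm_num
      rw [h2]
      simp only [map_neg, map_mul, map_add, Complex.conj_ofReal, Complex.conj_I]
      ring
    rw [h4, RCLike.norm_conj] at h2
    exact h2
  have hcont1 : Continuous fun t : ℝ => Complex.exp (2 * Real.pi * m * Complex.I * (x₀ + t)) * H t := by
    have := hH.continuous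
    fun_prop
  have hcont2 : Continuous fun t : ℝ =>
      Complex.exp (-(2 * Real.pi * m * Complex.I * (x₀ + t))) * H t := by
    have := hH.continuous
    fun_prop
  have h5 : (∫ t in (-T)..T, (Real.cos (2 * Real.pi * m * (x₀ + t)) : ℂ) * H t) =
      (1 / 2 : ℂ) * ((∫ t in (-T)..T, Complex.exp (2 * Real.pi * m * Complex.I * (x₀ + t)) * H t) +
        ∫ t in (-T)..T, Complex.exp (-(2 * Real.pi * m * Complex.I * (x₀ + t))) * H t) := by
    rw [← intervalIntegral.integral_add (hcont1.intervalIntegrable _ _)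
      (hcont2.intervalIntegrable _ _), ← intervalIntegral.integral_const_mul]
    congr 1
    ext t
    rw [Complex.ofReal_cos, Complex.cos]
    push_cast
    have e1 : 2 * (Real.pi : ℂ) * m * (x₀ + t) * Complex.I = 2 * Real.pi * m * Complex.I * (x₀ + t) := by
      ring
    have e2 : -(2 * (Real.pi : ℂ) * m * (x₀ + t)) * Complex.I =
        -(2 * Real.pi * m * Complex.I * (x₀ + t)) := by ring
    rw [e1, e2]
    ring
  rw [h5, norm_mul]
  calc ‖(1 / 2 : ℂ)‖ * ‖(∫ t in (-T)..T, Complex.exp (2 * Real.pi * m * Complex.I * (x₀ + t)) * H t) +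
        ∫ t in (-T)..T, Complex.exp (-(2 * Real.pi * m * Complex.I * (x₀ + t))) * H t‖
      ≤ 1 / 2 * (M * 4 + M * 4) := by
        have : ‖(1 / 2 : ℂ)‖ = 1 / 2 := by simp
        rw [this]
        gcongr
        exact (norm_add_le _ _).trans (add_le_add h1 h3)
    _ = M * 4 := by ring

lemma energy_pointwise (w a : ℂ) (c : ℝ) :
    ‖w + a * c * w * (1 - w)‖ ^ 2 = ‖w‖ ^ 2 +
      2 * (a * ((c : ℂ) * (w * (starRingEnd ℂ) w * (1 - w)))).re +
      ‖a‖ ^ 2 * c ^ 2 * ‖w * (1 - w)‖ ^ 2 := by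
  rw [Complex.sq_norm, Complex.sq_norm, Complex.sq_norm, Complex.sq_norm, Complex.normSq_add]
  have h1 : Complex.normSq (a * c * w * (1 - w)) =
      Complex.normSq a * c ^ 2 * Complex.normSq (w * (1 - w)) := by
    simp only [Complex.normSq_mul, Complex.normSq_ofReal]; ring
  have h2 : (w * (starRingEnd ℂ) (a * c * w * (1 - w))).re =
      (a * ((c : ℂ) * (w * (starRingEnd ℂ) w * (1 - w)))).re := by
    have : (w * (starRingEnd ℂ) (a * c * w * (1 - w))) =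
        (starRingEnd ℂ) (a * ((c : ℂ) * (w * (starRingEnd ℂ) w * (1 - w)))) := by
      simp only [map_mul, Complex.conj_conj, Complex.conj_ofReal]
      ring
    rw [this, Complex.conj_re]
  rw [h1, h2]
  ring

/-- **Energy inequality**. -/
lemma energy (hα : ‖α‖ ≤ 1) (hL : 6 ≤ L) {z : ℂ} {u₀ P T : ℝ} {n₁ : ℕ} (hP : 1 ≤ P) (hT : 0 ≤ T)
    (hg : Good α L z u₀ P T n₁) {J n : ℕ} (hn : n₁ + J ≤ n)
    (hTh : 2 * T * Real.exp (-(Real.pi / 4) * (L:ℝ) ^ J) ≤ 1) :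
    (∫ t in (-T)..T, ‖gg α L z u₀ n t‖ ^ 2) +
      ‖α‖ ^ 2 / 2 * (∫ t in (-T)..T, ‖gg α L z u₀ n t * (1 - gg α L z u₀ n t)‖ ^ 2) -
      24 * Real.exp (4 * EE P) ≤
    ∫ t in (-T)..T, ‖gg α L z u₀ (n + 1) (L * t)‖ ^ 2 := by
  set g := gg α L z u₀ n with hgdef
  have hgd : Differentiable ℂ g := gg_diff z u₀ n
  have hgc : Continuous g := hgd.continuous
  set E := EE P with hE
  have hE0 : 0 ≤ E := EE_nonneg hP
  have hgr : ∀ ζ : ℂ, |ζ.re| ≤ T → |ζ.im| ≤ (L:ℝ) ^ J →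
      max 1 ‖g ζ‖ ≤ Real.exp (E + 7 * Real.pi / 12 * |ζ.im|) := growth2 hα hL hP hT hg J n hn
  have hgs : ∀ ζ : ℂ, |ζ.re| ≤ T → |ζ.im| ≤ (L:ℝ) ^ J →
      max 1 ‖star g ζ‖ ≤ Real.exp (E + 7 * Real.pi / 12 * |ζ.im|) := by
    intro ζ h1 h2
    have := hgr ((starRingEnd ℂ) ζ) (by simpa using h1) (by simpa using h2)
    simpa [star] using this
  have hLJ : (0:ℝ) ≤ (L:ℝ) ^ J := by positivity
  set x₀ : ℝ := (L:ℝ) ^ n * u₀ with hx₀
  set H1 : ℂ → ℂ := fun ζ => g ζ * star g ζ * (1 - g ζ) with hH1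
  set H2 : ℂ → ℂ := fun ζ => g ζ * star g ζ * ((1 - g ζ) * (1 - star g ζ)) with hH2
  have hsd := star_diff hgd
  have hH1d : Differentiable ℂ H1 := (hgd.mul hsd).mul (hgd.const_sub 1)
  have hH2d : Differentiable ℂ H2 := (hgd.mul hsd).mul ((hgd.const_sub 1).mul (hsd.const_sub 1))
  have hpi := Real.pi_pos
  have hb1 : ∀ ζ : ℂ, |ζ.re| ≤ T → |ζ.im| ≤ (L:ℝ) ^ J →
      ‖H1 ζ‖ ≤ 2 * Real.exp (3 * E) * Real.exp (7 * Real.pi / 4 * |ζ.im|) := by
    intro ζ h1 h2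
    have a1 := hgr ζ h1 h2
    have a2 := hgs ζ h1 h2
    set X := Real.exp (E + 7 * Real.pi / 12 * |ζ.im|) with hX
    have b1 : ‖g ζ‖ ≤ X := (le_max_right _ _).trans a1
    have b2 : ‖star g ζ‖ ≤ X := (le_max_right _ _).trans a2
    have b3 : 1 ≤ X := (le_max_left _ _).trans a1
    have b4 : ‖1 - g ζ‖ ≤ 2 * X := by
      refine (norm_sub_le _ _).trans ?_
      simp only [norm_one]
      linarith
    rw [hH1]
    simp only [norm_mul]
    calc ‖g ζ‖ * ‖star g ζ‖ * ‖1 - g ζ‖ ≤ X * X * (2 * X) := by gcongr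
      _ = 2 * X ^ 3 := by ring
      _ = 2 * Real.exp (3 * E) * Real.exp (7 * Real.pi / 4 * |ζ.im|) := by
          rw [hX, ← Real.exp_nat_mul, mul_assoc, ← Real.exp_add]
          congr 2
          push_cast; ring
  have hb2 : ∀ ζ : ℂ, |ζ.re| ≤ T → |ζ.im| ≤ (L:ℝ) ^ J →
      ‖H2 ζ‖ ≤ 4 * Real.exp (4 * E) * Real.exp (7 * Real.pi / 3 * |ζ.im|) := by
    intro ζ h1 h2
    have a1 := hgr ζ h1 h2
    have a2 := hgs ζ h1 h2
    set X := Real.exp (E + 7 * Real.pi / 12 * |ζ.im|) with hX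
    have b1 : ‖g ζ‖ ≤ X := (le_max_right _ _).trans a1
    have b2 : ‖star g ζ‖ ≤ X := (le_max_right _ _).trans a2
    have b3 : 1 ≤ X := (le_max_left _ _).trans a1
    have b4 : ‖1 - g ζ‖ ≤ 2 * X := by
      refine (norm_sub_le _ _).trans ?_
      simp only [norm_one]
      linarith
    have b5 : ‖1 - star g ζ‖ ≤ 2 * X := by
      refine (norm_sub_le _ _).trans ?_
      simp only [norm_one]
      linarith
    rw [hH2]
    simp only [norm_mul]
    calc ‖g ζ‖ * ‖star g ζ‖ * (‖1 - g ζ‖ * ‖1 - star g ζ‖) ≤ X * X * ((2 * X) * (2 * X)) := by gcongr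
      _ = 4 * X ^ 4 := by ring
      _ = 4 * Real.exp (4 * E) * Real.exp (7 * Real.pi / 3 * |ζ.im|) := by
          rw [hX, ← Real.exp_nat_mul, mul_assoc, ← Real.exp_add]
          congr 2
          push_cast; ring
  have I1 := osc_cos hH1d hT hLJ (M := 2 * Real.exp (3 * E)) (b := 7 * Real.pi / 4) (m := 1)
    (by positivity) (by linarith) hb1 hTh x₀
  have I2 := osc_cos hH2d hT hLJ (M := 4 * Real.exp (4 * E)) (b := 7 * Real.pi / 3) (m := 2)
    (by positivity) (by linarith) hb2 hTh x₀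
  -- real-variable reformulation
  set q : ℝ → ℝ := fun t => ‖g t * (1 - g t)‖ ^ 2 with hq
  have hH1r : ∀ t : ℝ, H1 t = g t * (starRingEnd ℂ) (g t) * (1 - g t) := by
    intro t; rw [hH1]; simp only [star_real]
  have hH2r : ∀ t : ℝ, H2 t = (q t : ℂ) := by
    intro t
    rw [hH2, hq]
    simp only [star_real]
    rw [Complex.sq_norm]
    rw [Complex.normSq_eq_conj_mul_self]
    simp only [map_mul, map_sub, map_one]
    ring
  have hpt : ∀ t : ℝ, ‖gg α L z u₀ (n + 1) (L * t)‖ ^ 2 = ‖g t‖ ^ 2 +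
      2 * (α * ((Real.cos (2 * Real.pi * 1 * (x₀ + t)) : ℂ) * H1 t)).re +
      ‖α‖ ^ 2 * (q t / 2 + (Real.cos (2 * Real.pi * 2 * (x₀ + t)) * q t) / 2) := by
    intro t
    rw [gg_succ hL]
    have hc : Complex.cos (2 * Real.pi * ((x₀ : ℂ) + t)) = (Real.cos (2 * Real.pi * 1 * (x₀ + t)) : ℂ) := by
      push_cast; rw [mul_one]
    rw [hc, energy_pointwise, ← hH1r]
    have hcos : Real.cos (2 * Real.pi * 2 * (x₀ + t)) = 2 * Real.cos (2 * Real.pi * 1 * (x₀ + t)) ^ 2 - 1 := by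
      rw [← Real.cos_two_mul]; congr 1; ring
    rw [hcos, hq]
    ring
  have hc1 : Continuous fun t : ℝ => ‖g t‖ ^ 2 := by fun_prop
  have hH1c : Continuous H1 := hH1d.continuous
  have hc2 : Continuous fun t : ℝ => (Real.cos (2 * Real.pi * 1 * (x₀ + t)) : ℂ) * H1 t := by
    fun_prop
  have hc3 : Continuous q := by rw [hq]; fun_prop
  have hint : (∫ t in (-T)..T, ‖gg α L z u₀ (n + 1) (L * t)‖ ^ 2) =
      (∫ t in (-T)..T, ‖g t‖ ^ 2) +
      2 * (α * (∫ t in (-T)..T, (Real.cos (2 * Real.pi * 1 * (x₀ + t)) : ℂ) * H1 t)).re +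
      ‖α‖ ^ 2 * ((∫ t in (-T)..T, q t) / 2 +
        (∫ t in (-T)..T, Real.cos (2 * Real.pi * 2 * (x₀ + t)) * q t) / 2) := by
    have hre : (α * (∫ t in (-T)..T, (Real.cos (2 * Real.pi * 1 * (x₀ + t)) : ℂ) * H1 t)).re =
        ∫ t in (-T)..T, (α * ((Real.cos (2 * Real.pi * 1 * (x₀ + t)) : ℂ) * H1 t)).re := by
      rw [← intervalIntegral.integral_const_mul]
      exact (intervalIntegral.intervalIntegral_re
        ((continuous_const.mul hc2).intervalIntegrable _ _)).symm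
    have hc4 : Continuous fun t : ℝ =>
        (α * ((Real.cos (2 * Real.pi * 1 * (x₀ + t)) : ℂ) * H1 t)).re :=
      Complex.continuous_re.comp (continuous_const.mul hc2)
    have hc5 : Continuous fun t : ℝ => q t / 2 := by fun_prop
    have hc6 : Continuous fun t : ℝ => (Real.cos (2 * Real.pi * 2 * (x₀ + t)) * q t) / 2 := by
      fun_prop
    have hc7 : Continuous fun t : ℝ => ‖g t‖ ^ 2 +
      2 * (α * ((Real.cos (2 * Real.pi * 1 * (x₀ + t)) : ℂ) * H1 t)).re :=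
      hc1.add (continuous_const.mul hc4)
    have hc8 : Continuous fun t : ℝ =>
        ‖α‖ ^ 2 * (q t / 2 + (Real.cos (2 * Real.pi * 2 * (x₀ + t)) * q t) / 2) :=
      continuous_const.mul (hc5.add hc6)
    have hc9 : Continuous fun t : ℝ =>
        2 * (α * ((Real.cos (2 * Real.pi * 1 * (x₀ + t)) : ℂ) * H1 t)).re :=
      continuous_const.mul hc4
    rw [intervalIntegral.integral_congr (fun t _ => hpt t),
      intervalIntegral.integral_add (hc7.intervalIntegrable _ _) (hc8.intervalIntegrable _ _),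
      intervalIntegral.integral_add (hc1.intervalIntegrable _ _) (hc9.intervalIntegrable _ _),
      intervalIntegral.integral_const_mul, intervalIntegral.integral_const_mul,
      intervalIntegral.integral_add (hc5.intervalIntegrable _ _) (hc6.intervalIntegrable _ _),
      intervalIntegral.integral_div, intervalIntegral.integral_div, hre]
  have hI2 : |∫ t in (-T)..T, Real.cos (2 * Real.pi * 2 * (x₀ + t)) * q t| ≤ 4 * Real.exp (4 * E) * 4 := by
    have h1 : (∫ t in (-T)..T, (Real.cos (2 * Real.pi * 2 * (x₀ + t)) : ℂ) * H2 t) =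
        ((∫ t in (-T)..T, Real.cos (2 * Real.pi * 2 * (x₀ + t)) * q t : ℝ) : ℂ) := by
      rw [← intervalIntegral.integral_ofReal]
      congr 1
      ext t
      rw [hH2r]; push_cast; rfl
    rw [h1, Complex.norm_real, Real.norm_eq_abs] at I2
    exact I2
  have hI1 : |(α * (∫ t in (-T)..T, (Real.cos (2 * Real.pi * 1 * (x₀ + t)) : ℂ) * H1 t)).re| ≤
      2 * Real.exp (3 * E) * 4 := by
    refine (Complex.abs_re_le_norm _).trans ?_
    rw [norm_mul]
    calc _ ≤ 1 * (2 * Real.exp (3 * E) * 4) := by gcongr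
      _ = _ := by ring
  have hα2 : ‖α‖ ^ 2 ≤ 1 := pow_le_one₀ (norm_nonneg _) hα
  have hα0 : 0 ≤ ‖α‖ ^ 2 := by positivity
  have he34 : Real.exp (3 * E) ≤ Real.exp (4 * E) := Real.exp_le_exp.2 (by linarith)
  rw [hint]
  rw [abs_le] at hI1 hI2
  have h9 : -(8 * Real.exp (4 * E)) ≤ ‖α‖ ^ 2 *
      ((∫ t in (-T)..T, Real.cos (2 * Real.pi * 2 * (x₀ + t)) * q t) / 2) := by
    nlinarith [hI2.1, hI2.2, Real.exp_pos (4 * E)]
  nlinarith [hI1.1, hI1.2]

end Pool.Agent.W_MP_4481e3_an
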