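import Pool.Agent.W_MP_4481e3_an.Defs

open MeasureTheory Filter Topology Set

namespace Pool.Agent.W_MP_4481e3_an

lemma chordal_coe (z w : ℂ) : chordal (z : OnePoint ℂ) (w : OnePoint ℂ) =
    2 * ‖z - w‖ / (√(1 + ‖z‖ ^ 2) * √(1 + ‖w‖ ^ 2)) := rfl

lemma chordal_coe_inf (z : ℂ) : chordal (z : OnePoint ℂ) OnePoint.infty = 2 / √(1 + ‖z‖ ^ 2) := rfl

lemma chordal_inf_coe (z : ℂ) : chordal OnePoint.infty (z : OnePoint ℂ) = 2 / √(1 + ‖z‖ ^ 2) := rfl

lemma chordal_inf_inf : chordal OnePoint.infty OnePoint.infty = 0 := rfl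

/-- stereographic projection -/
noncomputable def st : OnePoint ℂ → WithLp 2 (ℂ × ℝ)
  | some z => WithLp.toLp 2 ((2 / (1 + ‖z‖ ^ 2) : ℝ) • z, (‖z‖ ^ 2 - 1) / (1 + ‖z‖ ^ 2))
  | none => WithLp.toLp 2 (0, 1)

lemma st_coe (z : ℂ) : st (z : OnePoint ℂ) =
    WithLp.toLp 2 ((2 / (1 + ‖z‖ ^ 2) : ℝ) • z, (‖z‖ ^ 2 - 1) / (1 + ‖z‖ ^ 2)) := rfl

lemma st_inf : st OnePoint.infty = WithLp.toLp 2 (0, 1) := rfl

lemma dist_st_coe (z w : ℂ) : dist (st z) (st w) = chordal z w := by
  rw [WithLp.prod_dist_eq_of_L2, st_coe, st_coe, chordal_coe]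
  have ha : (0:ℝ) < 1 + ‖z‖ ^ 2 := by positivity
  have hb : (0:ℝ) < 1 + ‖w‖ ^ 2 := by positivity
  have h1 : (2 * ‖z - w‖ / (√(1 + ‖z‖ ^ 2) * √(1 + ‖w‖ ^ 2))) =
      √((2 * ‖z - w‖ / (√(1 + ‖z‖ ^ 2) * √(1 + ‖w‖ ^ 2))) ^ 2) := by
    rw [Real.sqrt_sq (by positivity)]
  rw [h1]
  congr 1
  rw [div_pow, mul_pow, mul_pow, Real.sq_sqrt ha.le, Real.sq_sqrt hb.le]
  simp only [dist_eq_norm, Real.norm_eq_abs, sq_abs, WithLp.toLp_fst, WithLp.toLp_snd]
  rw [Complex.sq_norm (z - w), Complex.sq_norm ((2 / (1 + ‖z‖ ^ 2) : ℝ) • z - (2 / (1 + ‖w‖ ^ 2) : ℝ) • w)]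
  rw [Complex.normSq_apply, Complex.normSq_apply]
  simp only [Complex.sub_re, Complex.sub_im, Complex.real_smul, Complex.mul_re, Complex.mul_im,
    Complex.ofReal_re, Complex.ofReal_im, zero_mul, sub_zero, add_zero]
  have e1 : ‖z‖ ^ 2 = z.re * z.re + z.im * z.im := by rw [Complex.sq_norm, Complex.normSq_apply]
  have e2 : ‖w‖ ^ 2 = w.re * w.re + w.im * w.im := by rw [Complex.sq_norm, Complex.normSq_apply]
  rw [e1] at ha ⊢
  rw [e2] at hb ⊢
  field_simp
  ring

lemma dist_st_inf (z : ℂ) : dist (st z) (st OnePoint.infty) = chordal z OnePoint.infty := by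
  rw [WithLp.prod_dist_eq_of_L2, st_coe, st_inf, chordal_coe_inf]
  have ha : (0:ℝ) < 1 + ‖z‖ ^ 2 := by positivity
  have h1 : (2 / √(1 + ‖z‖ ^ 2)) = √((2 / √(1 + ‖z‖ ^ 2)) ^ 2) := by
    rw [Real.sqrt_sq (by positivity)]
  rw [h1]
  congr 1
  rw [div_pow, Real.sq_sqrt ha.le]
  simp only [dist_eq_norm, Real.norm_eq_abs, sq_abs, WithLp.toLp_fst, WithLp.toLp_snd]
  rw [sub_zero, norm_smul, Real.norm_eq_abs, abs_of_pos (by positivity)]
  field_simp
  ring

lemma dist_st (x y : OnePoint ℂ) : dist (st x) (st y) = chordal x y := by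
  induction x using OnePoint.rec with
  | infty =>
    induction y using OnePoint.rec with
    | infty => rw [dist_self]; rfl
    | coe w => rw [dist_comm, dist_st_inf]; rfl
  | coe z =>
    induction y using OnePoint.rec with
    | infty => exact dist_st_inf z
    | coe w => exact dist_st_coe z w

lemma chordal_comm (x y : OnePoint ℂ) : chordal x y = chordal y x := by
  rw [← dist_st, ← dist_st, dist_comm]

lemma chordal_triangle (x y z : OnePoint ℂ) : chordal x z ≤ chordal x y + chordal y z := by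
  rw [← dist_st, ← dist_st, ← dist_st]
  exact dist_triangle _ _ _

lemma chordal_nonneg (x y : OnePoint ℂ) : 0 ≤ chordal x y := by
  rw [← dist_st]; exact dist_nonneg

lemma chordal_self (x : OnePoint ℂ) : chordal x x = 0 := by rw [← dist_st, dist_self]

lemma chordal_eq_zero {x y : OnePoint ℂ} (h : chordal x y = 0) : x = y := by
  induction x using OnePoint.rec with
  | infty =>
    induction y using OnePoint.rec with
    | infty => rfl
    | coe w =>
      rw [chordal_inf_coe] at h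
      have : (0:ℝ) < 2 / √(1 + ‖w‖ ^ 2) := by positivity
      linarith
  | coe z =>
    induction y using OnePoint.rec with
    | infty =>
      rw [chordal_coe_inf] at h
      have : (0:ℝ) < 2 / √(1 + ‖z‖ ^ 2) := by positivity
      linarith
    | coe w =>
      rw [chordal_coe, div_eq_zero_iff] at h
      rcases h with h | h
      · have : ‖z - w‖ = 0 := by linarith
        rw [norm_eq_zero, sub_eq_zero] at this
        rw [this]
      · have : (0:ℝ) < √(1 + ‖z‖ ^ 2) * √(1 + ‖w‖ ^ 2) := by positivity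
        linarith

lemma st_injective : Function.Injective st := by
  intro x y h
  apply chordal_eq_zero
  rw [← dist_st, h, dist_self]

lemma norm_le_sqrt (z : ℂ) : ‖z‖ ≤ √(1 + ‖z‖ ^ 2) :=
  Real.le_sqrt_of_sq_le (by linarith)

lemma chordal_inf_le {z : ℂ} (hz : 0 < ‖z‖) : chordal z OnePoint.infty ≤ 2 / ‖z‖ := by
  rw [chordal_coe_inf]
  have := norm_le_sqrt z
  gcongr

lemma chordal_coe_le (z w : ℂ) : chordal z w ≤ 2 * ‖z - w‖ := by
  rw [chordal_coe, div_le_iff₀ (by positivity)]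
  have h1 : (1:ℝ) ≤ √(1 + ‖z‖ ^ 2) := Real.one_le_sqrt.2 (by nlinarith [sq_nonneg ‖z‖])
  have h2 : (1:ℝ) ≤ √(1 + ‖w‖ ^ 2) := Real.one_le_sqrt.2 (by nlinarith [sq_nonneg ‖w‖])
  have h3 : 0 ≤ 2 * ‖z - w‖ := by positivity
  nlinarith [mul_le_mul h1 h2 zero_le_one (by positivity)]

lemma st_continuous : Continuous st := by
  rw [OnePoint.continuous_iff]
  constructor
  · rw [tendsto_iff_dist_tendsto_zero]
    have h1 : Tendsto (fun z : ℂ => 2 / ‖z‖) (coclosedCompact ℂ) (𝓝 0) := by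
      rw [coclosedCompact_eq_cocompact]
      exact tendsto_const_nhds.div_atTop (tendsto_norm_cocompact_atTop)
    refine squeeze_zero' (Filter.Eventually.of_forall fun _ => dist_nonneg) ?_ h1
    have h2 : ∀ᶠ z : ℂ in coclosedCompact ℂ, 1 ≤ ‖z‖ := by
      rw [coclosedCompact_eq_cocompact]
      exact (tendsto_norm_cocompact_atTop).eventually_ge_atTop 1
    filter_upwards [h2] with z hz
    rw [dist_st]
    exact chordal_inf_le (by linarith)
  · rw [continuous_iff_continuousAt]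
    intro z
    rw [ContinuousAt, tendsto_iff_dist_tendsto_zero]
    have h1 : Tendsto (fun w : ℂ => 2 * ‖w - z‖) (𝓝 z) (𝓝 0) := by
      have : Continuous fun w : ℂ => 2 * ‖w - z‖ := by fun_prop
      have := this.tendsto z
      simpa using this
    refine squeeze_zero (fun _ => dist_nonneg) (fun w => ?_) h1
    rw [dist_st]
    exact chordal_coe_le w z

lemma st_embedding : IsEmbedding st := (st_continuous.isClosedEmbedding st_injective).isEmbedding

lemma chordal_ball_nhds (x : OnePoint ℂ) {r : ℝ} (hr : 0 < r) : {y | chordal x y < r} ∈ 𝓝 x := by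
  rw [st_embedding.nhds_eq_comap]
  refine ⟨Metric.ball (st x) r, Metric.ball_mem_nhds _ hr, ?_⟩
  intro y hy
  simp only [mem_preimage, Metric.mem_ball] at hy
  rw [dist_comm, dist_st] at hy
  exact hy

lemma exists_chordal_ball {x : OnePoint ℂ} {U : Set (OnePoint ℂ)} (hU : U ∈ 𝓝 x) :
    ∃ r > 0, {y | chordal x y < r} ⊆ U := by
  rw [st_embedding.nhds_eq_comap, Filter.mem_comap] at hU
  obtain ⟨t, ht, htU⟩ := hU
  obtain ⟨r, hr, hrt⟩ := Metric.mem_nhds_iff.1 ht
  refine ⟨r, hr, fun y hy => htU (hrt ?_)⟩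
  rw [Metric.mem_ball, dist_comm, dist_st]
  exact hy

lemma chordal_continuous (p : OnePoint ℂ) : Continuous fun y => chordal y p := by
  have : (fun y => chordal y p) = fun y => dist (st y) (st p) := by ext y; rw [dist_st]
  rw [this]
  exact st_continuous.dist continuous_const

lemma fibreMap_continuous (α : ℂ) (u : ℝ) : Continuous (fibreMap α u) := by
  unfold fibreMap
  set b : ℂ := α * (Real.cos (2 * Real.pi * u) : ℂ) with hb
  apply OnePoint.continuous_map
  · fun_prop
  · rw [coclosedCompact_eq_cocompact]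
    by_cases h0 : b = 0
    · have : (fun z : ℂ => z + α * (Real.cos (2 * Real.pi * u) : ℂ) * z * (1 - z)) = fun z => z := by
        ext z; rw [← hb, h0]; ring
      rw [this]
      exact tendsto_id
    · rw [← Metric.cobounded_eq_cocompact, ← tendsto_norm_atTop_iff_cobounded,
        Metric.cobounded_eq_cocompact]
      have hb' : 0 < ‖b‖ := norm_pos_iff.2 h0
      have h1 : Tendsto (fun z : ℂ => ‖z‖) (cocompact ℂ) atTop := tendsto_norm_cocompact_atTop
      have h2 : Tendsto (fun z : ℂ => ‖z‖ * (‖b‖ * ‖z‖ - (1 + ‖b‖))) (cocompact ℂ) atTop := by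
        apply h1.atTop_mul_atTop₀
        exact tendsto_atTop_add_const_right _ _ (h1.const_mul_atTop hb')
      refine tendsto_atTop_mono (fun z => ?_) h2
      have h3 : z + α * (Real.cos (2 * Real.pi * u) : ℂ) * z * (1 - z) = z * ((1 + b) - b * z) := by
        rw [← hb]; ring
      rw [h3, norm_mul z]
      apply mul_le_mul_of_nonneg_left _ (norm_nonneg z)
      have h4 := norm_sub_norm_le (b * z) (1 + b)
      rw [norm_mul b z, norm_sub_rev] at h4
      have h5 : ‖1 + b‖ ≤ 1 + ‖b‖ := (norm_add_le _ _).trans (by simp)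
      linarith

lemma fibreIter_continuous (α : ℂ) (L : ℕ) (u : ℝ) (n : ℕ) : Continuous (fibreIter α L u n) := by
  induction n with
  | zero => exact continuous_id
  | succ n ih => exact (fibreMap_continuous _ _).comp ih

lemma fibreIter_chordal (α : ℂ) (L : ℕ) (u : ℝ) (n : ℕ) (x : OnePoint ℂ) {ε : ℝ} (hε : 0 < ε) :
    ∃ δ > 0, ∀ y, chordal x y < δ → chordal (fibreIter α L u n x) (fibreIter α L u n y) < ε := by
  have h1 := (fibreIter_continuous α L u n).continuousAt (x := x)
  have h2 := h1 (chordal_ball_nhds (fibreIter α L u n x) hε)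
  exact exists_chordal_ball h2

end Pool.Agent.W_MP_4481e3_an
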